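import Pool.Agent.Helper72.Gon.Cube

open Finset BigOperators

set_option linter.unusedSectionVars false

namespace H72Gon

variable {G : Type*} [AddCommGroup G] [Fintype G] [DecidableEq G]
variable {E : Type*} [Fintype E] [DecidableEq E]
variable {V : Type*} [AddCommGroup V] [Module ℚ V]

section ame

variable (N : ℕ) (Ψ : MultilinearMap ℚ (fun _ : Fin N => V) (V →ₗ[ℚ] ℝ))
variable (q : E → V) (β : Fin (N + 2) → V)

/-- the divisor -/
def vv (a : Fin (N + 2) → E) : V := ∑ j, (q (a j) - β j)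

/-- the functional -/
noncomputable def Fa (a : Fin (N + 2) → E) : V →ₗ[ℚ] ℝ := Ψ (fun _ => vv N q β a)

/-- the terms -/
noncomputable def tm (φ : Fin N → Fin (N + 2)) (a : Fin (N + 2) → E) : V →ₗ[ℚ] ℝ :=
  Ψ (fun i => q (a (φ i)) - β (φ i))

lemma Fa_expand (a : Fin (N + 2) → E) (u : V) :
    Fa N Ψ q β a u = ∑ φ : Fin N → Fin (N + 2), tm N Ψ q β φ a u := by
  unfold Fa vv tm
  rw [MultilinearMap.map_sum, LinearMap.sum_apply]

lemma exists_missing (φ : Fin N → Fin (N + 2)) :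
    ∃ j1 j2 : Fin (N + 2), j1 ≠ j2 ∧ (∀ i, φ i ≠ j1) ∧ (∀ i, φ i ≠ j2) := by
  classical
  have h1 : #(Finset.univ.image φ) ≤ N := by
    refine Finset.card_image_le.trans ?_
    simp
  have h2 : 1 < #(Finset.univ.image φ)ᶜ := by
    rw [Finset.card_compl, Fintype.card_fin]; omega
  obtain ⟨j1, hj1, j2, hj2, hne⟩ := Finset.one_lt_card.mp h2
  refine ⟨j1, j2, hne, fun i h => ?_, fun i h => ?_⟩
  · rw [Finset.mem_compl] at hj1
    exact hj1 (Finset.mem_image.mpr ⟨i, Finset.mem_univ _, h⟩)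
  · rw [Finset.mem_compl] at hj2
    exact hj2 (Finset.mem_image.mpr ⟨i, Finset.mem_univ _, h⟩)

lemma tm_congr (φ : Fin N → Fin (N + 2)) (a a' : Fin (N + 2) → E)
    (h : ∀ i, a (φ i) = a' (φ i)) : tm N Ψ q β φ a = tm N Ψ q β φ a' := by
  unfold tm
  congr 1
  funext i
  rw [h i]

end ame

section SSlin

variable (N : ℕ) (θ : E → G) (g0 : G)

lemma SS_congr {H H' : (Fin (N + 2) → E) → (Fin (N + 1) → E) → ℝ}
    (h : ∀ a z, ∑ j, θ (a j) = g0 + ∑ l, θ (z l) → H a z = H' a z) :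
    SS N θ g0 H = SS N θ g0 H' := by
  unfold SS
  refine Finset.sum_congr rfl fun a _ => Finset.sum_congr rfl fun z _ => ?_
  by_cases hc : ∑ j, θ (a j) = g0 + ∑ l, θ (z l)
  · rw [if_pos hc, if_pos hc, h a z hc]
  · rw [if_neg hc, if_neg hc]

lemma SS_add (H H' : (Fin (N + 2) → E) → (Fin (N + 1) → E) → ℝ) :
    SS N θ g0 (fun a z => H a z + H' a z) = SS N θ g0 H + SS N θ g0 H' := by
  unfold SS
  simp only [← Finset.sum_add_distrib]
  refine Finset.sum_congr rfl fun a _ => Finset.sum_congr rfl fun z _ => ?_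
  split_ifs <;> simp

lemma SS_sub (H H' : (Fin (N + 2) → E) → (Fin (N + 1) → E) → ℝ) :
    SS N θ g0 (fun a z => H a z - H' a z) = SS N θ g0 H - SS N θ g0 H' := by
  unfold SS
  simp only [← Finset.sum_sub_distrib]
  refine Finset.sum_congr rfl fun a _ => Finset.sum_congr rfl fun z _ => ?_
  split_ifs <;> simp

lemma SS_sum {κ : Type*} (s : Finset κ) (H : κ → (Fin (N + 2) → E) → (Fin (N + 1) → E) → ℝ) :
    SS N θ g0 (fun a z => ∑ k ∈ s, H k a z) = ∑ k ∈ s, SS N θ g0 (H k) := by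
  classical
  induction s using Finset.induction_on with
  | empty => simp [SS]
  | insert k s hk ih =>
    rw [Finset.sum_insert hk, ← ih, ← SS_add]
    congr 1
    funext a z
    rw [Finset.sum_insert hk]

lemma SS_zero : SS N θ g0 (fun _ _ => 0) = 0 := by
  simp [SS]

/-- weights -/
noncomputable def Wt (a : Fin (N + 2) → E) : ℝ :=
  ∑ z : Fin (N + 1) → E, if ∑ j, θ (a j) = g0 + ∑ l, θ (z l) then 1 else 0

lemma SS_a (h : (Fin (N + 2) → E) → ℝ) :
    SS N θ g0 (fun a _ => h a) = ∑ a, Wt N θ g0 a * h a := by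
  unfold SS Wt
  refine Finset.sum_congr rfl fun a _ => ?_
  rw [Finset.sum_mul]
  refine Finset.sum_congr rfl fun z _ => ?_
  split_ifs <;> simp

lemma Wt_nonneg (a : Fin (N + 2) → E) : 0 ≤ Wt N θ g0 a :=
  Finset.sum_nonneg fun _ _ => by split_ifs <;> norm_num

lemma Wt_le (hS : Sidon θ (N + 1)) (a : Fin (N + 2) → E) :
    Wt N θ g0 a ≤ ((N + 1).factorial : ℝ) := by
  have := hS.cnt_le (ι := Fin (N + 1)) (by simp) (∑ j, θ (a j) - g0)
  rw [Fintype.card_fin] at this
  refine le_trans (le_of_eq ?_) this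
  unfold Wt cnt
  refine Finset.sum_congr rfl fun z _ => ?_
  congr 1
  apply propext
  constructor
  · intro h; rw [h]; abel
  · intro h; rw [h]; abel

lemma Wt_ne_zero {a : Fin (N + 2) → E} (h : Wt N θ g0 a ≠ 0) :
    ∃ z : Fin (N + 1) → E, ∑ j, θ (a j) = g0 + ∑ l, θ (z l) := by
  by_contra hc
  push Not at hc
  apply h
  unfold Wt
  refine Finset.sum_eq_zero fun z _ => if_neg (hc z)

end SSlin

/-- bound for the number of `a` lying in thin fibres -/
lemma bad_bound (N : ℕ) (θ : E → G) (hS : Sidon θ (N + 1)) (η : ℝ)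
    (hη : ∀ ψ : AddChar G ℂ, ψ ≠ 0 → ‖chs θ ψ‖ ≤ η) (R : ℝ) (hR : 0 < R)
    (hT : 2 * R ≤ (Fintype.card E : ℝ) ^ (N + 2) / (Fintype.card G : ℝ)) :
    ((#{a : Fin (N + 2) → E | cnt (fun _ : Fin (N + 2) => θ) (∑ j, θ (a j)) ≤ R} : ℕ) : ℝ) *
      ((Fintype.card E : ℝ) ^ (N + 2) / (Fintype.card G : ℝ)) ^ 2 ≤
      R * 4 * (η ^ 2 * (((N + 1).factorial : ℝ) * (Fintype.card E : ℝ) ^ (N + 1))) := by
  classical
  set T := (Fintype.card E : ℝ) ^ (N + 2) / (Fintype.card G : ℝ) with hTdef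
  have hvar := var_le (ι := Fin (N + 2)) θ (fun _ => θ) (fun _ _ => rfl) (N + 1) (by simp) η hη
  have hT0 : 0 < T := by linarith
  have h1 : ((#{a : Fin (N + 2) → E | cnt (fun _ : Fin (N + 2) => θ) (∑ j, θ (a j)) ≤ R} : ℕ) : ℝ) =
      ∑ g, if cnt (fun _ : Fin (N + 2) => θ) g ≤ R then cnt (fun _ : Fin (N + 2) => θ) g else 0 := by
    rw [Finset.card_filter]
    push_cast
    calc ∑ a : Fin (N + 2) → E, (if cnt (fun _ : Fin (N + 2) => θ) (∑ j, θ (a j)) ≤ R then (1 : ℝ)
          else 0)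
        = ∑ a : Fin (N + 2) → E, ∑ g, (if ∑ j, θ (a j) = g then
            (if cnt (fun _ : Fin (N + 2) => θ) g ≤ R then (1 : ℝ) else 0) else 0) := by
          refine Finset.sum_congr rfl fun a _ => ?_
          rw [Finset.sum_ite_eq, if_pos (Finset.mem_univ _)]
      _ = ∑ g, ∑ a : Fin (N + 2) → E, (if ∑ j, θ (a j) = g then
            (if cnt (fun _ : Fin (N + 2) => θ) g ≤ R then (1 : ℝ) else 0) else 0) :=
          Finset.sum_comm
      _ = _ := by
          refine Finset.sum_congr rfl fun g _ => ?_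
          by_cases hg : cnt (fun _ : Fin (N + 2) => θ) g ≤ R
          · rw [if_pos hg]
            simp only [hg, if_true]
            rfl
          · rw [if_neg hg]
            simp [hg]
  rw [h1]
  have h2 : ∀ g, (if cnt (fun _ : Fin (N + 2) => θ) g ≤ R then cnt (fun _ : Fin (N + 2) => θ) g
      else 0) * T ^ 2 ≤ R * 4 * (cnt (fun _ : Fin (N + 2) => θ) g - T) ^ 2 := by
    intro g
    have h0 := cnt_nonneg (fun _ : Fin (N + 2) => θ) g
    split_ifs with hg
    · have h3 : T / 2 ≤ T - cnt (fun _ : Fin (N + 2) => θ) g := by linarith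
      have h4 : (T / 2) ^ 2 ≤ (T - cnt (fun _ : Fin (N + 2) => θ) g) ^ 2 :=
        pow_le_pow_left₀ (by linarith) h3 2
      calc cnt (fun _ : Fin (N + 2) => θ) g * T ^ 2 ≤ R * T ^ 2 :=
            mul_le_mul_of_nonneg_right hg (by positivity)
        _ = R * 4 * (T / 2) ^ 2 := by ring
        _ ≤ R * 4 * (T - cnt (fun _ : Fin (N + 2) => θ) g) ^ 2 :=
            mul_le_mul_of_nonneg_left h4 (by positivity)
        _ = _ := by ring
    · rw [zero_mul]; positivity
  rw [Finset.sum_mul]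
  calc _ ≤ ∑ g, R * 4 * (cnt (fun _ : Fin (N + 2) => θ) g - T) ^ 2 :=
        Finset.sum_le_sum fun g _ => h2 g
    _ = R * 4 * ∑ g, (cnt (fun _ : Fin (N + 2) => θ) g - T) ^ 2 := by rw [Finset.mul_sum]
    _ ≤ R * 4 * (η ^ 2 * Nm θ (N + 1)) := mul_le_mul_of_nonneg_left hvar (by positivity)
    _ ≤ _ := by
        refine mul_le_mul_of_nonneg_left ?_ (by positivity)
        exact mul_le_mul_of_nonneg_left hS.Nm_le (by positivity)

section main

variable (N : ℕ) (Ψ : MultilinearMap ℚ (fun _ : Fin N => V) (V →ₗ[ℚ] ℝ))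
variable (q : E → V) (β : Fin (N + 2) → V) (θ : E → G) (gy gy0 : G) (y y0 : V)

/-- abstract main estimate -/
theorem ame (hS : Sidon θ (N + 1)) (η : ℝ) (hη0 : 0 ≤ η)
    (hη : ∀ ψ : AddChar G ℂ, ψ ≠ 0 → ‖chs θ ψ‖ ≤ η)
    (M : ℝ) (hM : 0 ≤ M)
    (bd1 : ∀ (x : Fin N → E) (φ : Fin N → Fin (N + 2)) (c : E), (∀ i, x i ≠ c) →
      |Ψ (fun i => q (x i) - β (φ i)) (q c - y0)| ≤ M)
    (bd2 : ∀ (x : Fin N → E) (φ : Fin N → Fin (N + 2)),
      |Ψ (fun i => q (x i) - β (φ i)) (y - y0)| ≤ M)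
    (rel1 : ∀ (a : Fin (N + 2) → E) (z : Fin (N + 1) → E), ∑ j, θ (a j) = gy + ∑ l, θ (z l) →
      (∀ j l, a j ≠ z l) ∧ Fa N Ψ q β a (∑ l, q (z l) + y - ∑ j, β j) = 0)
    (rel0 : ∀ (a : Fin (N + 2) → E) (z : Fin (N + 1) → E), ∑ j, θ (a j) = gy0 + ∑ l, θ (z l) →
      (∀ j l, a j ≠ z l) ∧ Fa N Ψ q β a (∑ l, q (z l) + y0 - ∑ j, β j) = 0)
    (rel2 : ∀ (a z : Fin (N + 2) → E), ∑ j, θ (a j) = ∑ l, θ (z l) →
      ¬ ((Finset.univ : Finset (Fin (N + 2))).val.map a =
        (Finset.univ : Finset (Fin (N + 2))).val.map z) →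
      (∀ j l, a j ≠ z l) ∧ Fa N Ψ q β a (∑ l, q (z l) - ∑ j, β j) = 0)
    (hE : 0 < Fintype.card E) :
    (Fintype.card E : ℝ) ^ (N + 1) / (Fintype.card G : ℝ) * |∑ a, Fa N Ψ q β a (y - y0)| ≤
      M * (((N + 2 : ℝ) ^ N + 2 * (N + 1) * (N + 2 : ℝ) ^ N + 2 ^ (N + 3) * (N + 2 : ℝ) ^ (N + 1)) *
        (((N + 1).factorial : ℝ) * η * (Fintype.card E : ℝ) ^ (N + 1)) +
        4 ^ (N + 2) * ((N + 1).factorial : ℝ) * (N + 2 : ℝ) ^ (N + 1) *
        ((#{a : Fin (N + 2) → E | cnt (fun _ : Fin (N + 2) => θ) (∑ j, θ (a j)) ≤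
          ((N + 2).factorial : ℝ)} : ℕ) : ℝ)) := by
  classical
  set e := (Fintype.card E : ℝ) with he
  have he0 : 0 < e := by rw [he]; exact_mod_cast hE
  set ε0 := ((N + 1).factorial : ℝ) * η * e ^ (N + 1) with hε0
  have hε00 : 0 ≤ ε0 := by positivity
  set D : ℝ := (N + 2 : ℝ) with hD
  have hD0 : 0 < D := by positivity
  set L : ℝ := D ^ (N + 1) * M with hL
  have hL0 : 0 ≤ L := by positivity
  set κ : (Fin (N + 2) → E) → ℝ := fun a => Fa N Ψ q β a (∑ j, β j - (N + 2) • y0) with hκ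
  have hcardφ : (Fintype.card (Fin N → Fin (N + 2)) : ℝ) = D ^ N := by
    rw [Fintype.card_fun, Fintype.card_fin, Fintype.card_fin]; push_cast; rfl
  -- bounds for Fa
  have hFy : ∀ a, |Fa N Ψ q β a (y - y0)| ≤ D ^ N * M := by
    intro a
    rw [Fa_expand]
    refine (Finset.abs_sum_le_sum_abs _ _).trans ?_
    calc _ ≤ ∑ _φ : Fin N → Fin (N + 2), M := Finset.sum_le_sum fun φ _ => bd2 _ φ
      _ = D ^ N * M := by rw [Finset.sum_const, Finset.card_univ, nsmul_eq_mul, hcardφ]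
  have hFc : ∀ a c, (∀ j, a j ≠ c) → |Fa N Ψ q β a (q c - y0)| ≤ D ^ N * M := by
    intro a c hc
    rw [Fa_expand]
    refine (Finset.abs_sum_le_sum_abs _ _).trans ?_
    calc _ ≤ ∑ _φ : Fin N → Fin (N + 2), M :=
          Finset.sum_le_sum fun φ _ => bd1 _ φ c (fun i => hc _)
      _ = D ^ N * M := by rw [Finset.sum_const, Finset.card_univ, nsmul_eq_mul, hcardφ]
  -- relations rewritten
  have R1 : ∀ (a : Fin (N + 2) → E) (z : Fin (N + 1) → E), ∑ j, θ (a j) = gy + ∑ l, θ (z l) →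
      κ a = Fa N Ψ q β a (y - y0) + ∑ l, Fa N Ψ q β a (q (z l) - y0) := by
    intro a z haz
    have h := (rel1 a z haz).2
    have e1 : ∑ j, β j - (N + 2) • y0 = (y - y0) + ∑ l, (q (z l) - y0) -
        (∑ l, q (z l) + y - ∑ j, β j) := by
      rw [Finset.sum_sub_distrib, Finset.sum_const, Finset.card_univ, Fintype.card_fin]
      have : (N + 2) • y0 = (N + 1) • y0 + y0 := by rw [← succ_nsmul]
      rw [this]; abel
    simp only [hκ]
    rw [e1, map_sub, h, sub_zero, map_add, map_sum]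
  have R0 : ∀ (a : Fin (N + 2) → E) (z : Fin (N + 1) → E), ∑ j, θ (a j) = gy0 + ∑ l, θ (z l) →
      κ a = ∑ l, Fa N Ψ q β a (q (z l) - y0) := by
    intro a z haz
    have h := (rel0 a z haz).2
    have e1 : ∑ j, β j - (N + 2) • y0 = ∑ l, (q (z l) - y0) -
        (∑ l, q (z l) + y0 - ∑ j, β j) := by
      rw [Finset.sum_sub_distrib, Finset.sum_const, Finset.card_univ, Fintype.card_fin]
      have : (N + 2) • y0 = (N + 1) • y0 + y0 := by rw [← succ_nsmul]
      rw [this]; abel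
    simp only [hκ]
    rw [e1, map_sub, h, sub_zero, map_sum]
  have R2 : ∀ (a z : Fin (N + 2) → E), ∑ j, θ (a j) = ∑ l, θ (z l) →
      ¬ ((Finset.univ : Finset (Fin (N + 2))).val.map a =
        (Finset.univ : Finset (Fin (N + 2))).val.map z) →
      κ a = ∑ l, Fa N Ψ q β a (q (z l) - y0) := by
    intro a z haz hne
    have h := (rel2 a z haz hne).2
    have e1 : ∑ j, β j - (N + 2) • y0 = ∑ l, (q (z l) - y0) -
        (∑ l, q (z l) - ∑ j, β j) := by
      rw [Finset.sum_sub_distrib, Finset.sum_const, Finset.card_univ, Fintype.card_fin]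
      abel
    simp only [hκ]
    rw [e1, map_sub, h, sub_zero, map_sum]
  have hLD : L = (N + 2 : ℝ) * (D ^ N * M) := by rw [hL, pow_succ, ← hD]; ring
  have K1 : ∀ a, Wt N θ gy a ≠ 0 → |κ a| ≤ L := by
    intro a ha
    obtain ⟨z, hz⟩ := Wt_ne_zero N θ gy ha
    rw [R1 a z hz]
    refine (abs_add_le _ _).trans ?_
    have h1 := hFy a
    have h2 : |∑ l, Fa N Ψ q β a (q (z l) - y0)| ≤ (N + 1 : ℝ) * (D ^ N * M) := by
      refine (Finset.abs_sum_le_sum_abs _ _).trans ?_
      calc _ ≤ ∑ _l : Fin (N + 1), D ^ N * M :=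
            Finset.sum_le_sum fun l _ => hFc a (z l) (fun j => (rel1 a z hz).1 j l)
        _ = (N + 1 : ℝ) * (D ^ N * M) := by
            rw [Finset.sum_const, Finset.card_univ, Fintype.card_fin, nsmul_eq_mul]; push_cast; rfl
    rw [hLD]; nlinarith
  have K0 : ∀ a, Wt N θ gy0 a ≠ 0 → |κ a| ≤ L := by
    intro a ha
    obtain ⟨z, hz⟩ := Wt_ne_zero N θ gy0 ha
    rw [R0 a z hz]
    have h2 : |∑ l, Fa N Ψ q β a (q (z l) - y0)| ≤ (N + 1 : ℝ) * (D ^ N * M) := by
      refine (Finset.abs_sum_le_sum_abs _ _).trans ?_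
      calc _ ≤ ∑ _l : Fin (N + 1), D ^ N * M :=
            Finset.sum_le_sum fun l _ => hFc a (z l) (fun j => (rel0 a z hz).1 j l)
        _ = (N + 1 : ℝ) * (D ^ N * M) := by
            rw [Finset.sum_const, Finset.card_univ, Fintype.card_fin, nsmul_eq_mul]; push_cast; rfl
    have h3 : 0 ≤ D ^ N * M := by positivity
    rw [hLD]; nlinarith
  have K2 : ∀ a, L < |κ a| → cnt (fun _ : Fin (N + 2) => θ) (∑ j, θ (a j)) ≤
      ((N + 2).factorial : ℝ) := by
    intro a ha
    by_contra hc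
    push Not at hc
    -- there is z not a permutation of a
    have : ∃ z : Fin (N + 2) → E, ∑ j, θ (z j) = ∑ j, θ (a j) ∧
      ¬ ((Finset.univ : Finset (Fin (N + 2))).val.map z =
        (Finset.univ : Finset (Fin (N + 2))).val.map a) := by
      by_contra hno
      push Not at hno
      have h1 : cnt (fun _ : Fin (N + 2) => θ) (∑ j, θ (a j)) ≤ ((N + 2).factorial : ℝ) := by
        unfold cnt
        rw [← Finset.sum_filter, Finset.sum_const, nsmul_eq_mul, mul_one]
        have := card_perm_bound a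
        rw [Fintype.card_fin] at this
        norm_cast
        refine le_trans (Finset.card_le_card ?_) this
        intro z hz
        exact Finset.mem_filter.mpr ⟨Finset.mem_univ _, hno z (Finset.mem_filter.mp hz).2⟩
      linarith
    obtain ⟨z, hz1, hz2⟩ := this
    have hne : ¬ ((Finset.univ : Finset (Fin (N + 2))).val.map a =
        (Finset.univ : Finset (Fin (N + 2))).val.map z) := fun h => hz2 h.symm
    have h2 : |κ a| ≤ L := by
      rw [R2 a z hz1.symm hne]
      refine (Finset.abs_sum_le_sum_abs _ _).trans ?_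
      calc _ ≤ ∑ _l : Fin (N + 2), D ^ N * M :=
            Finset.sum_le_sum fun l _ => hFc a (z l) (fun j => (rel2 a z hz1.symm hne).1 j l)
        _ = L := by
            rw [Finset.sum_const, Finset.card_univ, Fintype.card_fin, nsmul_eq_mul, hLD]
            push_cast; rfl
    linarith
  -- T1
  have T1 : |SS N θ gy (fun a _ => Fa N Ψ q β a (y - y0)) -
      MM N G (fun a (_ : Fin (N + 1) → E) => Fa N Ψ q β a (y - y0))| ≤ D ^ N * (M * ε0) := by
    have e1 : SS N θ gy (fun a _ => Fa N Ψ q β a (y - y0)) =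
        ∑ φ : Fin N → Fin (N + 2), SS N θ gy (fun a _ => tm N Ψ q β φ a (y - y0)) := by
      rw [← SS_sum]
      congr 1
      funext a z
      rw [Fa_expand]
    have e2 : MM N G (fun a (_ : Fin (N + 1) → E) => Fa N Ψ q β a (y - y0)) =
        ∑ φ : Fin N → Fin (N + 2),
          MM N G (fun a (_ : Fin (N + 1) → E) => tm N Ψ q β φ a (y - y0)) := by
      unfold MM
      rw [← Finset.sum_div]
      congr 1
      simp only [Fa_expand]
      rw [Finset.sum_comm (s := (Finset.univ : Finset (Fin N → Fin (N + 2))))]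
      refine (Finset.sum_congr rfl fun a _ => ?_)
      rw [Finset.sum_comm (s := (Finset.univ : Finset (Fin N → Fin (N + 2))))]
    rw [e1, e2, ← Finset.sum_sub_distrib]
    refine (Finset.abs_sum_le_sum_abs _ _).trans ?_
    calc _ ≤ ∑ _φ : Fin N → Fin (N + 2), M * ε0 := by
          refine Finset.sum_le_sum fun φ _ => ?_
          obtain ⟨j1, j2, hj, h1, h2⟩ := exists_missing N φ
          exact equid1 N θ hS η hη0 hη j1 (fun a => tm N Ψ q β φ a (y - y0))
            (fun a a' haa => by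
              rw [tm_congr N Ψ q β φ a a' fun i => haa _ (h1 i)])
            M hM (fun a => bd2 _ φ) gy hE
      _ = D ^ N * (M * ε0) := by rw [Finset.sum_const, Finset.card_univ, nsmul_eq_mul, hcardφ]
  -- T2
  have T2 : ∀ l : Fin (N + 1), |SS N θ gy (fun a z => Fa N Ψ q β a (q (z l) - y0)) -
      SS N θ gy0 (fun a z => Fa N Ψ q β a (q (z l) - y0))| ≤ D ^ N * (2 * (M * ε0)) := by
    intro l
    choose j1 j2 hj hj1 hj2 using exists_missing N
    let H : (Fin N → Fin (N + 2)) → (Fin (N + 2) → E) → E → ℝ := fun φ a c =>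
      if (∀ j, j ≠ j1 φ → j ≠ j2 φ → a j ≠ c) then tm N Ψ q β φ a (q c - y0) else 0
    have e1 : ∀ (g0 : G), (∀ (a : Fin (N + 2) → E) (z : Fin (N + 1) → E),
        ∑ j, θ (a j) = g0 + ∑ l, θ (z l) → ∀ j l, a j ≠ z l) →
        SS N θ g0 (fun a z => Fa N Ψ q β a (q (z l) - y0)) =
        ∑ φ : Fin N → Fin (N + 2), SS N θ g0 (fun a z => H φ a (z l)) := by
      intro g0 hdis
      rw [← SS_sum]
      refine SS_congr N θ g0 fun a z haz => ?_
      rw [Fa_expand]
      refine Finset.sum_congr rfl fun φ _ => ?_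
      simp only [H]
      rw [if_pos fun j _ _ => hdis a z haz j l]
    rw [e1 gy (fun a z haz => (rel1 a z haz).1), e1 gy0 (fun a z haz => (rel0 a z haz).1),
      ← Finset.sum_sub_distrib]
    refine (Finset.abs_sum_le_sum_abs _ _).trans ?_
    calc _ ≤ ∑ _φ : Fin N → Fin (N + 2), 2 * (M * ε0) := by
          refine Finset.sum_le_sum fun φ _ => ?_
          have key : ∀ g0, |SS N θ g0 (fun a z => H φ a (z l)) -
            MM N G (fun a z => H φ a (z l))| ≤ M * ε0 := by
            intro g0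
            refine equid2 N θ hS η hη0 hη (j1 φ) (j2 φ) (hj φ) l (H φ) ?_ ?_ M hM ?_ g0 hE
            · intro a a' c haa
              simp only [H]
              have h1 : (∀ j, j ≠ j1 φ → j ≠ j2 φ → a j ≠ c) ↔
                  (∀ j, j ≠ j1 φ → j ≠ j2 φ → a' j ≠ c) := by
                constructor
                · intro h j h1 h2; rw [← haa j h1 h2]; exact h j h1 h2
                · intro h j h1 h2; rw [haa j h1 h2]; exact h j h1 h2
              rw [tm_congr N Ψ q β φ a a' fun i => haa _ (hj1 φ i) (hj2 φ i)]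
              simp only [h1]
            · intro a c hne
              simp only [H] at hne
              by_contra hcon
              exact hne (if_neg hcon)
            · intro a c
              simp only [H]
              split_ifs with hcond
              · exact bd1 _ φ c (fun i => hcond _ (hj1 φ i) (hj2 φ i))
              · simpa using hM
          have k1 := key gy
          have k0 := key gy0
          have : SS N θ gy (fun a z => H φ a (z l)) - SS N θ gy0 (fun a z => H φ a (z l)) =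
            (SS N θ gy (fun a z => H φ a (z l)) - MM N G (fun a z => H φ a (z l))) -
            (SS N θ gy0 (fun a z => H φ a (z l)) - MM N G (fun a z => H φ a (z l))) := by ring
          rw [this]
          refine (abs_sub _ _).trans ?_
          linarith
      _ = D ^ N * (2 * (M * ε0)) := by
          rw [Finset.sum_const, Finset.card_univ, nsmul_eq_mul, hcardφ]
  -- T3
  have T3 : |SS N θ gy (fun a _ => κ a) - SS N θ gy0 (fun a _ => κ a)| ≤
      2 ^ (N + 2) * (2 * ε0) * L + 4 ^ (N + 2) * ((N + 1).factorial : ℝ) * L *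
        ((#{a : Fin (N + 2) → E | cnt (fun _ : Fin (N + 2) => θ) (∑ j, θ (a j)) ≤
          ((N + 2).factorial : ℝ)} : ℕ) : ℝ) := by
    have e1 : SS N θ gy (fun a _ => κ a) - SS N θ gy0 (fun a _ => κ a) =
        ∑ a, (Wt N θ gy a - Wt N θ gy0 a) * κ a := by
      rw [SS_a, SS_a, ← Finset.sum_sub_distrib]
      exact Finset.sum_congr rfl fun a _ => by ring
    rw [e1]
    have hc := cube (fun a => Wt N θ gy a - Wt N θ gy0 a) κ ((N + 1).factorial : ℝ) (2 * ε0) L
      hL0 (by positivity) (by positivity)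
      (by
        intro a
        have h1 := Wt_nonneg N θ gy a
        have h2 := Wt_nonneg N θ gy0 a
        have h3 := Wt_le N θ gy hS a
        have h4 := Wt_le N θ gy0 hS a
        rw [abs_le]
        constructor <;> linarith)
      (by
        intro j0 h hdep hbd
        have k1 := equid1 N θ hS η hη0 hη j0 h hdep L hL0 hbd gy hE
        have k0 := equid1 N θ hS η hη0 hη j0 h hdep L hL0 hbd gy0 hE
        have e2 : ∑ a, (Wt N θ gy a - Wt N θ gy0 a) * h a =
          (SS N θ gy (fun a _ => h a) - MM N G (fun a (_ : Fin (N + 1) → E) => h a)) -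
          (SS N θ gy0 (fun a _ => h a) - MM N G (fun a (_ : Fin (N + 1) → E) => h a)) := by
          rw [SS_a, SS_a]
          have : ∑ a, (Wt N θ gy a - Wt N θ gy0 a) * h a = ∑ a, Wt N θ gy a * h a -
            ∑ a, Wt N θ gy0 a * h a := by
            rw [← Finset.sum_sub_distrib]
            exact Finset.sum_congr rfl fun a _ => by ring
          rw [this]; ring
        rw [e2]
        refine (abs_sub _ _).trans ?_
        linarith)
      (by
        intro a' a
        have e3 : ∀ S : Finset (Fin (N + 2)), (-1 : ℝ) ^ #S * κ (hyb S a' a) =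
          ∑ φ : Fin N → Fin (N + 2), (-1 : ℝ) ^ #S *
            tm N Ψ q β φ (hyb S a' a) (∑ j, β j - (N + 2) • y0) := by
          intro S
          simp only [hκ]
          rw [Fa_expand, Finset.mul_sum]
        rw [Finset.sum_congr rfl fun S _ => e3 S, Finset.sum_comm]
        refine Finset.sum_eq_zero fun φ _ => ?_
        obtain ⟨j1, j2, hj, h1, h2⟩ := exists_missing N φ
        exact alt_sum_zero j1 (fun a => tm N Ψ q β φ a (∑ j, β j - (N + 2) • y0))
          (fun a a' haa => by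
              rw [tm_congr N Ψ q β φ a a' fun i => haa _ (h1 i)]) a' a)
      (by
        intro a hne
        by_cases h1 : Wt N θ gy a ≠ 0
        · exact K1 a h1
        · push Not at h1
          refine K0 a fun h0 => hne ?_
          rw [h1, h0]; ring)
      hE
    rw [Fintype.card_fin] at hc
    refine hc.trans ?_
    have h5 : ((#{a : Fin (N + 2) → E | L < |κ a|} : ℕ) : ℝ) ≤
      ((#{a : Fin (N + 2) → E | cnt (fun _ : Fin (N + 2) => θ) (∑ j, θ (a j)) ≤
          ((N + 2).factorial : ℝ)} : ℕ) : ℝ) := by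
      norm_cast
      refine Finset.card_le_card ?_
      intro a ha
      exact Finset.mem_filter.mpr ⟨Finset.mem_univ _, K2 a (Finset.mem_filter.mp ha).2⟩
    have h6 := mul_le_mul_of_nonneg_left h5
      (show 0 ≤ 4 ^ (N + 2) * ((N + 1).factorial : ℝ) * L by positivity)
    linarith
  -- assemble
  have Z1 : SS N θ gy (fun a _ => Fa N Ψ q β a (y - y0)) +
      ∑ l, SS N θ gy (fun a z => Fa N Ψ q β a (q (z l) - y0)) -
      SS N θ gy (fun a _ => κ a) = 0 := by
    rw [← SS_sum, ← SS_add, ← SS_sub, ← SS_zero N θ gy]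
    refine SS_congr N θ gy fun a z haz => ?_
    rw [R1 a z haz]; ring
  have Z0 : ∑ l, SS N θ gy0 (fun a z => Fa N Ψ q β a (q (z l) - y0)) -
      SS N θ gy0 (fun a _ => κ a) = 0 := by
    rw [← SS_sum, ← SS_sub, ← SS_zero N θ gy0]
    refine SS_congr N θ gy0 fun a z haz => ?_
    rw [R0 a z haz]; ring
  have Z2 : |∑ l, SS N θ gy (fun a z => Fa N Ψ q β a (q (z l) - y0)) -
      ∑ l, SS N θ gy0 (fun a z => Fa N Ψ q β a (q (z l) - y0))| ≤
      (N + 1 : ℝ) * (D ^ N * (2 * (M * ε0))) := by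
    rw [← Finset.sum_sub_distrib]
    refine (Finset.abs_sum_le_sum_abs _ _).trans ?_
    calc _ ≤ ∑ _l : Fin (N + 1), D ^ N * (2 * (M * ε0)) := Finset.sum_le_sum fun l _ => T2 l
      _ = (N + 1 : ℝ) * (D ^ N * (2 * (M * ε0))) := by
          rw [Finset.sum_const, Finset.card_univ, Fintype.card_fin, nsmul_eq_mul]; push_cast; rfl
  have Z3 : MM N G (fun a (_ : Fin (N + 1) → E) => Fa N Ψ q β a (y - y0)) =
      e ^ (N + 1) / (Fintype.card G : ℝ) * ∑ a, Fa N Ψ q β a (y - y0) := by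
    unfold MM
    simp only [Finset.sum_const, Finset.card_univ, Fintype.card_fun, Fintype.card_fin,
      nsmul_eq_mul]
    rw [← Finset.mul_sum]
    push_cast
    rw [← he]
    ring
  have hcG := cG_pos (G := G)
  have Z4 : e ^ (N + 1) / (Fintype.card G : ℝ) * |∑ a, Fa N Ψ q β a (y - y0)| =
      |MM N G (fun a (_ : Fin (N + 1) → E) => Fa N Ψ q β a (y - y0))| := by
    rw [Z3, abs_mul, abs_of_nonneg (show 0 ≤ e ^ (N + 1) / (Fintype.card G : ℝ) by positivity)]
  rw [Z4]
  set Bd := ((#{a : Fin (N + 2) → E | cnt (fun _ : Fin (N + 2) => θ) (∑ j, θ (a j)) ≤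
          ((N + 2).factorial : ℝ)} : ℕ) : ℝ)
  set m := MM N G (fun a (_ : Fin (N + 1) → E) => Fa N Ψ q β a (y - y0))
  set s1 := SS N θ gy (fun a _ => Fa N Ψ q β a (y - y0))
  set t1 := ∑ l, SS N θ gy (fun a z => Fa N Ψ q β a (q (z l) - y0))
  set t0 := ∑ l, SS N θ gy0 (fun a z => Fa N Ψ q β a (q (z l) - y0))
  set k1 := SS N θ gy (fun a _ => κ a)
  set k0 := SS N θ gy0 (fun a _ => κ a)
  have W : m = -(s1 - m) + (-(t1 - t0)) + (k1 - k0) := by linarith
  have W2 : |m| ≤ |s1 - m| + |t1 - t0| + |k1 - k0| := by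
    calc |m| = |-(s1 - m) + (-(t1 - t0)) + (k1 - k0)| := by rw [← W]
      _ ≤ |-(s1 - m) + (-(t1 - t0))| + |k1 - k0| := abs_add_le _ _
      _ ≤ |-(s1 - m)| + |-(t1 - t0)| + |k1 - k0| := by
          have := abs_add_le (-(s1 - m)) (-(t1 - t0)); linarith
      _ = _ := by rw [abs_neg, abs_neg]
  have final : D ^ N * (M * ε0) + (N + 1 : ℝ) * (D ^ N * (2 * (M * ε0))) +
      (2 ^ (N + 2) * (2 * ε0) * L + 4 ^ (N + 2) * ((N + 1).factorial : ℝ) * L * Bd) =
      M * ((D ^ N + 2 * (N + 1) * D ^ N + 2 ^ (N + 3) * D ^ (N + 1)) * ε0 +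
        4 ^ (N + 2) * ((N + 1).factorial : ℝ) * D ^ (N + 1) * Bd) := by
    rw [hL, show (2 : ℝ) ^ (N + 3) = 2 ^ (N + 2) * 2 by rw [← pow_succ]]
    ring
  linarith

end main

end H72Gon
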