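import Pool.Agent.Helper72.Gon.Sid

open Finset BigOperators

set_option linter.unusedSectionVars false

namespace H72Gon

variable {E : Type*} [Fintype E] [DecidableEq E]
variable {ι : Type*} [Fintype ι] [DecidableEq ι]

/-- hybrid point -/
def hyb (S : Finset ι) (a' a : ι → E) : ι → E := fun i => if i ∈ S then a' i else a i

lemma hyb_empty (a' a : ι → E) : hyb (∅ : Finset ι) a' a = a := by
  funext i; simp [hyb]

lemma hyb_eq_glue (S : Finset ι) (a' a : ι → E) : hyb S a' a = glue (fun i => i ∈ S) a' a := rfl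

/-- sign-alternating sum vanishes for functions missing a coordinate -/
lemma alt_sum_zero (j0 : ι) (g : (ι → E) → ℝ)
    (hg : ∀ a a' : ι → E, (∀ j, j ≠ j0 → a j = a' j) → g a = g a') (a' a : ι → E) :
    ∑ S : Finset ι, (-1 : ℝ) ^ #S * g (hyb S a' a) = 0 := by
  classical
  have key : ∀ S : Finset ι, j0 ∉ S → g (hyb (insert j0 S) a' a) = g (hyb S a' a) := by
    intro S _
    refine hg _ _ fun j hj => ?_
    simp [hyb, hj]
  rw [← Finset.sum_filter_add_sum_filter_not Finset.univ (fun S : Finset ι => j0 ∈ S)]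
  have h1 : ∑ S ∈ Finset.univ.filter (fun S : Finset ι => j0 ∈ S),
      (-1 : ℝ) ^ #S * g (hyb S a' a) =
      ∑ S ∈ Finset.univ.filter (fun S : Finset ι => ¬ j0 ∈ S), -((-1 : ℝ) ^ #S * g (hyb S a' a)) := by
    refine Finset.sum_bij' (fun S _ => S.erase j0) (fun S _ => insert j0 S) ?_ ?_ ?_ ?_ ?_
    · intro S hS; simp
    · intro S hS; simp
    · intro S hS
      exact Finset.insert_erase (Finset.mem_filter.mp hS).2
    · intro S hS
      exact Finset.erase_insert (Finset.mem_filter.mp hS).2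
    · intro S hS
      have hS' := (Finset.mem_filter.mp hS).2
      have e1 : hyb S a' a = hyb (insert j0 (S.erase j0)) a' a := by
        rw [Finset.insert_erase hS']
      rw [e1, key _ (Finset.notMem_erase _ _)]
      have e2 : #S = #(S.erase j0) + 1 := by
        rw [Finset.card_erase_of_mem hS']
        have : 0 < #S := Finset.card_pos.mpr ⟨j0, hS'⟩
        omega
      rw [e2, pow_succ]; ring
  rw [h1, Finset.sum_neg_distrib]; ring

/-- truncation -/
noncomputable def tr (L x : ℝ) : ℝ := if |x| ≤ L then x else 0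

lemma abs_tr_le (L x : ℝ) (hL : 0 ≤ L) : |tr L x| ≤ L := by
  unfold tr; split_ifs with h
  · exact h
  · simpa using hL

/-- The cube trick. -/
theorem cube (Y κ : (ι → E) → ℝ) (Y0 ε1 L : ℝ) (hL : 0 ≤ L) (hY0 : 0 ≤ Y0) (hε : 0 ≤ ε1)
    (hY : ∀ a, |Y a| ≤ Y0)
    (hEq : ∀ (j0 : ι) (h : (ι → E) → ℝ),
      (∀ a a' : ι → E, (∀ j, j ≠ j0 → a j = a' j) → h a = h a') → (∀ a, |h a| ≤ L) →
      |∑ a, Y a * h a| ≤ ε1 * L)
    (hκ : ∀ a' a : ι → E, ∑ S : Finset ι, (-1 : ℝ) ^ #S * κ (hyb S a' a) = 0)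
    (hsupp : ∀ a, Y a ≠ 0 → |κ a| ≤ L) (hE : 0 < Fintype.card E) :
    |∑ a, Y a * κ a| ≤ 2 ^ (Fintype.card ι) * ε1 * L +
      4 ^ (Fintype.card ι) * Y0 * L * (#{a : ι → E | L < |κ a|} : ℝ) := by
  classical
  set d := Fintype.card ι with hd
  set e := (Fintype.card E : ℝ) with he
  have he0 : 0 < e := by rw [he]; exact_mod_cast hE
  set Bd : ℝ := (#{a : ι → E | L < |κ a|} : ℝ) with hBd
  let ind : (ι → E) → ℝ := fun a => if L < |κ a| then 1 else 0
  have hind0 : ∀ a, 0 ≤ ind a := fun a => by simp only [ind]; split_ifs <;> norm_num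
  have hsumind : ∑ a, ind a = Bd := by
    simp only [ind]
    rw [← Finset.sum_filter, Finset.sum_const, nsmul_eq_mul, mul_one]
  -- the alternating sum of truncations
  let R : (ι → E) → (ι → E) → ℝ := fun a' a => ∑ S : Finset ι, (-1 : ℝ) ^ #S * tr L (κ (hyb S a' a))
  have hR : ∀ a' a, |R a' a| ≤ 2 ^ d * L * ∑ S : Finset ι, ind (hyb S a' a) := by
    intro a' a
    by_cases hall : ∀ S : Finset ι, |κ (hyb S a' a)| ≤ L
    · have : R a' a = 0 := by
        simp only [R]
        rw [← hκ a' a]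
        refine Finset.sum_congr rfl fun S _ => ?_
        rw [tr, if_pos (hall S)]
      rw [this, abs_zero]
      exact mul_nonneg (by positivity) (Finset.sum_nonneg fun S _ => hind0 _)
    · push Not at hall
      obtain ⟨S0, hS0⟩ := hall
      have h1 : (1 : ℝ) ≤ ∑ S : Finset ι, ind (hyb S a' a) := by
        calc (1 : ℝ) = ind (hyb S0 a' a) := by simp [ind, hS0]
          _ ≤ _ := Finset.single_le_sum (fun S _ => hind0 (hyb S a' a)) (Finset.mem_univ S0)
      have h2 : |R a' a| ≤ 2 ^ d * L := by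
        simp only [R]
        refine (Finset.abs_sum_le_sum_abs _ _).trans ?_
        calc ∑ S : Finset ι, |(-1 : ℝ) ^ #S * tr L (κ (hyb S a' a))| ≤ ∑ _S : Finset ι, L := by
              refine Finset.sum_le_sum fun S _ => ?_
              rw [abs_mul, abs_pow, abs_neg, abs_one, one_pow, one_mul]
              exact abs_tr_le _ _ hL
          _ = 2 ^ d * L := by
              rw [Finset.sum_const, Finset.card_univ, Fintype.card_finset, nsmul_eq_mul]
              push_cast; rfl
      calc |R a' a| ≤ 2 ^ d * L * 1 := by rw [mul_one]; exact h2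
        _ ≤ _ := mul_le_mul_of_nonneg_left h1 (by positivity)
  have hYκ : ∑ a, Y a * κ a = ∑ a, Y a * tr L (κ a) := by
    refine Finset.sum_congr rfl fun a _ => ?_
    by_cases hYa : Y a = 0
    · simp [hYa]
    · rw [tr, if_pos (hsupp a hYa)]
  -- for each a'
  have h3 : ∀ a' : ι → E, |∑ a, Y a * κ a| ≤ 2 ^ d * ε1 * L +
      Y0 * (2 ^ d * L) * ∑ a, ∑ S : Finset ι, ind (hyb S a' a) := by
    intro a'
    have e1 : ∑ a, Y a * R a' a = ∑ S : Finset ι, (-1 : ℝ) ^ #S * ∑ a, Y a * tr L (κ (hyb S a' a)) := by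
      simp only [R]
      simp only [Finset.mul_sum]
      rw [Finset.sum_comm]
      exact Finset.sum_congr rfl fun S _ => Finset.sum_congr rfl fun a _ => by ring
    have e2 : ∑ a, Y a * tr L (κ a) = ∑ a, Y a * R a' a -
        ∑ S ∈ (Finset.univ : Finset (Finset ι)).erase ∅,
          (-1 : ℝ) ^ #S * ∑ a, Y a * tr L (κ (hyb S a' a)) := by
      rw [e1, ← Finset.add_sum_erase _ _ (Finset.mem_univ (∅ : Finset ι))]
      simp [hyb_empty]
    have e3 : |∑ a, Y a * R a' a| ≤ Y0 * (2 ^ d * L) * ∑ a, ∑ S : Finset ι, ind (hyb S a' a) := by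
      refine (Finset.abs_sum_le_sum_abs _ _).trans ?_
      rw [Finset.mul_sum]
      refine Finset.sum_le_sum fun a _ => ?_
      rw [abs_mul, mul_assoc]
      exact mul_le_mul (hY a) (hR a' a) (abs_nonneg _) hY0
    have e4 : |∑ S ∈ (Finset.univ : Finset (Finset ι)).erase ∅,
          (-1 : ℝ) ^ #S * ∑ a, Y a * tr L (κ (hyb S a' a))| ≤ 2 ^ d * ε1 * L := by
      refine (Finset.abs_sum_le_sum_abs _ _).trans ?_
      calc _ ≤ ∑ S ∈ (Finset.univ : Finset (Finset ι)).erase ∅, ε1 * L := by
            refine Finset.sum_le_sum fun S hS => ?_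
            rw [abs_mul, abs_pow, abs_neg, abs_one, one_pow, one_mul]
            obtain ⟨j0, hj0⟩ := Finset.nonempty_iff_ne_empty.mpr (Finset.ne_of_mem_erase hS)
            refine hEq j0 _ ?_ (fun a => abs_tr_le _ _ hL)
            intro a a1 haa
            have : hyb S a' a = hyb S a' a1 := by
              funext i
              unfold hyb
              by_cases hi : i ∈ S
              · simp [hi]
              · simp only [hi, if_false]
                exact haa i (fun h => hi (h ▸ hj0))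
            rw [this]
        _ ≤ ∑ _S : Finset ι, ε1 * L :=
            Finset.sum_le_sum_of_subset_of_nonneg (Finset.erase_subset _ _)
              (fun _ _ _ => mul_nonneg hε hL)
        _ = 2 ^ d * ε1 * L := by
            rw [Finset.sum_const, Finset.card_univ, Fintype.card_finset, nsmul_eq_mul]
            push_cast; rw [← hd]; ring
    rw [hYκ, e2]
    calc _ ≤ |∑ a, Y a * R a' a| + |∑ S ∈ (Finset.univ : Finset (Finset ι)).erase ∅,
          (-1 : ℝ) ^ #S * ∑ a, Y a * tr L (κ (hyb S a' a))| := abs_sub _ _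
      _ ≤ _ := by linarith
  -- sum over a'
  have h4 : ∑ a' : ι → E, ∑ a, ∑ S : Finset ι, ind (hyb S a' a) = 2 ^ d * (e ^ d * Bd) := by
    have : ∀ S : Finset ι, ∑ a' : ι → E, ∑ a, ind (hyb S a' a) = e ^ d * Bd := by
      intro S
      rw [← hsumind]
      exact sum_glue (fun i => i ∈ S) ind
    calc ∑ a' : ι → E, ∑ a, ∑ S : Finset ι, ind (hyb S a' a)
        = ∑ a' : ι → E, ∑ S : Finset ι, ∑ a, ind (hyb S a' a) :=
          Finset.sum_congr rfl fun a' _ => Finset.sum_comm
      _ = ∑ S : Finset ι, ∑ a' : ι → E, ∑ a, ind (hyb S a' a) := Finset.sum_comm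
      _ = _ := by
          rw [Finset.sum_congr rfl fun S _ => this S, Finset.sum_const, Finset.card_univ,
            Fintype.card_finset, nsmul_eq_mul]
          push_cast; rfl
  have h5 : e ^ d * |∑ a, Y a * κ a| ≤ e ^ d * (2 ^ d * ε1 * L + 4 ^ d * Y0 * L * Bd) := by
    calc e ^ d * |∑ a, Y a * κ a| = ∑ _a' : ι → E, |∑ a, Y a * κ a| := by
          rw [Finset.sum_const, Finset.card_univ, Fintype.card_fun, nsmul_eq_mul]
          push_cast; rfl
      _ ≤ ∑ a' : ι → E, (2 ^ d * ε1 * L +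
            Y0 * (2 ^ d * L) * ∑ a, ∑ S : Finset ι, ind (hyb S a' a)) :=
          Finset.sum_le_sum fun a' _ => h3 a'
      _ = e ^ d * (2 ^ d * ε1 * L) + Y0 * (2 ^ d * L) * (2 ^ d * (e ^ d * Bd)) := by
          rw [Finset.sum_add_distrib, Finset.sum_const, Finset.card_univ,
            Fintype.card_fun, nsmul_eq_mul, ← h4, ← Finset.mul_sum (a := Y0 * (2 ^ d * L))]
          push_cast; rfl
      _ = e ^ d * (2 ^ d * ε1 * L + 4 ^ d * Y0 * L * Bd) := by
          have : (4 : ℝ) ^ d = 2 ^ d * 2 ^ d := by rw [← mul_pow]; norm_num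
          rw [this]; ring
  exact le_of_mul_le_mul_left h5 (by positivity)

end H72Gon
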