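import Pool.Agent.Helper72.Gon.Descent

open Finset BigOperators Polynomial

set_option linter.unusedSectionVars false

namespace H72Gon

universe u v

section ml

variable {V : Type v} [AddCommGroup V] [Module ℚ V]

/-- a multilinear map vanishing on a set vanishes on its span -/
lemma ml_span {N : ℕ} (Ψ : MultilinearMap ℚ (fun _ : Fin N => V) (V →ₗ[ℚ] ℝ)) (S : Set V) (w : V)
    (h : ∀ v : Fin N → V, (∀ i, v i ∈ S) → Ψ v w = 0) (v : Fin N → V)
    (hv : ∀ i, v i ∈ Submodule.span ℚ S) : Ψ v w = 0 := by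
  classical
  suffices H : ∀ (t : Finset (Fin N)) (v : Fin N → V), (∀ i ∈ t, v i ∈ Submodule.span ℚ S) →
      (∀ i ∉ t, v i ∈ S) → Ψ v w = 0 from
    H Finset.univ v (fun i _ => hv i) (fun i hi => absurd (Finset.mem_univ i) hi)
  intro t
  induction t using Finset.induction_on with
  | empty => intro v _ h2; exact h v fun i => h2 i (Finset.notMem_empty _)
  | insert i t hi ih =>
    intro v h1 h2
    have key : ∀ u ∈ Submodule.span ℚ S, Ψ (Function.update v i u) w = 0 := by
      intro u hu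
      induction hu using Submodule.span_induction with
      | mem u hu =>
        refine ih _ (fun j hj => ?_) (fun j hj => ?_)
        · have : j ≠ i := fun h => hi (h ▸ hj)
          rw [Function.update_of_ne this]
          exact h1 j (Finset.mem_insert_of_mem hj)
        · by_cases hji : j = i
          · subst hji; rw [Function.update_self]; exact hu
          · rw [Function.update_of_ne hji]
            exact h2 j (fun h => (Finset.mem_insert.mp h).elim hji hj)
      | zero => rw [MultilinearMap.map_update_zero, LinearMap.zero_apply]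
      | add x y _ _ hx hy => rw [MultilinearMap.map_update_add, LinearMap.add_apply, hx, hy, add_zero]
      | smul a x _ hx => rw [MultilinearMap.map_update_smul, LinearMap.smul_apply, hx, smul_zero]
    have := key (v i) (h1 i (Finset.mem_insert_self _ _))
    rwa [Function.update_eq_self] at this

end ml

section degen

variable {k : Type u} [Field k] [Infinite k] {V : Type v} [AddCommGroup V] [Module ℚ V]

lemma exists_Bp [IsAlgClosed k] {n : ℕ} (P : k[X]) (hP : P.Monic) (hn : P.natDegree = n) :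
    ∃ z : Fin n → k, P = Bp z := by
  have hs := IsAlgClosed.splits P
  have h1 : P = (P.roots.map fun a => X - C a).prod := by
    conv_lhs => rw [hs.eq_prod_roots, hP.leadingCoeff, C_1, one_mul]
  have hcard : P.roots.card = n := by
    rw [← hn]; exact hs.natDegree_eq_card_roots.symm
  obtain ⟨l, hl⟩ : ∃ l : List k, P.roots = (l : Multiset k) := ⟨P.roots.toList, by simp⟩
  have hlen : l.length = n := by rw [← hcard, hl, Multiset.coe_card]
  subst hlen
  refine ⟨l.get, ?_⟩
  rw [h1, hl, Bp]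
  rw [Multiset.map_coe, Multiset.prod_coe]
  rw [← List.prod_ofFn]
  congr 1
  conv_lhs => rw [← List.ofFn_get l]
  rw [List.map_ofFn]
  rfl

lemma Bp_monic' {n : ℕ} (b : Fin n → k) : (Bp b).Monic :=
  monic_prod_of_monic _ _ fun _ _ => monic_X_sub_C _

lemma Bp_natDegree' {n : ℕ} (b : Fin n → k) : (Bp b).natDegree = n := by
  unfold Bp
  rw [natDegree_prod_of_monic _ _ fun _ _ => monic_X_sub_C _]
  simp

lemma Bp_eval {n : ℕ} (z : Fin n → k) (x : k) : (Bp z).eval x = ∏ j, (x - z j) := by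
  unfold Bp
  rw [eval_prod]
  refine Finset.prod_congr rfl fun j _ => ?_
  rw [eval_sub, eval_X, eval_C]

/-- nondegenerate vanishing -/
def NDZ (N : ℕ) (Ψ : MultilinearMap ℚ (fun _ : Fin N => V) (V →ₗ[ℚ] ℝ)) (pt : k → V) : Prop :=
  ∀ (x x' : Fin N → k) (y y' : k), (∀ i, x i ≠ y) → (∀ i, x i ≠ y') → (∀ i, x' i ≠ y) →
    (∀ i, x' i ≠ y') → Ψ (fun i => pt (x i) - pt (x' i)) (pt y - pt y') = 0

lemma NDZ.sum {N : ℕ} {Ψ : MultilinearMap ℚ (fun _ : Fin N => V) (V →ₗ[ℚ] ℝ)} {pt : k → V}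
    (h : NDZ N Ψ pt) (c : Fin N → k) (b y y' : k) (h1 : ∀ i, c i ≠ y) (h2 : ∀ i, c i ≠ y')
    (h3 : b ≠ y) (h4 : b ≠ y') : Ψ (fun _ => ∑ i, (pt (c i) - pt b)) (pt y - pt y') = 0 := by
  classical
  rw [MultilinearMap.map_sum, LinearMap.sum_apply]
  exact Finset.sum_eq_zero fun r _ =>
    h (fun i => c (r i)) (fun _ => b) y y' (fun i => h1 _) (fun i => h2 _) (fun _ => h3) (fun _ => h4)

lemma deg1 [IsAlgClosed k] {N : ℕ} {Ψ : MultilinearMap ℚ (fun _ : Fin N => V) (V →ₗ[ℚ] ℝ)}
    {pt : k → V} (hrel : RelHyp N Ψ pt) (hnd : NDZ N Ψ pt) (c : Fin N → k) (b y : k)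
    (hyb : y ≠ b) (hcy : ∀ i, c i ≠ y) (hf : ∏ i, (y - c i) ≠ (y - b) ^ N) :
    Ψ (fun _ => ∑ i, (pt (c i) - pt b)) (pt y - pt b) = 0 := by
  classical
  have hyb' : y - b ≠ 0 := sub_ne_zero.mpr hyb
  have hprod : ∏ i, (y - c i) ≠ 0 :=
    Finset.prod_ne_zero_iff.mpr fun i _ => sub_ne_zero.mpr (hcy i).symm
  -- s = f(y) = 1 - c
  set s : k := (∏ i, (y - c i)) / (y - b) ^ N with hs
  have hs0 : s ≠ 0 := div_ne_zero hprod (pow_ne_zero _ hyb')
  have hs1 : s ≠ 1 := fun h => hf ((div_eq_one_iff_eq (pow_ne_zero _ hyb')).mp h)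
  have h1s : (1 : k) - s ≠ 0 := sub_ne_zero.mpr hs1.symm
  let a : Fin (N + 2) → k := Fin.snoc (Fin.snoc c b : Fin (N + 1) → k) b
  let b' : Fin (N + 2) → k := fun _ => b
  have hBa : ∀ x : k, (Bp a).eval x = (∏ i, (x - c i)) * (x - b) ^ 2 := by
    intro x
    rw [Bp_eval, Fin.prod_univ_castSucc, Fin.prod_univ_castSucc]
    simp only [a, Fin.snoc_castSucc, Fin.snoc_last]
    ring
  have hBb : ∀ x : k, (Bp b').eval x = (x - b) ^ (N + 2) := by
    intro x
    rw [Bp_eval]; simp [b']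
  set P : k[X] := C (1 - s)⁻¹ * (Bp a - C s * Bp b') with hP
  have hma := Bp_monic' a
  have hmb := Bp_monic' b'
  have hda : (Bp a).natDegree = N + 2 := Bp_natDegree' a
  have hdb : (Bp b').natDegree = N + 2 := Bp_natDegree' b'
  have hdeg : (Bp a - C s * Bp b').natDegree ≤ N + 2 := by
    refine (natDegree_sub_le _ _).trans (max_le hda.le ?_)
    exact (natDegree_C_mul_le _ _).trans hdb.le
  have hcoef : (Bp a - C s * Bp b').coeff (N + 2) = 1 - s := by
    have e1 : (Bp a).coeff (N + 2) = 1 := by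
      have := hma.coeff_natDegree
      rwa [hda] at this
    have e2 : (Bp b').coeff (N + 2) = 1 := by
      have := hmb.coeff_natDegree
      rwa [hdb] at this
    rw [coeff_sub, coeff_C_mul, e1, e2, mul_one]
  have hPdeg : P.natDegree ≤ N + 2 := (natDegree_C_mul_le _ _).trans hdeg
  have hPcoef : P.coeff (N + 2) = 1 := by
    rw [hP, coeff_C_mul, hcoef, inv_mul_cancel₀ h1s]
  have hPdeg' : P.natDegree = N + 2 :=
    le_antisymm hPdeg (le_natDegree_of_ne_zero (by rw [hPcoef]; exact one_ne_zero))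
  have hPm : P.Monic := by rw [Monic, leadingCoeff, hPdeg', hPcoef]
  obtain ⟨z, hz⟩ := exists_Bp P hPm hPdeg'
  have hrel1 : Bp a - C (1 - s) * Bp z = C (1 - (1 - s)) * Bp b' := by
    rw [← hz, hP, ← mul_assoc, ← C_mul, mul_inv_cancel₀ h1s, C_1, one_mul, sub_sub_cancel,
      sub_sub_cancel]
  have key := hrel a b' z (1 - s) h1s (fun h => hs0 (by linear_combination -h)) hrel1
  -- simplify v
  have hv : ∑ j, (pt (a j) - pt (b' j)) = ∑ i, (pt (c i) - pt b) := by
    rw [Fin.sum_univ_castSucc, Fin.sum_univ_castSucc]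
    simp only [a, b', Fin.snoc_castSucc, Fin.snoc_last, sub_self, add_zero]
  rw [hv] at key
  -- roots
  have hroot : ∀ x : k, (Bp z).eval x = (1 - s)⁻¹ * (x - b) ^ 2 * ((∏ i, (x - c i)) - s * (x - b) ^ N) := by
    intro x
    rw [← hz, hP, eval_mul, eval_C, eval_sub, eval_mul, eval_C, hBa, hBb]
    ring
  have hyroot : ∃ j, z j = y := by
    have h0 : (Bp z).eval y = 0 := by
      rw [hroot, hs, div_mul_cancel₀ _ (pow_ne_zero _ hyb'), sub_self, mul_zero]
    rw [Bp_eval, Finset.prod_eq_zero_iff] at h0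
    obtain ⟨j, -, hj⟩ := h0
    exact ⟨j, (sub_eq_zero.mp hj).symm⟩
  have hzc : ∀ j, z j ≠ b → ∀ i, c i ≠ z j := by
    intro j hjb i hij
    have h0 : (Bp z).eval (z j) = 0 := by
      rw [Bp_eval]; exact Finset.prod_eq_zero (Finset.mem_univ j) (sub_self _)
    rw [hroot] at h0
    have h2 : ∏ i, (z j - c i) = 0 :=
      Finset.prod_eq_zero (Finset.mem_univ i) (by rw [hij, sub_self])
    rw [h2, zero_sub] at h0
    have h3 : z j - b ≠ 0 := sub_ne_zero.mpr hjb
    refine absurd h0 (mul_ne_zero (mul_ne_zero (inv_ne_zero h1s) (pow_ne_zero _ h3))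
      (neg_ne_zero.mpr (mul_ne_zero hs0 (pow_ne_zero _ h3))))
  set Y := Ψ (fun _ => ∑ i, (pt (c i) - pt b)) (pt y - pt b) with hY
  have hterm : ∀ j, Ψ (fun _ => ∑ i, (pt (c i) - pt b)) (pt (z j) - pt b) =
      if z j = b then 0 else Y := by
    intro j
    split_ifs with hj
    · rw [hj, sub_self, map_zero]
    · have h1 : pt (z j) - pt b = (pt (z j) - pt y) + (pt y - pt b) := by abel
      rw [h1, map_add, hnd.sum c b (z j) y (hzc j hj) hcy (fun h => hj h.symm) hyb.symm, zero_add]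
  have hw : ∑ j, pt (z j) - ∑ j, pt (b' j) = ∑ j, (pt (z j) - pt b) := by
    rw [← Finset.sum_sub_distrib]
  rw [hw, map_sum, Finset.sum_congr rfl fun j _ => hterm j] at key
  rw [Finset.sum_ite, Finset.sum_const_zero, zero_add, Finset.sum_const, nsmul_eq_mul,
    mul_eq_zero] at key
  rcases key with h | h
  · exfalso
    obtain ⟨j, hj⟩ := hyroot
    have : j ∈ Finset.univ.filter (fun j => ¬ z j = b) := by
      simp only [Finset.mem_filter, Finset.mem_univ, true_and]
      rw [hj]; exact hyb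
    have h2 : 0 < #(Finset.univ.filter (fun j => ¬ z j = b)) := Finset.card_pos.mpr ⟨j, this⟩
    rw [Nat.cast_eq_zero] at h
    omega
  · exact h

lemma deg2 [IsAlgClosed k] {N : ℕ} (hN : 0 < N)
    {Ψ : MultilinearMap ℚ (fun _ : Fin N => V) (V →ₗ[ℚ] ℝ)}
    {pt : k → V} (hrel : RelHyp N Ψ pt) (hnd : NDZ N Ψ pt) (c : Fin N → k) (b y : k)
    (hcy : ∀ i, c i ≠ y) :
    Ψ (fun _ => ∑ i, (pt (c i) - pt b)) (pt y - pt b) = 0 := by
  classical
  by_cases hyb : y = b
  · rw [hyb, sub_self, map_zero]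
  by_cases hall : ∀ i, c i = b
  · have : ∑ i, (pt (c i) - pt b) = 0 := Finset.sum_eq_zero fun i _ => by rw [hall i, sub_self]
    rw [this]
    have h0 : Ψ (fun _ => (0 : V)) = 0 := Ψ.map_coord_zero (⟨0, hN⟩ : Fin N) rfl
    rw [h0, LinearMap.zero_apply]
  push Not at hall
  obtain ⟨i0, hi0⟩ := hall
  let P : k[X] := (Bp c - (X - C b) ^ N) * (X - C b) * Bp c
  have hP : P ≠ 0 := by
    refine mul_ne_zero (mul_ne_zero ?_ (X_sub_C_ne_zero b)) (Bp_monic' c).ne_zero
    intro h
    have := congrArg (Polynomial.eval (c i0)) h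
    rw [eval_sub, eval_pow, eval_sub, eval_X, eval_C, eval_zero, Bp_eval,
      Finset.prod_eq_zero (Finset.mem_univ i0) (sub_self _), zero_sub, neg_eq_zero] at this
    exact pow_ne_zero _ (sub_ne_zero.mpr hi0) this
  obtain ⟨y', hy'⟩ : ∃ y', P.eval y' ≠ 0 := by
    by_contra hcon
    push Not at hcon
    exact hP (Polynomial.funext fun r => by rw [hcon r, eval_zero])
  have h1 : (Bp c - (X - C b) ^ N).eval y' ≠ 0 := fun h => hy' (by
    simp only [P, eval_mul, h, zero_mul])
  have h2 : y' ≠ b := fun h => hy' (by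
    simp only [P, eval_mul, eval_sub, eval_X, eval_C, h, sub_self, mul_zero, zero_mul])
  have h3 : (Bp c).eval y' ≠ 0 := fun h => hy' (by
    simp only [P, eval_mul, h, mul_zero])
  rw [Bp_eval, Finset.prod_ne_zero_iff] at h3
  have h4 : ∀ i, c i ≠ y' := fun i h => h3 i (Finset.mem_univ _) (by rw [h, sub_self])
  rw [eval_sub, eval_pow, eval_sub, eval_X, eval_C, Bp_eval] at h1
  have h5 : pt y - pt b = (pt y - pt y') + (pt y' - pt b) := by abel
  rw [h5, map_add, hnd.sum c b y y' hcy h4 (fun h => hyb h.symm) h2.symm, zero_add]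
  exact deg1 hrel hnd c b y' h2 h4 (sub_ne_zero.mp h1)

lemma deg3 [IsAlgClosed k] {N : ℕ} (hN : 0 < N)
    {Ψ : MultilinearMap ℚ (fun _ : Fin N => V) (V →ₗ[ℚ] ℝ)}
    (hsym : ∀ (σ : Equiv.Perm (Fin N)) (v : Fin N → V), Ψ (fun i => v (σ i)) = Ψ v)
    {pt : k → V} (hrel : RelHyp N Ψ pt) (hnd : NDZ N Ψ pt) (c : Fin N → k) (b y : k)
    (hcy : ∀ i, c i ≠ y) :
    Ψ (fun i => pt (c i) - pt b) (pt y - pt b) = 0 := by
  classical
  by_cases hyb : y = b
  · rw [hyb, sub_self, map_zero]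
  have h := polar Ψ hsym 0 (fun i => pt (c i) - pt b) (pt y - pt b)
  have h0 : ∀ I : Finset (Fin N),
      Ψ (fun _ => 0 + ∑ j ∈ I, (pt (c j) - pt b)) (pt y - pt b) = 0 := by
    intro I
    have e : (0 : V) + ∑ j ∈ I, (pt (c j) - pt b) =
        ∑ i, (pt ((fun i => if i ∈ I then c i else b) i) - pt b) := by
      rw [zero_add]
      have : ∀ i, pt ((fun i => if i ∈ I then c i else b) i) - pt b =
          if i ∈ I then pt (c i) - pt b else 0 := by
        intro i
        by_cases hi : i ∈ I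
        · simp [hi]
        · simp [hi]
      simp only [this]
      rw [Finset.sum_ite_mem, Finset.univ_inter]
    rw [e]
    refine deg2 hN hrel hnd _ b y fun i => ?_
    split_ifs
    · exact hcy i
    · exact fun h => hyb h.symm
  rw [Finset.sum_eq_zero fun I _ => by rw [h0 I, mul_zero]] at h
  have h2 : (-1 : ℝ) ^ N * (N.factorial : ℝ) ≠ 0 :=
    mul_ne_zero (pow_ne_zero _ (by norm_num)) (by exact_mod_cast Nat.factorial_ne_zero N)
  exact (mul_eq_zero.mp h.symm).resolve_left h2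

/-- vanishing on all degree zero divisors of the affine line -/
theorem affine_zero [IsAlgClosed k] {N : ℕ} (hN : 0 < N)
    {Ψ : MultilinearMap ℚ (fun _ : Fin N => V) (V →ₗ[ℚ] ℝ)}
    (hsym : ∀ (σ : Equiv.Perm (Fin N)) (v : Fin N → V), Ψ (fun i => v (σ i)) = Ψ v)
    {pt : k → V} (hrel : RelHyp N Ψ pt) (hnd : NDZ N Ψ pt) (x x' : Fin N → k) (y y' : k) :
    Ψ (fun i => pt (x i) - pt (x' i)) (pt y - pt y') = 0 := by
  classical
  obtain ⟨y0, hy0⟩ := Infinite.exists_notMem_finset (Finset.univ.image x ∪ Finset.univ.image x')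
  simp only [Finset.mem_union, Finset.mem_image, Finset.mem_univ, true_and, not_or, not_exists] at hy0
  have key : ∀ b, Ψ (fun i => pt (x i) - pt (x' i)) (pt y0 - pt b) = 0 := by
    intro b
    refine ml_span Ψ {u | ∃ c, c ≠ y0 ∧ u = pt c - pt b} (pt y0 - pt b) ?_ _ ?_
    · intro v hv
      choose c hc using hv
      have : v = fun i => pt (c i) - pt b := funext fun i => (hc i).2
      rw [this]
      exact deg3 hN hsym hrel hnd c b y0 fun i => (hc i).1
    · intro i
      have h1 : pt (x i) - pt (x' i) = (pt (x i) - pt b) - (pt (x' i) - pt b) := by abel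
      rw [h1]
      exact Submodule.sub_mem _ (Submodule.subset_span ⟨x i, hy0.1 i, rfl⟩)
        (Submodule.subset_span ⟨x' i, hy0.2 i, rfl⟩)
  have h1 : pt y - pt y' = (pt y0 - pt y') - (pt y0 - pt y) := by abel
  rw [h1, map_sub, key, key, sub_zero]

end degen

end H72Gon
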