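import Pool.Agent.Helper72.Gon.Level

open Finset BigOperators Polynomial

set_option linter.unusedSectionVars false

namespace H72Gon

universe u v

section descent

variable {k : Type u} [Field k] {V : Type v} [AddCommGroup V] [Module ℚ V]

lemma Bp_map {K L ι : Type*} [Field K] [Field L] [Fintype ι] (φ : K →+* L) (b : ι → K) :
    (Bp b).map φ = Bp (fun i => φ (b i)) := by
  unfold Bp
  rw [Polynomial.map_prod]
  refine Finset.prod_congr rfl fun i _ => ?_
  rw [Polynomial.map_sub, map_X, map_C]

lemma RelHyp.comp {K : Type*} [Field K] {N : ℕ}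
    {Ψ : MultilinearMap ℚ (fun _ : Fin N => V) (V →ₗ[ℚ] ℝ)} {pt : k → V}
    (h : RelHyp N Ψ pt) (φ : K →+* k) : RelHyp N Ψ (fun x => pt (φ x)) := by
  intro a b z c hc0 hc1 hrel
  refine h (fun i => φ (a i)) (fun i => φ (b i)) (fun i => φ (z i)) (φ c)
    ((map_ne_zero φ).mpr hc0) (fun h1 => hc1 (φ.injective (by rw [h1, map_one]))) ?_
  have := congrArg (Polynomial.map φ) hrel
  rw [Polynomial.map_sub, Polynomial.map_mul, Polynomial.map_mul, Bp_map, Bp_map, Bp_map,
    map_C, map_C, map_sub, map_one] at this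
  exact this

/-- nondegenerate vanishing over an infinite algebraic extension of `ZMod p` -/
theorem nd_zero (p : ℕ) [Fact p.Prime] [Algebra (ZMod p) k] [Algebra.IsAlgebraic (ZMod p) k]
    [Infinite k] (N : ℕ) (hN : 0 < N)
    (Ψ : MultilinearMap ℚ (fun _ : Fin N => V) (V →ₗ[ℚ] ℝ))
    (hsym : ∀ (σ : Equiv.Perm (Fin N)) (v : Fin N → V), Ψ (fun i => v (σ i)) = Ψ v)
    (pt : k → V) (hrel : RelHyp N Ψ pt)
    (x x' : Fin N → k) (y y' : k) (h1 : ∀ i, x i ≠ y) (h2 : ∀ i, x i ≠ y') (h3 : ∀ i, x' i ≠ y)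
    (h4 : ∀ i, x' i ≠ y') : Ψ (fun i => pt (x i) - pt (x' i)) (pt y - pt y') = 0 := by
  classical
  obtain ⟨T, hT⟩ := Infinite.exists_subset_card_eq k (Q0 N)
  set S : Finset k := T ∪ ((Finset.univ.image x ∪ Finset.univ.image x') ∪ {y, y'}) with hS
  let L := IntermediateField.adjoin (ZMod p) (S : Set k)
  haveI : FiniteDimensional (ZMod p) L :=
    IntermediateField.finiteDimensional_adjoin fun x _ => Algebra.IsIntegral.isIntegral x
  haveI : Finite L := Module.finite_of_finite (ZMod p)
  haveI : Fintype L := Fintype.ofFinite L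
  have hmem : ∀ s ∈ S, s ∈ L := fun s hs => IntermediateField.subset_adjoin _ _ hs
  have hcard : Q0 N ≤ Fintype.card L := by
    rw [← hT]
    have : Function.Injective (fun t : T => (⟨t.1, hmem t.1 (Finset.mem_union_left _ t.2)⟩ : L)) := by
      intro t t' h
      exact Subtype.ext (congrArg (fun z : L => (z : k)) h)
    simpa using Fintype.card_le_of_injective _ this
  have hx : ∀ i, x i ∈ L := fun i => hmem _ (Finset.mem_union_right _
    (Finset.mem_union_left _ (Finset.mem_union_left _ (Finset.mem_image_of_mem _ (Finset.mem_univ _)))))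
  have hx' : ∀ i, x' i ∈ L := fun i => hmem _ (Finset.mem_union_right _
    (Finset.mem_union_left _ (Finset.mem_union_right _ (Finset.mem_image_of_mem _ (Finset.mem_univ _)))))
  have hy : y ∈ L := hmem _ (Finset.mem_union_right _ (Finset.mem_union_right _ (by simp)))
  have hy' : y' ∈ L := hmem _ (Finset.mem_union_right _ (Finset.mem_union_right _ (by simp)))
  have key := finite_level N hN L hcard V Ψ hsym (fun x => pt (algebraMap L k x))
    (hrel.comp (algebraMap L k)) (fun i => ⟨x i, hx i⟩) (fun i => ⟨x' i, hx' i⟩) ⟨y, hy⟩ ⟨y', hy'⟩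
    (fun i h => h1 i (congrArg (fun z : L => (z : k)) h))
    (fun i h => h2 i (congrArg (fun z : L => (z : k)) h))
    (fun i h => h3 i (congrArg (fun z : L => (z : k)) h))
    (fun i h => h4 i (congrArg (fun z : L => (z : k)) h))
  exact abs_nonpos_iff.mp key

end descent

end H72Gon
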