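import Mathlib

open Finset BigOperators

set_option linter.unusedSectionVars false

namespace H72Gon

section Fourier

variable {G : Type*} [AddCommGroup G] [Fintype G] [DecidableEq G]
variable {E : Type*} [Fintype E] [DecidableEq E]

/-- Character sum. -/
noncomputable def chs (θ : E → G) (ψ : AddChar G ℂ) : ℂ := ∑ x, ψ (θ x)

lemma chs_zero (θ : E → G) : chs θ 0 = (Fintype.card E : ℂ) := by
  simp [chs]

lemma chs_neg (θ : E → G) (ψ : AddChar G ℂ) : chs (fun x => -θ x) ψ = (starRingEnd ℂ) (chs θ ψ) := by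
  simp [chs, map_sum, AddChar.map_neg_eq_conj]

lemma norm_chs_neg (θ : E → G) (ψ : AddChar G ℂ) : ‖chs (fun x => -θ x) ψ‖ = ‖chs θ ψ‖ := by
  rw [chs_neg]; simp

lemma char_sum {ι : Type*} (s : Finset ι) (ψ : AddChar G ℂ) (f : ι → G) :
    ψ (∑ i ∈ s, f i) = ∏ i ∈ s, ψ (f i) := by
  classical
  induction s using Finset.induction_on with
  | empty => simp
  | insert a s ha ih => rw [Finset.sum_insert ha, Finset.prod_insert ha, AddChar.map_add_eq_mul, ih]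

lemma sum_prod_char {ι : Type*} [Fintype ι] [DecidableEq ι] (θi : ι → E → G) (ψ : AddChar G ℂ) :
    ∑ x : ι → E, ψ (∑ i, θi i (x i)) = ∏ i, chs (θi i) ψ := by
  unfold chs
  rw [Finset.prod_univ_sum]
  simp only [Fintype.piFinset_univ]
  refine Finset.sum_congr rfl fun x _ => ?_
  rw [char_sum]

/-- number of solutions -/
noncomputable def cnt {ι : Type*} [Fintype ι] [DecidableEq ι] (θi : ι → E → G) (g : G) : ℝ :=
  ∑ x : ι → E, if ∑ i, θi i (x i) = g then (1 : ℝ) else 0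

lemma cnt_nonneg {ι : Type*} [Fintype ι] [DecidableEq ι] (θi : ι → E → G) (g : G) :
    0 ≤ cnt θi g := by
  unfold cnt
  exact Finset.sum_nonneg fun _ _ => by split_ifs <;> norm_num

lemma sum_cnt {ι : Type*} [Fintype ι] [DecidableEq ι] (θi : ι → E → G) :
    ∑ g, cnt θi g = (Fintype.card E : ℝ) ^ (Fintype.card ι) := by
  unfold cnt
  rw [Finset.sum_comm]
  simp

lemma sum_cnt_sq {ι : Type*} [Fintype ι] [DecidableEq ι] (θi : ι → E → G) :
    (Fintype.card G : ℝ) * ∑ g, (cnt θi g) ^ 2 = ∑ ψ : AddChar G ℂ, ∏ i, ‖chs (θi i) ψ‖ ^ 2 := by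
  have h1 : ∑ g, (cnt θi g) ^ 2 = ∑ x : ι → E, ∑ x' : ι → E,
      if ∑ i, θi i (x i) = ∑ i, θi i (x' i) then (1 : ℝ) else 0 := by
    unfold cnt
    calc ∑ g, (∑ x : ι → E, if ∑ i, θi i (x i) = g then (1 : ℝ) else 0) ^ 2
        = ∑ g, ∑ x : ι → E, ∑ x' : ι → E, (if ∑ i, θi i (x i) = g then (1 : ℝ) else 0) *
            (if ∑ i, θi i (x' i) = g then (1 : ℝ) else 0) := by
          refine Finset.sum_congr rfl fun g _ => ?_
          rw [sq, Finset.sum_mul_sum]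
      _ = ∑ x : ι → E, ∑ x' : ι → E, ∑ g, (if ∑ i, θi i (x i) = g then (1 : ℝ) else 0) *
            (if ∑ i, θi i (x' i) = g then (1 : ℝ) else 0) := by
          rw [Finset.sum_comm]
          refine Finset.sum_congr rfl fun x _ => ?_
          rw [Finset.sum_comm]
      _ = _ := by
          refine Finset.sum_congr rfl fun x _ => Finset.sum_congr rfl fun x' _ => ?_
          simp only [ite_mul, one_mul, zero_mul]
          rw [Finset.sum_ite_eq]
          simp only [Finset.mem_univ, if_true]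
          by_cases h : ∑ i, θi i (x i) = ∑ i, θi i (x' i)
          · rw [if_pos h, if_pos h.symm]
          · rw [if_neg h, if_neg (fun h' => h h'.symm)]
  have h2 : ∀ ψ : AddChar G ℂ, ((∏ i, ‖chs (θi i) ψ‖ ^ 2 : ℝ) : ℂ) =
      ∑ x : ι → E, ∑ x' : ι → E, ψ (∑ i, θi i (x i) - ∑ i, θi i (x' i)) := by
    intro ψ
    have : ((∏ i, ‖chs (θi i) ψ‖ ^ 2 : ℝ) : ℂ) =
        (∏ i, chs (θi i) ψ) * (starRingEnd ℂ) (∏ i, chs (θi i) ψ) := by
      rw [map_prod, ← Finset.prod_mul_distrib]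
      push_cast
      refine Finset.prod_congr rfl fun i _ => ?_
      rw [Complex.mul_conj, Complex.normSq_eq_norm_sq]
      push_cast; rfl
    rw [this, ← sum_prod_char, map_sum, Finset.sum_mul_sum]
    refine Finset.sum_congr rfl fun x _ => Finset.sum_congr rfl fun x' _ => ?_
    rw [sub_eq_add_neg, AddChar.map_add_eq_mul, AddChar.map_neg_eq_conj]
  have h3 : ((∑ ψ : AddChar G ℂ, ∏ i, ‖chs (θi i) ψ‖ ^ 2 : ℝ) : ℂ) =
      (((Fintype.card G : ℝ) * ∑ g, (cnt θi g) ^ 2 : ℝ) : ℂ) := by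
    rw [h1]
    push_cast
    have : ∀ ψ : AddChar G ℂ, (∏ i, (‖chs (θi i) ψ‖ : ℂ) ^ 2) =
      ∑ x : ι → E, ∑ x' : ι → E, ψ (∑ i, θi i (x i) - ∑ i, θi i (x' i)) := by
      intro ψ
      rw [← h2 ψ]; push_cast; rfl
    rw [Finset.sum_congr rfl fun ψ _ => this ψ]
    rw [Finset.sum_comm, Finset.mul_sum]
    refine Finset.sum_congr rfl fun x _ => ?_
    rw [Finset.sum_comm, Finset.mul_sum]
    refine Finset.sum_congr rfl fun x' _ => ?_
    rw [AddChar.sum_apply_eq_ite]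
    by_cases h : ∑ i, θi i (x i) = ∑ i, θi i (x' i)
    · rw [if_pos (sub_eq_zero.mpr h), if_pos h]; simp
    · rw [if_neg (fun h' => h (sub_eq_zero.mp h')), if_neg h]; simp
  exact_mod_cast h3.symm

/-- `2m`-th moment of the character sums -/
noncomputable def Nm (θ : E → G) (m : ℕ) : ℝ :=
  (∑ ψ : AddChar G ℂ, ‖chs θ ψ‖ ^ (2 * m)) / (Fintype.card G : ℝ)

lemma cG_pos : (0 : ℝ) < (Fintype.card G : ℝ) := by
  exact_mod_cast Fintype.card_pos

lemma sum_cnt_sq' {ι : Type*} [Fintype ι] [DecidableEq ι] (θ : E → G) (θi : ι → E → G)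
    (hθ : ∀ i ψ, ‖chs (θi i) ψ‖ = ‖chs θ ψ‖) :
    ∑ g, (cnt θi g) ^ 2 = Nm θ (Fintype.card ι) := by
  have h := sum_cnt_sq θi
  unfold Nm
  rw [eq_div_iff (ne_of_gt cG_pos), mul_comm, h]
  refine Finset.sum_congr rfl fun ψ _ => ?_
  simp only [hθ, Finset.prod_const, Finset.card_univ, ← pow_mul]

lemma Nm_succ_le (θ : E → G) (m : ℕ) (η : ℝ) (hη : ∀ ψ : AddChar G ℂ, ψ ≠ 0 → ‖chs θ ψ‖ ≤ η) :
    Nm θ (m + 1) ≤ (Fintype.card E : ℝ) ^ (2 * (m + 1)) / (Fintype.card G : ℝ)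
      + η ^ 2 * Nm θ m := by
  unfold Nm
  rw [← mul_div_assoc, ← add_div]
  refine div_le_div_of_nonneg_right ?_ cG_pos.le
  rw [← Finset.sum_erase_add _ _ (Finset.mem_univ (0 : AddChar G ℂ)), chs_zero, add_comm]
  refine add_le_add ?_ ?_
  · simp
  · rw [Finset.mul_sum]
    calc ∑ ψ ∈ Finset.univ.erase (0 : AddChar G ℂ), ‖chs θ ψ‖ ^ (2 * (m + 1))
        ≤ ∑ ψ ∈ Finset.univ.erase (0 : AddChar G ℂ), η ^ 2 * ‖chs θ ψ‖ ^ (2 * m) := by
          refine Finset.sum_le_sum fun ψ hψ => ?_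
          have h1 := hη ψ (Finset.ne_of_mem_erase hψ)
          rw [mul_add, pow_add, mul_comm]
          refine mul_le_mul_of_nonneg_right ?_ (by positivity)
          simpa using pow_le_pow_left₀ (norm_nonneg _) h1 2
      _ ≤ ∑ ψ : AddChar G ℂ, η ^ 2 * ‖chs θ ψ‖ ^ (2 * m) := by
          refine Finset.sum_le_sum_of_subset_of_nonneg (Finset.erase_subset _ _) ?_
          intros; positivity

/-- variance bound -/
lemma var_le {ι : Type*} [Fintype ι] [DecidableEq ι] (θ : E → G) (θi : ι → E → G)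
    (hθ : ∀ i ψ, ‖chs (θi i) ψ‖ = ‖chs θ ψ‖) (m : ℕ) (hm : Fintype.card ι = m + 1)
    (η : ℝ) (hη : ∀ ψ : AddChar G ℂ, ψ ≠ 0 → ‖chs θ ψ‖ ≤ η) :
    ∑ g, (cnt θi g - (Fintype.card E : ℝ) ^ (m + 1) / (Fintype.card G : ℝ)) ^ 2
      ≤ η ^ 2 * Nm θ m := by
  have h1 := sum_cnt_sq' θ θi hθ
  have h2 := sum_cnt θi
  have h3 := Nm_succ_le θ m η hη
  rw [hm] at h1 h2
  have hG := cG_pos (G := G)
  set e := (Fintype.card E : ℝ)
  set cG := (Fintype.card G : ℝ)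
  have : ∑ g, (cnt θi g - e ^ (m + 1) / cG) ^ 2 =
      ∑ g, (cnt θi g) ^ 2 - 2 * (e ^ (m + 1) / cG) * ∑ g, cnt θi g
        + cG * (e ^ (m + 1) / cG) ^ 2 := by
    have : ∀ g, (cnt θi g - e ^ (m + 1) / cG) ^ 2 = (cnt θi g) ^ 2
      - 2 * (e ^ (m + 1) / cG) * cnt θi g + (e ^ (m + 1) / cG) ^ 2 := fun g => by ring
    simp only [this]
    rw [Finset.sum_add_distrib, Finset.sum_sub_distrib, ← Finset.mul_sum]
    simp [cG]
  rw [this, h1, h2]
  have e1 : cG * (e ^ (m + 1) / cG) ^ 2 = e ^ (2 * (m + 1)) / cG := by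
    field_simp
    ring
  have e2 : 2 * (e ^ (m + 1) / cG) * e ^ (m + 1) = 2 * (e ^ (2 * (m + 1)) / cG) := by
    ring
  rw [e1, e2]
  linarith

end Fourier

end H72Gon
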