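import Pool.Agent.Helper72.Gon.GL

open Finset BigOperators

set_option linter.unusedSectionVars false

namespace H72Gon

variable {E : Type*} [Fintype E] [DecidableEq E]

/-- equal multisets of values give a permutation -/
lemma exists_perm_of_map_eq {ι : Type*} [Fintype ι] [DecidableEq ι] (x x0 : ι → E)
    (h : (Finset.univ : Finset ι).val.map x = (Finset.univ : Finset ι).val.map x0) :
    ∃ σ : Equiv.Perm ι, ∀ i, x0 (σ i) = x i := by
  have hc : ∀ a : E, Fintype.card {i // x i = a} = Fintype.card {i // x0 i = a} := by
    intro a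
    have h1 := congrArg (Multiset.count a) h
    rw [Multiset.count_map, Multiset.count_map] at h1
    rw [Fintype.card_subtype, Fintype.card_subtype]
    have e1 : ∀ y : ι → E, Multiset.card (Multiset.filter (fun b => a = y b) univ.val) =
        #{i | y i = a} := by
      intro y
      rw [Finset.card_def, Finset.filter_val]
      congr 1
      exact Multiset.filter_congr fun i _ => eq_comm
    rw [e1, e1] at h1
    exact h1
  have e : ∀ a : E, ({i // x i = a} ≃ {i // x0 i = a}) := fun a =>
    Fintype.equivOfCardEq (hc a)
  refine ⟨Equiv.ofFiberEquiv e, fun i => ?_⟩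
  exact Equiv.ofFiberEquiv_map e i

lemma card_perm_bound {ι : Type*} [Fintype ι] [DecidableEq ι] (x0 : ι → E) :
    #{x : ι → E | (Finset.univ : Finset ι).val.map x = (Finset.univ : Finset ι).val.map x0} ≤
      (Fintype.card ι).factorial := by
  classical
  rw [← Fintype.card_perm, ← Finset.card_univ (α := Equiv.Perm ι)]
  refine le_trans (Finset.card_le_card (t := (Finset.univ : Finset (Equiv.Perm ι)).image
    (fun σ => fun i => x0 (σ i))) ?_) Finset.card_image_le
  intro x hx
  obtain ⟨σ, hσ⟩ := exists_perm_of_map_eq x x0 (Finset.mem_filter.mp hx).2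
  exact Finset.mem_image.mpr ⟨σ, Finset.mem_univ _, funext hσ⟩

variable {I : Type*} [Fintype I] [DecidableEq I]

lemma FB (p : I → Prop) [DecidablePred p] (𝒳 : Finset (I → E))
    (hX : ∀ x ∈ 𝒳, ∀ x' ∈ 𝒳, (Finset.univ.filter p).val.map x = (Finset.univ.filter p).val.map x') :
    #𝒳 ≤ (#{i | p i}).factorial * (Fintype.card E) ^ #{i | ¬ p i} := by
  classical
  rcases 𝒳.eq_empty_or_nonempty with h | ⟨x0, hx0⟩
  · simp [h]
  let Φ : (Equiv.Perm {i // p i}) × ({i // ¬ p i} → E) → (I → E) := fun y i =>
    if h : p i then x0 (y.1 ⟨i, h⟩) else y.2 ⟨i, h⟩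
  have hsub : 𝒳 ⊆ Finset.univ.image Φ := by
    intro x hx
    have h1 := hX x hx x0 hx0
    have h2 : (Finset.univ : Finset {i // p i}).val.map (fun i : {i // p i} => x i.1) =
        (Finset.univ : Finset {i // p i}).val.map (fun i : {i // p i} => x0 i.1) := by
      have e1 : ∀ y : I → E, (Finset.univ : Finset {i // p i}).val.map (fun i : {i // p i} => y i.1) =
          (Finset.univ.filter p).val.map y := by
        intro y
        have : (Finset.univ.filter p).val = (Finset.univ : Finset {i // p i}).val.map (fun i : {i // p i} => i.1) := by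
          have := Finset.subtype_map p (s := (Finset.univ : Finset I))
          rw [← this, Finset.map_val, Finset.subtype_univ]
          rfl
        rw [this, Multiset.map_map]; rfl
      rw [e1, e1, h1]
    obtain ⟨σ, hσ⟩ := exists_perm_of_map_eq _ _ h2
    refine Finset.mem_image.mpr ⟨(σ, fun i => x i.1), Finset.mem_univ _, ?_⟩
    funext i
    simp only [Φ]
    by_cases h : p i
    · rw [dif_pos h]; exact hσ ⟨i, h⟩
    · rw [dif_neg h]
  refine (Finset.card_le_card hsub).trans (Finset.card_image_le.trans ?_)
  rw [Finset.card_univ, Fintype.card_prod, Fintype.card_perm, Fintype.card_fun,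
    Fintype.card_subtype, Fintype.card_subtype]

end H72Gon
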