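import Pool.Agent.Helper72.Gon.Cube

open Finset BigOperators

set_option linter.unusedSectionVars false

namespace H72Gon

variable {V : Type*} [AddCommGroup V] [Module ℚ V]

/-- polarisation -/
theorem polar {N : ℕ} (Ψ : MultilinearMap ℚ (fun _ : Fin N => V) (V →ₗ[ℚ] ℝ))
    (hsym : ∀ (σ : Equiv.Perm (Fin N)) (v : Fin N → V), Ψ (fun i => v (σ i)) = Ψ v)
    (v0 : V) (u : Fin N → V) (w : V) :
    ∑ I : Finset (Fin N), (-1 : ℝ) ^ #I * Ψ (fun _ => v0 + ∑ j ∈ I, u j) w =
      (-1) ^ N * (N.factorial : ℝ) * Ψ u w := by
  classical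
  let u' : Option (Fin N) → V := fun k => k.elim v0 u
  let χ : (Fin N → Bool) → Option (Fin N) → ℚ := fun a k => k.elim 1 (fun j => if a j then 1 else 0)
  let ind : Finset (Fin N) → Fin N → Bool := fun I => hyb I (fun _ => true) (fun _ => false)
  have hind : ∀ I j, ind I j = decide (j ∈ I) := by
    intro I j
    simp only [ind, hyb]
    by_cases h : j ∈ I <;> simp [h]
  have e1 : ∀ I : Finset (Fin N), v0 + ∑ j ∈ I, u j = ∑ k : Option (Fin N), χ (ind I) k • u' k := by
    intro I
    rw [Fintype.sum_option]
    simp only [χ, u', Option.elim, one_smul, hind]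
    congr 1
    simp only [decide_eq_true_eq, ite_smul, one_smul, zero_smul]
    rw [Finset.sum_ite_mem, Finset.univ_inter]
  have e2 : ∀ I : Finset (Fin N), Ψ (fun _ => v0 + ∑ j ∈ I, u j) w =
      ∑ r : Fin N → Option (Fin N), (∏ i, ((χ (ind I) (r i) : ℚ) : ℝ)) * Ψ (fun i => u' (r i)) w := by
    intro I
    rw [e1 I, MultilinearMap.map_sum, LinearMap.sum_apply]
    refine Finset.sum_congr rfl fun r _ => ?_
    rw [MultilinearMap.map_smul_univ, LinearMap.smul_apply, Rat.smul_def]
    push_cast
    rfl
  let F : (Fin N → Option (Fin N)) → ℝ := fun r =>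
    ∑ I : Finset (Fin N), (-1 : ℝ) ^ #I * ((∏ i, ((χ (ind I) (r i) : ℚ) : ℝ)) *
      Ψ (fun i => u' (r i)) w)
  have e3 : ∑ I : Finset (Fin N), (-1 : ℝ) ^ #I * Ψ (fun _ => v0 + ∑ j ∈ I, u j) w =
      ∑ r, F r := by
    simp only [F]
    rw [Finset.sum_comm]
    refine Finset.sum_congr rfl fun I _ => ?_
    rw [e2 I, Finset.mul_sum]
  let im : Finset (Fin N → Option (Fin N)) :=
    (Finset.univ : Finset (Equiv.Perm (Fin N))).image (fun σ i => some (σ i))
  have e4 : ∀ r, r ∉ im → F r = 0 := by
    intro r hr
    have : ∃ j0 : Fin N, ∀ i, r i ≠ some j0 := by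
      by_contra hcon
      push Not at hcon
      choose g hg using hcon
      have hginj : Function.Injective g := by
        intro j j' hjj
        have := hg j
        rw [hjj, hg j'] at this
        exact (Option.some.inj this).symm
      have hgbij : Function.Bijective g := Finite.injective_iff_bijective.mp hginj
      apply hr
      refine Finset.mem_image.mpr ⟨(Equiv.ofBijective g hgbij).symm, Finset.mem_univ _, ?_⟩
      funext i
      have := hg ((Equiv.ofBijective g hgbij).symm i)
      rw [← this]
      congr 1
      exact ((Equiv.ofBijective g hgbij).apply_symm_apply i)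
    obtain ⟨j0, hj0⟩ := this
    have := alt_sum_zero (E := Bool) j0
      (fun a : Fin N → Bool => (∏ i, ((χ a (r i) : ℚ) : ℝ)) * Ψ (fun i => u' (r i)) w)
      (by
        intro a a' haa
        have : ∀ i, χ a (r i) = χ a' (r i) := by
          intro i
          simp only [χ]
          cases hri : r i with
          | none => rfl
          | some j =>
            have hjj : j ≠ j0 := by
              rintro rfl; exact hj0 i hri
            simp only [Option.elim]
            rw [haa j hjj]
        simp only [this]) (fun _ => true) (fun _ => false)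
    exact this
  rw [e3, ← Finset.sum_subset (Finset.subset_univ im) (fun r _ hr => e4 r hr)]
  rw [Finset.sum_image]
  · have e5 : ∀ σ : Equiv.Perm (Fin N), F (fun i => some (σ i)) = (-1) ^ N * Ψ u w := by
      intro σ
      simp only [F]
      rw [Finset.sum_eq_single Finset.univ]
      · have h1 : ∏ i, ((χ (ind Finset.univ) (some (σ i)) : ℚ) : ℝ) = 1 := by
          refine Finset.prod_eq_one fun i _ => ?_
          simp [χ, hind]
        rw [h1, one_mul, Finset.card_univ, Fintype.card_fin]
        congr 2
        exact hsym σ u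
      · intro I _ hI
        have : ∃ j, j ∉ I := by
          by_contra hcon
          push Not at hcon
          exact hI (Finset.eq_univ_iff_forall.mpr hcon)
        obtain ⟨j, hj⟩ := this
        have h1 : ∏ i, ((χ (ind I) (some (σ i)) : ℚ) : ℝ) = 0 := by
          refine Finset.prod_eq_zero (Finset.mem_univ (σ.symm j)) ?_
          simp [χ, hind, hj]
        rw [h1]; ring
      · intro h; exact absurd (Finset.mem_univ _) h
    rw [Finset.sum_congr rfl fun σ _ => e5 σ, Finset.sum_const, Finset.card_univ,
      Fintype.card_perm, Fintype.card_fin, nsmul_eq_mul]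
    ring
  · intro σ _ σ' _ h
    apply Equiv.ext
    intro i
    exact Option.some.inj (congrFun h i)

end H72Gon
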