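import Pool.Agent.Helper72.Gon.Poly
import Pool.Agent.Helper72.Gon.Polar

open Finset BigOperators Polynomial

set_option linter.unusedSectionVars false

namespace H72Gon

section numbers

/-- numerical constant -/
noncomputable def cC1 (N : ℕ) : ℝ :=
  (N + 2 : ℝ) ^ N + 2 * (N + 1) * (N + 2 : ℝ) ^ N + 2 ^ (N + 3) * (N + 2 : ℝ) ^ (N + 1)

noncomputable def cC2 (N : ℕ) : ℝ :=
  4 ^ (N + 2) * ((N + 1).factorial : ℝ) * (N + 2 : ℝ) ^ (N + 1)

noncomputable def cC3 (N : ℕ) : ℝ :=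
  3 * ((N + 1).factorial : ℝ) * cC1 N +
    36 * ((N + 2).factorial : ℝ) * ((N + 1).factorial : ℝ) * (2 ^ (N + 2)) ^ 2 * cC2 N

lemma cC1_pos (N : ℕ) : 0 < cC1 N := by unfold cC1; positivity
lemma cC2_pos (N : ℕ) : 0 < cC2 N := by unfold cC2; positivity
lemma cC3_pos (N : ℕ) : 0 < cC3 N := by
  have := cC1_pos N; have := cC2_pos N
  unfold cC3; positivity

end numbers

section one

variable {K : Type*} [Field K] [Fintype K] [DecidableEq K]
variable {V : Type*} [AddCommGroup V] [Module ℚ V]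

/-- relation hypothesis -/
def RelHyp (N : ℕ) (Ψ : MultilinearMap ℚ (fun _ : Fin N => V) (V →ₗ[ℚ] ℝ)) (pt : K → V) : Prop :=
  ∀ (a b z : Fin (N + 2) → K) (c : K), c ≠ 0 → c ≠ 1 →
    Bp a - C c * Bp z = C (1 - c) * Bp b →
    Ψ (fun _ => ∑ j, (pt (a j) - pt (b j))) (∑ j, pt (z j) - ∑ j, pt (b j)) = 0

/-- nondegenerate bound -/
def NDBound (N : ℕ) (Ψ : MultilinearMap ℚ (fun _ : Fin N => V) (V →ₗ[ℚ] ℝ)) (pt : K → V)
    (M : ℝ) : Prop :=
  ∀ (x x' : Fin N → K) (y y' : K), (∀ i, x i ≠ y) → (∀ i, x i ≠ y') → (∀ i, x' i ≠ y) →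
    (∀ i, x' i ≠ y') → |Ψ (fun i => pt (x i) - pt (x' i)) (pt y - pt y')| ≤ M

/-- estimate for one modulus -/
lemma one_modulus (N : ℕ) (Ψ : MultilinearMap ℚ (fun _ : Fin N => V) (V →ₗ[ℚ] ℝ)) (pt : K → V)
    (hrel : RelHyp N Ψ pt) (M : ℝ) (hM : 0 ≤ M) (hbd : NDBound N Ψ pt M)
    (S : Finset K) (y y0 : K) (hy : y ∈ S) (hy0 : y0 ∈ S) (b : Fin (N + 2) → K)
    (hb : ∀ i, b i ∈ S) (hby : ∀ i, b i ≠ y) (hby0 : ∀ i, b i ≠ y0)
    (δ : ℝ) (hδ : 0 ≤ δ) (hδ1 : δ ≤ 1)
    (hQ : ((2 * (N + 2)).factorial : ℝ) * (N + 2 : ℕ) ^ 2 ≤ δ ^ (4 * (N + 2)) * (Fintype.card K : ℝ))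
    (hQe : (Fintype.card K : ℝ) ≤ 2 * (Fintype.card {x : K // x ∉ S} : ℝ))
    (hSe : (#S : ℝ) ≤ δ * (Fintype.card {x : K // x ∉ S} : ℝ))
    (he1 : 2 * 2 ^ (N + 2) * ((N + 2).factorial : ℝ) ≤ (Fintype.card {x : K // x ∉ S} : ℝ)) :
    |∑ a : Fin (N + 2) → {x : K // x ∉ S},
      Ψ (fun _ => ∑ j, (pt (a j).1 - pt (b j))) (pt y - pt y0)| ≤
      2 ^ (N + 2) * cC3 N * δ * M * (Fintype.card {x : K // x ∉ S} : ℝ) ^ (N + 2) := by
  classical
  set E := {x : K // x ∉ S} with hE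
  set e := (Fintype.card E : ℝ) with he
  set Q := (Fintype.card K : ℝ) with hQdef
  have hfact : (1 : ℝ) ≤ ((N + 2).factorial : ℝ) := by
    exact_mod_cast Nat.one_le_iff_ne_zero.mpr (Nat.factorial_ne_zero _)
  have h2P : (1 : ℝ) ≤ 2 ^ (N + 2) := one_le_pow₀ (by norm_num)
  have he2 : 2 ≤ e := by nlinarith
  have he0 : 0 < e := by linarith
  have hEpos : 0 < Fintype.card E := by
    have : (0 : ℝ) < (Fintype.card E : ℝ) := he0
    exact_mod_cast this
  let θ : E → GG b := fun x => tht b x.1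
  let q : E → V := fun x => pt x.1
  let β : Fin (N + 2) → V := fun j => pt (b j)
  -- elements of E are not poles
  have hEb : ∀ (x : E) (i : Fin (N + 2)), x.1 ≠ b i := fun x i h => x.2 (h ▸ hb i)
  have hyb : ∀ i, y ≠ b i := fun i h => hby i h.symm
  have hy0b : ∀ i, y0 ≠ b i := fun i h => hby0 i h.symm
  have hES : ∀ (x : E) {w : K}, w ∈ S → x.1 ≠ w := fun x w hw h => x.2 (h ▸ hw)
  -- Sidon
  have hSid : Sidon θ (N + 1) := by
    intro m m' hc hd h
    have h1 := tht_sidon b (m.map Subtype.val) (m'.map Subtype.val)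
      (by intro x hx; obtain ⟨w, _, rfl⟩ := Multiset.mem_map.mp hx; exact hEb w)
      (by intro x hx; obtain ⟨w, _, rfl⟩ := Multiset.mem_map.mp hx; exact hEb w)
      (by simpa using hc) (by rw [Multiset.card_map]; omega)
      (by simpa [Multiset.map_map, θ, Function.comp_def] using h)
    exact Multiset.map_injective Subtype.val_injective h1
  -- gap
  set η := δ * Q + #S with hη
  have hη0 : 0 ≤ η := by positivity
  have hgap : ∀ ψ : AddChar (GG b) ℂ, ψ ≠ 0 → ‖chs θ ψ‖ ≤ η := by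
    intro ψ hψ
    exact gapE b S hb δ hδ (by omega) hQ ψ hψ
  -- size of G
  have hcG := cG_pos (G := GG b)
  set cG := (Fintype.card (GG b) : ℝ) with hcGdef
  have hQe1 : e ≤ Q - 1 := by
    have h1 : Fintype.card E = Fintype.card K - #S := by
      rw [Fintype.card_of_subtype (Sᶜ) (fun x => by simp), Finset.card_compl]
    have h2 : 1 ≤ #S := Finset.card_pos.mpr ⟨y, hy⟩
    have h3 : #S ≤ Fintype.card K := Finset.card_le_univ S
    have h4 : Fintype.card E + 1 ≤ Fintype.card K := by omega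
    have h5 : (Fintype.card E : ℝ) + 1 ≤ (Fintype.card K : ℝ) := by exact_mod_cast h4
    linarith
  have hcGle : cG ≤ 2 ^ (N + 2) * e ^ (N + 1) := by
    have h1 := card_GG b (by omega)
    have h2 : cG * e ≤ 2 ^ (N + 2) * e ^ (N + 1) * e := by
      calc cG * e ≤ cG * (Q - 1) := mul_le_mul_of_nonneg_left hQe1 hcG.le
        _ ≤ Q ^ (N + 2) := h1
        _ ≤ (2 * e) ^ (N + 2) := pow_le_pow_left₀ (by positivity) hQe _
        _ = 2 ^ (N + 2) * e ^ (N + 1) * e := by rw [mul_pow]; ring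
    exact le_of_mul_le_mul_right h2 he0
  set P : ℝ := 2 ^ (N + 2) with hP
  have hT0 : e / P ≤ e ^ (N + 2) / cG := by
    rw [div_le_div_iff₀ (by positivity) hcG]
    calc e * cG ≤ e * (P * e ^ (N + 1)) := mul_le_mul_of_nonneg_left hcGle he0.le
      _ = e ^ (N + 2) * P := by ring
  have hT : 2 * ((N + 2).factorial : ℝ) ≤ e ^ (N + 2) / cG := by
    refine le_trans ?_ hT0
    rw [le_div_iff₀ (by positivity)]
    calc 2 * ((N + 2).factorial : ℝ) * P = 2 * P * ((N + 2).factorial : ℝ) := by ring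
      _ ≤ e := he1
  -- eta bound
  have hη3 : η ≤ 3 * δ * e := by
    rw [hη]
    have : δ * Q ≤ δ * (2 * e) := mul_le_mul_of_nonneg_left hQe hδ
    linarith
  -- relation facts
  have hdisj : ∀ (a z : Fin (N + 2) → K), (∀ j i, a j ≠ b i) → (∀ j i, z j ≠ b i) →
      ¬ ((Finset.univ : Finset (Fin (N + 2))).val.map a =
        (Finset.univ : Finset (Fin (N + 2))).val.map z) →
      ∑ j, tht b (a j) = ∑ j, tht b (z j) →
      (∀ j l, a j ≠ z l) ∧
      Ψ (fun _ => ∑ j, (pt (a j) - pt (b j))) (∑ j, pt (z j) - ∑ j, pt (b j)) = 0 := by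
    intro a z ha hz hne hsum
    have key := tht_rel b ((Finset.univ : Finset (Fin (N + 2))).val.map a)
      ((Finset.univ : Finset (Fin (N + 2))).val.map z)
      (by intro x hx; obtain ⟨w, _, rfl⟩ := Multiset.mem_map.mp hx; exact ha w)
      (by intro x hx; obtain ⟨w, _, rfl⟩ := Multiset.mem_map.mp hx; exact hz w)
      (by simp) (by simp) hne
      (by rw [Multiset.map_map, Multiset.map_map]; exact hsum)
    obtain ⟨h1, c, hc0, hc1, h2⟩ := key
    refine ⟨fun j l h => ?_, ?_⟩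
    · refine h1 (a j) (Multiset.mem_map.mpr ⟨j, Finset.mem_univ_val _, rfl⟩) ?_
      rw [h]; exact Multiset.mem_map.mpr ⟨l, Finset.mem_univ_val _, rfl⟩
    · refine hrel a b z c hc0 hc1 ?_
      rw [Bp_eq_PM a, Bp_eq_PM z]; exact h2
  have hcons : ∀ (w : K) (hw : w ∈ S) (hwb : ∀ i, w ≠ b i)
      (a : Fin (N + 2) → E) (z : Fin (N + 1) → E), ∑ j, θ (a j) = tht b w + ∑ l, θ (z l) →
      (∀ j l, a j ≠ z l) ∧ Fa N Ψ q β a (∑ l, q (z l) + pt w - ∑ j, β j) = 0 := by
    intro w hw hwb a z haz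
    let z' : Fin (N + 2) → K := Fin.cons w (fun l => (z l).1)
    have h1 : ∀ j i, z' j ≠ b i := by
      intro j i
      refine Fin.cases ?_ (fun l => ?_) j
      · simpa [z'] using hwb i
      · simpa [z'] using hEb (z l) i
    have h2 : ¬ ((Finset.univ : Finset (Fin (N + 2))).val.map (fun j => (a j).1) =
        (Finset.univ : Finset (Fin (N + 2))).val.map z') := by
      intro h
      have : w ∈ (Finset.univ : Finset (Fin (N + 2))).val.map (fun j => (a j).1) := by
        rw [h]; exact Multiset.mem_map.mpr ⟨0, Finset.mem_univ_val _, by simp [z']⟩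
      obtain ⟨j, _, hj⟩ := Multiset.mem_map.mp this
      exact hES (a j) hw hj
    have h3 : ∑ j, tht b (a j).1 = ∑ j, tht b (z' j) := by
      rw [Fin.sum_univ_succ (fun j => tht b (z' j))]
      simpa [z', θ] using haz
    obtain ⟨h4, h5⟩ := hdisj (fun j => (a j).1) z' (fun j i => hEb (a j) i) h1 h2 h3
    refine ⟨fun j l h => ?_, ?_⟩
    · refine h4 j l.succ ?_
      simp only [z', Fin.cons_succ]
      rw [h]
    · have h6 : ∑ j, pt (z' j) = ∑ l, q (z l) + pt w := by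
        rw [Fin.sum_univ_succ]
        simp [z', q, add_comm]
      rw [h6] at h5
      exact h5
  have main := ame N Ψ q β θ (tht b y) (tht b y0) (pt y) (pt y0) hSid η hη0 hgap M hM
    (by
      intro x φ c hc
      refine hbd (fun i => (x i).1) (fun i => b (φ i)) c.1 y0 ?_ ?_ ?_ ?_
      · intro i h; exact hc i (Subtype.ext h)
      · intro i; exact hES (x i) hy0
      · intro i h; exact hEb c (φ i) h.symm
      · intro i; exact hby0 _)
    (by
      intro x φ
      refine hbd (fun i => (x i).1) (fun i => b (φ i)) y y0 ?_ ?_ ?_ ?_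
      · intro i; exact hES (x i) hy
      · intro i; exact hES (x i) hy0
      · intro i; exact hby _
      · intro i; exact hby0 _)
    (hcons y hy hyb) (hcons y0 hy0 hy0b)
    (by
      intro a z haz hne
      obtain ⟨h4, h5⟩ := hdisj (fun j => (a j).1) (fun j => (z j).1) (fun j i => hEb (a j) i)
        (fun j i => hEb (z j) i)
        (by
          intro h
          apply hne
          have h' : ((Finset.univ : Finset (Fin (N + 2))).val.map a).map Subtype.val =
            ((Finset.univ : Finset (Fin (N + 2))).val.map z).map Subtype.val := by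
            simpa [Multiset.map_map, Function.comp_def] using h
          exact Multiset.map_injective Subtype.val_injective h')
        haz
      exact ⟨fun j l h => h4 j l (by rw [h]), h5⟩)
    hEpos
  have hbad := bad_bound N θ hSid η hgap ((N + 2).factorial : ℝ) (by positivity) hT
  set Bd := ((#{a : Fin (N + 2) → E | cnt (fun _ : Fin (N + 2) => θ) (∑ j, θ (a j)) ≤
          ((N + 2).factorial : ℝ)} : ℕ) : ℝ) with hBd
  have hBd0 : 0 ≤ Bd := by rw [hBd]; positivity
  set F1 := ((N + 1).factorial : ℝ) with hF1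
  set F2 := ((N + 2).factorial : ℝ) with hF2
  have hF10 : 0 < F1 := by rw [hF1]; positivity
  have hF20 : 0 < F2 := by rw [hF2]; positivity
  have hP0 : 0 < P := by rw [hP]; positivity
  -- bound for Bd
  have hBd1 : Bd ≤ 36 * F2 * F1 * P ^ 2 * δ * e ^ (N + 2) := by
    have h1 : Bd * (e / P) ^ 2 ≤ F2 * 4 * ((3 * δ * e) ^ 2 * (F1 * e ^ (N + 1))) := by
      calc Bd * (e / P) ^ 2 ≤ Bd * (e ^ (N + 2) / cG) ^ 2 := by
            refine mul_le_mul_of_nonneg_left ?_ hBd0
            exact pow_le_pow_left₀ (by positivity) hT0 2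
        _ ≤ F2 * 4 * (η ^ 2 * (F1 * e ^ (N + 1))) := hbad
        _ ≤ _ := by
            refine mul_le_mul_of_nonneg_left ?_ (by positivity)
            refine mul_le_mul_of_nonneg_right ?_ (by positivity)
            exact pow_le_pow_left₀ hη0 hη3 2
    have h2 : Bd * e ^ 2 ≤ (36 * F2 * F1 * P ^ 2 * δ ^ 2 * e ^ (N + 1)) * e ^ 2 := by
      have h3 := mul_le_mul_of_nonneg_right h1 (show 0 ≤ P ^ 2 by positivity)
      calc Bd * e ^ 2 = Bd * (e / P) ^ 2 * P ^ 2 := by field_simp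
        _ ≤ _ := h3
        _ = _ := by ring
    have h4 := le_of_mul_le_mul_right h2 (by positivity)
    calc Bd ≤ 36 * F2 * F1 * P ^ 2 * δ ^ 2 * e ^ (N + 1) := h4
      _ ≤ 36 * F2 * F1 * P ^ 2 * (δ * 1) * (e ^ (N + 1) * e) := by
          have hδδ : δ ^ 2 ≤ δ * 1 := by rw [sq]; exact mul_le_mul_of_nonneg_left hδ1 hδ
          have hee : e ^ (N + 1) ≤ e ^ (N + 1) * e := le_mul_of_one_le_right (by positivity) (by linarith)
          gcongr
      _ = _ := by ring
  have hε1 : F1 * η * e ^ (N + 1) ≤ 3 * F1 * δ * e ^ (N + 2) := by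
    calc F1 * η * e ^ (N + 1) ≤ F1 * (3 * δ * e) * e ^ (N + 1) := by gcongr
      _ = _ := by ring
  have hC1 := cC1_pos N
  have hC2 := cC2_pos N
  have hfin : e ^ (N + 1) / cG * |∑ a, Fa N Ψ q β a (pt y - pt y0)| ≤
      M * (cC3 N * δ * e ^ (N + 2)) := by
    refine main.trans (mul_le_mul_of_nonneg_left ?_ hM)
    calc cC1 N * (F1 * η * e ^ (N + 1)) + cC2 N * Bd
        ≤ cC1 N * (3 * F1 * δ * e ^ (N + 2)) +
          cC2 N * (36 * F2 * F1 * P ^ 2 * δ * e ^ (N + 2)) := by gcongr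
      _ = cC3 N * δ * e ^ (N + 2) := by
          unfold cC3
          rw [← hF1, ← hF2, ← hP]
          ring
  have h7 : |∑ a, Fa N Ψ q β a (pt y - pt y0)| ≤
      (cG / e ^ (N + 1)) * (M * (cC3 N * δ * e ^ (N + 2))) := by
    have h8 := mul_le_mul_of_nonneg_left hfin (show 0 ≤ cG / e ^ (N + 1) by positivity)
    calc |∑ a, Fa N Ψ q β a (pt y - pt y0)| =
          (cG / e ^ (N + 1)) * (e ^ (N + 1) / cG * |∑ a, Fa N Ψ q β a (pt y - pt y0)|) := by
          field_simp
      _ ≤ _ := h8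
  have h9 : cG / e ^ (N + 1) ≤ P := by
    rw [div_le_iff₀ (by positivity)]; exact hcGle
  have hC3 := cC3_pos N
  calc |∑ a : Fin (N + 2) → E, Ψ (fun _ => ∑ j, (pt (a j).1 - pt (b j))) (pt y - pt y0)|
      = |∑ a, Fa N Ψ q β a (pt y - pt y0)| := rfl
    _ ≤ (cG / e ^ (N + 1)) * (M * (cC3 N * δ * e ^ (N + 2))) := h7
    _ ≤ P * (M * (cC3 N * δ * e ^ (N + 2))) := by
        refine mul_le_mul_of_nonneg_right h9 (by positivity)
    _ = _ := by ring

end one

end H72Gon
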