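import Pool.Agent.Helper72.Gon.Equi

open Finset BigOperators

set_option linter.unusedSectionVars false

namespace H72Gon

variable {G : Type*} [AddCommGroup G] [Fintype G] [DecidableEq G]
variable {E : Type*} [Fintype E] [DecidableEq E]
variable {I : Type*} [Fintype I] [DecidableEq I]

/-- glue two functions -/
def glue (p : I → Prop) [DecidablePred p] (x w : I → E) : I → E := fun i => if p i then x i else w i

lemma glue_glue (p : I → Prop) [DecidablePred p] (x w : I → E) :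
    glue p (glue p x w) (glue p w x) = x := by
  funext i; unfold glue; by_cases h : p i <;> simp [h]

/-- the involution -/
def glueEquiv (p : I → Prop) [DecidablePred p] : (I → E) × (I → E) ≃ (I → E) × (I → E) where
  toFun y := (glue p y.1 y.2, glue p y.2 y.1)
  invFun y := (glue p y.1 y.2, glue p y.2 y.1)
  left_inv y := by simp [glue_glue]
  right_inv y := by simp [glue_glue]

lemma sum_glue (p : I → Prop) [DecidablePred p] (F : (I → E) → ℝ) :
    ∑ x : I → E, ∑ w : I → E, F (glue p x w) =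
      (Fintype.card E : ℝ) ^ (Fintype.card I) * ∑ x : I → E, F x := by
  rw [← Fintype.sum_prod_type' (f := fun x w => F (glue p x w))]
  rw [Fintype.sum_equiv (glueEquiv (E := E) p) (fun y => F (glue p y.1 y.2)) (fun y => F y.1)
    (fun y => rfl)]
  rw [Fintype.sum_prod_type' (f := fun x _ => F x)]
  simp only [Finset.sum_const, Finset.card_univ, Fintype.card_fun, nsmul_eq_mul]
  rw [← Finset.mul_sum]
  push_cast
  rfl

/-- partial maps -/
def th (p : I → Prop) [DecidablePred p] (θi : I → E → G) : I → E → G :=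
  fun i x => if p i then 0 else θi i x

/-- partial sum over `p` -/
def Pp (p : I → Prop) [DecidablePred p] (θi : I → E → G) (x : I → E) : G :=
  ∑ i, if p i then θi i (x i) else 0

lemma sum_glue_eq (p : I → Prop) [DecidablePred p] (θi : I → E → G) (x w : I → E) :
    ∑ i, θi i (glue p x w i) = Pp p θi x + ∑ i, th p θi i (w i) := by
  unfold Pp th glue
  rw [← Finset.sum_add_distrib]
  refine Finset.sum_congr rfl fun i _ => ?_
  by_cases h : p i <;> simp [h]

lemma chs_th (p : I → Prop) [DecidablePred p] (θi : I → E → G) (i : I) (ψ : AddChar G ℂ) :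
    ‖chs (th p θi i) ψ‖ = if p i then (Fintype.card E : ℝ) else ‖chs (θi i) ψ‖ := by
  unfold chs th
  by_cases h : p i <;> simp [h]

lemma var_th (p : I → Prop) [DecidablePred p] (θ : E → G) (θi : I → E → G)
    (hθ : ∀ i ψ, ‖chs (θi i) ψ‖ = ‖chs θ ψ‖) (m : ℕ) (hm : #{i | ¬ p i} = m + 1)
    (η : ℝ) (hη : ∀ ψ : AddChar G ℂ, ψ ≠ 0 → ‖chs θ ψ‖ ≤ η) :
    ∑ g, (cnt (th p θi) g - (Fintype.card E : ℝ) ^ (Fintype.card I) / (Fintype.card G : ℝ)) ^ 2
      ≤ (Fintype.card E : ℝ) ^ (2 * #{i | p i}) * (η ^ 2 * Nm θ m) := by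
  have h1 := sum_cnt_sq (th p θi)
  have h2 := sum_cnt (th p θi)
  have h3 := Nm_succ_le θ m η hη
  have hG := cG_pos (G := G)
  have hcard : Fintype.card I = #{i | p i} + (m + 1) := by
    rw [← hm, ← Finset.card_univ (α := I), Finset.card_filter_add_card_filter_not]
  set e := (Fintype.card E : ℝ) with he
  set cG := (Fintype.card G : ℝ) with hcG
  set a := #{i | p i} with ha
  have h4 : ∑ ψ : AddChar G ℂ, ∏ i, ‖chs (th p θi i) ψ‖ ^ 2 = e ^ (2 * a) * (cG * Nm θ (m + 1)) := by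
    have : ∀ ψ : AddChar G ℂ, ∏ i, ‖chs (th p θi i) ψ‖ ^ 2 = e ^ (2 * a) * ‖chs θ ψ‖ ^ (2 * (m + 1)) := by
      intro ψ
      rw [← Finset.prod_filter_mul_prod_filter_not Finset.univ p]
      congr 1
      · rw [Finset.prod_congr rfl (g := fun _ => e ^ 2)]
        · rw [Finset.prod_const, ← ha, ← pow_mul]
        · intro i hi
          rw [chs_th, if_pos (Finset.mem_filter.mp hi).2]
      · rw [Finset.prod_congr rfl (g := fun _ => ‖chs θ ψ‖ ^ 2)]
        · rw [Finset.prod_const, hm, ← pow_mul]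
        · intro i hi
          rw [chs_th, if_neg (Finset.mem_filter.mp hi).2, hθ]
    rw [Finset.sum_congr rfl fun ψ _ => this ψ, ← Finset.mul_sum]
    unfold Nm
    rw [mul_div_cancel₀ _ (ne_of_gt hG)]
  rw [h4] at h1
  have h5 : ∑ g, (cnt (th p θi) g) ^ 2 = e ^ (2 * a) * Nm θ (m + 1) := by
    have := mul_left_cancel₀ (ne_of_gt hG) (a := cG) (b := ∑ g, (cnt (th p θi) g) ^ 2)
      (c := e ^ (2 * a) * Nm θ (m + 1)) (by rw [h1]; ring)
    exact this
  have : ∑ g, (cnt (th p θi) g - e ^ (Fintype.card I) / cG) ^ 2 =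
      ∑ g, (cnt (th p θi) g) ^ 2 - 2 * (e ^ (Fintype.card I) / cG) * ∑ g, cnt (th p θi) g
        + cG * (e ^ (Fintype.card I) / cG) ^ 2 := by
    have : ∀ g, (cnt (th p θi) g - e ^ (Fintype.card I) / cG) ^ 2 = (cnt (th p θi) g) ^ 2
      - 2 * (e ^ (Fintype.card I) / cG) * cnt (th p θi) g + (e ^ (Fintype.card I) / cG) ^ 2 :=
        fun g => by ring
    simp only [this]
    rw [Finset.sum_add_distrib, Finset.sum_sub_distrib, ← Finset.mul_sum]
    simp [cG]
  rw [this, h5, h2, hcard]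
  have e1 : cG * (e ^ (a + (m + 1)) / cG) ^ 2 = e ^ (2 * a) * (e ^ (2 * (m + 1)) / cG) := by
    field_simp
    ring
  have e2 : 2 * (e ^ (a + (m + 1)) / cG) * e ^ (a + (m + 1)) =
      2 * (e ^ (2 * a) * (e ^ (2 * (m + 1)) / cG)) := by
    ring
  rw [e1, e2]
  have h6 : e ^ (2 * a) * Nm θ (m + 1) ≤ e ^ (2 * a) * (e ^ (2 * (m + 1)) / cG + η ^ 2 * Nm θ m) :=
    mul_le_mul_of_nonneg_left h3 (by positivity)
  nlinarith [h6]

/-- General equidistribution lemma. -/
theorem equid_gen (p : I → Prop) [DecidablePred p] (θ : E → G) (θi : I → E → G)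
    (hθ : ∀ i ψ, ‖chs (θi i) ψ‖ = ‖chs θ ψ‖) (m : ℕ) (hm : #{i | ¬ p i} = m + 1)
    (η : ℝ) (hη : ∀ ψ : AddChar G ℂ, ψ ≠ 0 → ‖chs θ ψ‖ ≤ η)
    (f : ℝ) (hf : Nm θ m ≤ f * (Fintype.card E : ℝ) ^ m)
    (h : (I → E) → ℝ) (hdep : ∀ x x' : I → E, (∀ i, p i → x i = x' i) → h x = h x')
    (L : ℝ) (hL : ∀ x, |h x| ≤ L) (F : ℝ) (hF0 : 0 ≤ F)
    (hF : ∀ g, ((#{x : I → E | h x ≠ 0 ∧ Pp p θi x = g} : ℕ) : ℝ) ≤
      F * (Fintype.card E : ℝ) ^ (m + 1))
    (g0 : G) (hE : 0 < Fintype.card E) :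
    ((∑ x : I → E, if ∑ i, θi i (x i) = g0 then h x else 0) -
      (∑ x : I → E, h x) / (Fintype.card G : ℝ)) ^ 2 ≤
      L ^ 2 * F * f * η ^ 2 * (Fintype.card E : ℝ) ^ (Fintype.card I - 1) := by
  have hG := cG_pos (G := G)
  have hcard : Fintype.card I = #{i | p i} + (m + 1) := by
    rw [← hm, ← Finset.card_univ (α := I), Finset.card_filter_add_card_filter_not]
  have hvar := var_th p θ θi hθ m hm η hη
  set e := (Fintype.card E : ℝ) with he
  have he0 : 0 < e := by rw [he]; exact_mod_cast hE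
  set cG := (Fintype.card G : ℝ) with hcG
  set a := #{i | p i} with ha
  set n := Fintype.card I with hn
  set S := ∑ x : I → E, (if ∑ i, θi i (x i) = g0 then h x else 0) with hS
  set B := (∑ x : I → E, h x) / cG with hB
  set T := e ^ n / cG with hT
  -- claim 1
  have c1 : e ^ n * S = ∑ x : I → E, h x * cnt (th p θi) (g0 - Pp p θi x) := by
    rw [hS, hn, he, ← sum_glue p (fun x => if ∑ i, θi i (x i) = g0 then h x else 0)]
    refine Finset.sum_congr rfl fun x _ => ?_
    unfold cnt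
    rw [Finset.mul_sum]
    refine Finset.sum_congr rfl fun w _ => ?_
    have hx : h (glue p x w) = h x := hdep _ _ fun i hi => by simp [glue, hi]
    rw [sum_glue_eq, hx]
    by_cases hc : ∑ i, th p θi i (w i) = g0 - Pp p θi x
    · rw [if_pos hc, if_pos (by rw [hc]; abel), mul_one]
    · rw [if_neg hc, if_neg (fun h' => hc (by rw [← h']; abel)), mul_zero]
  have c2 : e ^ n * B = ∑ x : I → E, h x * T := by
    rw [hB, hT, ← Finset.sum_mul]; ring
  have c3 : e ^ n * (S - B) = ∑ x : I → E, h x * (cnt (th p θi) (g0 - Pp p θi x) - T) := by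
    rw [mul_sub, c1, c2, ← Finset.sum_sub_distrib]
    exact Finset.sum_congr rfl fun x _ => by ring
  -- Cauchy-Schwarz
  have c4 : (e ^ n * (S - B)) ^ 2 ≤ (∑ x : I → E, (h x) ^ 2) *
      (∑ x : I → E, (if h x ≠ 0 then (cnt (th p θi) (g0 - Pp p θi x) - T) ^ 2 else 0)) := by
    rw [c3]
    have : ∑ x : I → E, h x * (cnt (th p θi) (g0 - Pp p θi x) - T) =
        ∑ x : I → E, h x * (if h x ≠ 0 then (cnt (th p θi) (g0 - Pp p θi x) - T) else 0) := by
      refine Finset.sum_congr rfl fun x _ => ?_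
      by_cases hx : h x = 0 <;> simp [hx]
    rw [this]
    refine (Finset.sum_mul_sq_le_sq_mul_sq _ _ _).trans ?_
    refine mul_le_mul_of_nonneg_left ?_ (Finset.sum_nonneg fun _ _ => sq_nonneg _)
    refine Finset.sum_le_sum fun x _ => ?_
    by_cases hx : h x = 0 <;> simp [hx]
  have hL0 : 0 ≤ L ^ 2 := sq_nonneg L
  have c5 : ∑ x : I → E, (h x) ^ 2 ≤ e ^ n * L ^ 2 := by
    calc ∑ x : I → E, (h x) ^ 2 ≤ ∑ _x : I → E, L ^ 2 := by
          refine Finset.sum_le_sum fun x _ => ?_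
          rw [← sq_abs]
          exact pow_le_pow_left₀ (abs_nonneg _) (hL x) 2
      _ = e ^ n * L ^ 2 := by
          rw [Finset.sum_const, Finset.card_univ, Fintype.card_fun, nsmul_eq_mul]
          push_cast; rfl
  have c6 : ∑ x : I → E, (if h x ≠ 0 then (cnt (th p θi) (g0 - Pp p θi x) - T) ^ 2 else 0) ≤
      (F * e ^ (m + 1)) * (e ^ (2 * a) * (η ^ 2 * Nm θ m)) := by
    calc ∑ x : I → E, (if h x ≠ 0 then (cnt (th p θi) (g0 - Pp p θi x) - T) ^ 2 else 0)
        = ∑ x : I → E, ∑ g, (if h x ≠ 0 ∧ Pp p θi x = g0 - g then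
            (cnt (th p θi) g - T) ^ 2 else 0) := by
          refine Finset.sum_congr rfl fun x _ => ?_
          by_cases hx : h x = 0
          · simp [hx]
          · rw [if_pos hx, Finset.sum_eq_single (g0 - Pp p θi x)]
            · rw [if_pos ⟨hx, by abel⟩]
            · intro g _ hg
              rw [if_neg]
              rintro ⟨_, h'⟩
              exact hg (by rw [h']; abel)
            · intro h'; exact absurd (Finset.mem_univ _) h'
      _ = ∑ g, ∑ x : I → E, (if h x ≠ 0 ∧ Pp p θi x = g0 - g then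
            (cnt (th p θi) g - T) ^ 2 else 0) := Finset.sum_comm
      _ = ∑ g, ((#{x : I → E | h x ≠ 0 ∧ Pp p θi x = g0 - g} : ℕ) : ℝ) *
            (cnt (th p θi) g - T) ^ 2 := by
          refine Finset.sum_congr rfl fun g _ => ?_
          rw [← Finset.sum_filter, Finset.sum_const, nsmul_eq_mul]
      _ ≤ ∑ g, (F * e ^ (m + 1)) * (cnt (th p θi) g - T) ^ 2 := by
          refine Finset.sum_le_sum fun g _ => ?_
          exact mul_le_mul_of_nonneg_right (hF _) (sq_nonneg _)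
      _ = (F * e ^ (m + 1)) * ∑ g, (cnt (th p θi) g - T) ^ 2 := by rw [Finset.mul_sum]
      _ ≤ _ := mul_le_mul_of_nonneg_left hvar (by positivity)
  have c7 : (e ^ n) ^ 2 * (S - B) ^ 2 ≤
      (e ^ n) ^ 2 * (L ^ 2 * F * f * η ^ 2 * e ^ (n - 1)) := by
    calc (e ^ n) ^ 2 * (S - B) ^ 2 = (e ^ n * (S - B)) ^ 2 := by ring
      _ ≤ (e ^ n * L ^ 2) * ((F * e ^ (m + 1)) * (e ^ (2 * a) * (η ^ 2 * Nm θ m))) := by
          refine c4.trans (mul_le_mul c5 c6 ?_ (by positivity))
          exact Finset.sum_nonneg fun _ _ => by split_ifs <;> positivity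
      _ ≤ (e ^ n * L ^ 2) * ((F * e ^ (m + 1)) * (e ^ (2 * a) * (η ^ 2 * (f * e ^ m)))) := by
          gcongr
      _ = (e ^ n) ^ 2 * (L ^ 2 * F * f * η ^ 2 * e ^ (n - 1)) := by
          have hn1 : n - 1 = a + m := by omega
          rw [hn1, hcard]
          ring
  exact le_of_mul_le_mul_left c7 (by positivity)

end H72Gon
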