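import Pool.Agent.Helper72.Gon.FB

open Finset BigOperators Polynomial

set_option linter.unusedSectionVars false

namespace H72Gon

variable {K : Type*} [Field K] [Fintype K] [DecidableEq K]

/-- the monic split polynomial with given roots -/
noncomputable def Bp {ι : Type*} [Fintype ι] (b : ι → K) : K[X] := ∏ j, (X - C (b j))

section basic

variable {ι : Type*} [Fintype ι]

lemma Bp_monic (b : ι → K) : (Bp b).Monic := monic_prod_of_monic _ _ fun _ _ => monic_X_sub_C _

lemma Bp_natDegree (b : ι → K) : (Bp b).natDegree = Fintype.card ι := by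
  unfold Bp
  rw [natDegree_prod_of_monic _ _ fun j _ => monic_X_sub_C _]
  simp

lemma Bp_ne_zero (b : ι → K) : Bp b ≠ 0 := (Bp_monic b).ne_zero

lemma Bp_roots (b : ι → K) : (Bp b).roots = Finset.univ.val.map b := by
  unfold Bp
  rw [Polynomial.roots_prod]
  · simp only [roots_X_sub_C]
    rw [← Multiset.bind_singleton]
  · exact Finset.prod_ne_zero_iff.mpr fun j _ => X_sub_C_ne_zero _

lemma Bp_comp (b : ι → K) (β : K) : (Bp b).comp (X - C β) = Bp (fun j => b j + β) := by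
  unfold Bp
  rw [Polynomial.prod_comp]
  refine Finset.prod_congr rfl fun j _ => ?_
  simp only [sub_comp, X_comp, C_comp, C_add]
  ring

lemma Bp_comp' (b : ι → K) (β : K) : (Bp b).comp (X + C β) = Bp (fun j => b j - β) := by
  have := Bp_comp b (-β)
  simp only [C_neg, sub_neg_eq_add, ← sub_eq_add_neg] at this
  exact this

lemma Bp_coprime {κ : Type*} [Fintype κ] (b : ι → K) (b' : κ → K) (h : ∀ i j, b i ≠ b' j) :
    IsCoprime (Bp b) (Bp b') := by
  unfold Bp
  refine IsCoprime.prod_left fun i _ => IsCoprime.prod_right fun j _ => ?_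
  exact isCoprime_X_sub_C_of_isUnit_sub (IsUnit.mk0 _ (sub_ne_zero.mpr (h i j)))

end basic

/-- polynomial with given coefficients -/
noncomputable def Pc {m : ℕ} (c : Fin m → K) : K[X] := ∑ i, C (c i) * X ^ (i : ℕ)

lemma Pc_degree {m : ℕ} (c : Fin m → K) : (Pc c).degree < m := by
  unfold Pc
  exact degree_sum_fin_lt c

lemma Pc_sub {m : ℕ} (c c' : Fin m → K) : Pc (c - c') = Pc c - Pc c' := by
  unfold Pc
  rw [← Finset.sum_sub_distrib]
  refine Finset.sum_congr rfl fun i _ => ?_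
  simp [sub_mul]

lemma Pc_coeff {m : ℕ} (c : Fin m → K) (i : Fin m) : (Pc c).coeff i = c i := by
  unfold Pc
  rw [finsetSum_coeff]
  simp only [coeff_C_mul, coeff_X_pow]
  rw [Finset.sum_eq_single i]
  · simp
  · intro j _ hj
    rw [if_neg, mul_zero]
    intro h
    exact hj (Fin.ext h.symm)
  · intro h; exact absurd (Finset.mem_univ _) h

lemma Pc_inj {m : ℕ} (c : Fin m → K) (h : Pc c = 0) : c = 0 := by
  funext i
  rw [← Pc_coeff c i, h]; simp

section gap

variable {d : ℕ} (b : Fin d → K)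

noncomputable instance : Fintype (AdjoinRoot (Bp b)) := by
  haveI := (Bp_monic b).finite_adjoinRoot
  have : Finite (AdjoinRoot (Bp b)) := Module.finite_of_finite K
  exact Fintype.ofFinite _

lemma card_R : Fintype.card (AdjoinRoot (Bp b)) = Fintype.card K ^ d := by
  have := (Bp_monic b).finite_adjoinRoot
  rw [Module.card_eq_pow_finrank (K := K), (AdjoinRoot.powerBasis' (Bp_monic b)).finrank,
    AdjoinRoot.powerBasis'_dim, Bp_natDegree, Fintype.card_fin]

lemma comp_back (A : K[X]) (β : K) : (A.comp (X + C β)).comp (X - C β) = A := by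
  rw [comp_assoc]; simp

lemma dvd_comp_iff {A : K[X]} {β : K} (h : Bp b ∣ A.comp (X + C β)) :
    Bp (fun j => b j + β) ∣ A := by
  rw [← Bp_comp, ← comp_back A β]
  obtain ⟨q, hq⟩ := h
  rw [hq, mul_comp]
  exact dvd_mul_right _ _

/-- the evaluation of all residues -/
noncomputable def resMap (β β' : K) (c : Fin (2 * d) → K) :
    AdjoinRoot (Bp b) × AdjoinRoot (Bp b) :=
  (AdjoinRoot.mk (Bp b) ((Pc c).comp (X + C β)), AdjoinRoot.mk (Bp b) ((Pc c).comp (X + C β')))

lemma resMap_bij (β β' : K) (h : ∀ i j, b i + β ≠ b j + β') :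
    Function.Bijective (resMap b β β') := by
  rw [Fintype.bijective_iff_injective_and_card]
  constructor
  · intro c c' hcc
    unfold resMap at hcc
    rw [Prod.mk.injEq] at hcc
    obtain ⟨h1, h2⟩ := hcc
    rw [AdjoinRoot.mk_eq_mk, ← sub_comp, ← Pc_sub] at h1 h2
    have h3 := dvd_comp_iff b h1
    have h4 := dvd_comp_iff b h2
    have h5 : Bp (fun j => b j + β) * Bp (fun j => b j + β') ∣ Pc (c - c') :=
      (Bp_coprime _ _ h).mul_dvd h3 h4
    by_contra hne
    have hne' : Pc (c - c') ≠ 0 := fun h0 => hne (sub_eq_zero.mp (Pc_inj _ h0))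
    have h6 := natDegree_le_of_dvd h5 hne'
    rw [natDegree_mul (Bp_ne_zero _) (Bp_ne_zero _), Bp_natDegree, Bp_natDegree,
      Fintype.card_fin] at h6
    have h7 := Pc_degree (c - c')
    have h8 := (natDegree_lt_iff_degree_lt hne').mpr h7
    omega
  · rw [Fintype.card_prod, card_R, Fintype.card_fun, Fintype.card_fin, two_mul, pow_add]

lemma norm_mulChar_le {R : Type*} [CommRing R] [Fintype R] (χ : MulChar R ℂ) (u : R) :
    ‖χ u‖ ≤ 1 := by
  classical
  by_cases hu : IsUnit u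
  · obtain ⟨v, rfl⟩ := hu
    have h1 : (χ (v : R)) ^ (Fintype.card Rˣ) = 1 := by
      rw [← map_pow, ← Units.val_pow_eq_pow_val, pow_card_eq_one]
      simp
    exact le_of_eq (Complex.norm_eq_one_of_pow_eq_one h1 Fintype.card_ne_zero)
  · rw [χ.map_nonunit hu]; simp

lemma orth (χ : MulChar (AdjoinRoot (Bp b)) ℂ) (hχ : χ ≠ 1) (β β' : K)
    (h : ∀ i j, b i + β ≠ b j + β') :
    ∑ c : Fin (2 * d) → K,
      χ (AdjoinRoot.mk (Bp b) ((X ^ (2 * d) + Pc c).comp (X + C β))) *
      (starRingEnd ℂ) (χ (AdjoinRoot.mk (Bp b) ((X ^ (2 * d) + Pc c).comp (X + C β')))) = 0 := by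
  set u0 := AdjoinRoot.mk (Bp b) ((X ^ (2 * d)).comp (X + C β)) with hu0
  set v0 := AdjoinRoot.mk (Bp b) ((X ^ (2 * d)).comp (X + C β')) with hv0
  have h1 : ∀ c : Fin (2 * d) → K,
      χ (AdjoinRoot.mk (Bp b) ((X ^ (2 * d) + Pc c).comp (X + C β))) *
      (starRingEnd ℂ) (χ (AdjoinRoot.mk (Bp b) ((X ^ (2 * d) + Pc c).comp (X + C β')))) =
      (fun y : AdjoinRoot (Bp b) × AdjoinRoot (Bp b) =>
        χ (u0 + y.1) * (starRingEnd ℂ) (χ (v0 + y.2))) (resMap b β β' c) := by
    intro c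
    simp only [resMap, hu0, hv0, ← map_add, add_comp]
  rw [Finset.sum_congr rfl fun c _ => h1 c]
  rw [(resMap_bij b β β' h).sum_comp
    (fun y : AdjoinRoot (Bp b) × AdjoinRoot (Bp b) =>
        χ (u0 + y.1) * (starRingEnd ℂ) (χ (v0 + y.2)))]
  rw [Fintype.sum_prod_type]
  simp only [← Finset.mul_sum]
  rw [← Finset.sum_mul]
  have h2 : ∑ x, χ (u0 + x) = 0 := by
    rw [Fintype.sum_equiv (Equiv.addLeft u0) (fun x => χ (u0 + x)) (fun x => χ x) (fun x => rfl)]
    exact MulChar.sum_eq_zero_of_ne_one hχ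
  rw [h2, zero_mul]

lemma as_Pc {m : ℕ} (x : Fin m → K) :
    Bp x = X ^ m + Pc (fun i : Fin m => (Bp x).coeff i) := by
  conv_lhs => rw [(Bp_monic x).as_sum]
  rw [Bp_natDegree, Fintype.card_fin]
  congr 1
  unfold Pc
  rw [Finset.sum_range]

omit [DecidableEq K] in
/-- abstract form of the translation argument -/
lemma gap_abs {W : Type*} [Fintype W] [DecidableEq W] (m d : ℕ) (S : ℂ) (Φ : K → W → ℂ)
    (h1 : ∀ β c, ‖Φ β c‖ ≤ 1) (bad : K → Finset K) (hbad : ∀ β, #(bad β) ≤ d ^ 2)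
    (horth : ∀ β β', β' ∉ bad β → ∑ c, Φ β c * (starRingEnd ℂ) (Φ β' c) = 0)
    (cf : (Fin m → K) → W) (hcf : ∀ c, #{x | cf x = c} ≤ m.factorial)
    (hS : ∀ β, ∑ x, Φ β (cf x) = S ^ m) :
    ((Fintype.card K : ℝ) * ‖S‖ ^ m) ^ 2 ≤ (Fintype.card K : ℝ) ^ m *
      ((m.factorial : ℝ) * ((Fintype.card K : ℝ) * (d ^ 2 * (Fintype.card W : ℝ)))) := by
  classical
  set Q := (Fintype.card K : ℝ) with hQ
  have hQ0 : 0 < Q := by rw [hQ]; exact_mod_cast Fintype.card_pos
  let f : W → ℂ := fun c => ∑ β : K, Φ β c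
  have h2 : (Q : ℂ) * S ^ m = ∑ x : Fin m → K, f (cf x) := by
    simp only [f]
    rw [Finset.sum_comm, Finset.sum_congr rfl fun β _ => hS β, Finset.sum_const, Finset.card_univ,
      nsmul_eq_mul, hQ]
    simp
  have h3 : (Q * ‖S‖ ^ m) ^ 2 ≤ Q ^ m * ∑ x : Fin m → K, ‖f (cf x)‖ ^ 2 := by
    have e1 : Q * ‖S‖ ^ m = ‖∑ x : Fin m → K, f (cf x)‖ := by
      rw [← h2, norm_mul, norm_pow, Complex.norm_real, Real.norm_of_nonneg hQ0.le]
    rw [e1]
    calc ‖∑ x : Fin m → K, f (cf x)‖ ^ 2 ≤ (∑ x : Fin m → K, 1 * ‖f (cf x)‖) ^ 2 := by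
          refine pow_le_pow_left₀ (norm_nonneg _) ?_ 2
          simpa using norm_sum_le (Finset.univ : Finset (Fin m → K)) (fun x => f (cf x))
      _ ≤ (∑ _x : Fin m → K, (1 : ℝ) ^ 2) * ∑ x : Fin m → K, ‖f (cf x)‖ ^ 2 :=
          Finset.sum_mul_sq_le_sq_mul_sq _ _ _
      _ = Q ^ m * ∑ x : Fin m → K, ‖f (cf x)‖ ^ 2 := by
          simp [hQ]
  have h4 : ∑ x : Fin m → K, ‖f (cf x)‖ ^ 2 ≤
      (m.factorial : ℝ) * ∑ c : W, ‖f c‖ ^ 2 := by
    calc ∑ x : Fin m → K, ‖f (cf x)‖ ^ 2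
        = ∑ x : Fin m → K, ∑ c : W, (if cf x = c then ‖f c‖ ^ 2 else 0) := by
          refine Finset.sum_congr rfl fun x _ => ?_
          rw [Finset.sum_ite_eq, if_pos (Finset.mem_univ _)]
      _ = ∑ c : W, ∑ x : Fin m → K, (if cf x = c then ‖f c‖ ^ 2 else 0) := Finset.sum_comm
      _ = ∑ c : W, ((#{x : Fin m → K | cf x = c} : ℕ) : ℝ) * ‖f c‖ ^ 2 := by
          refine Finset.sum_congr rfl fun c _ => ?_
          rw [← Finset.sum_filter, Finset.sum_const, nsmul_eq_mul]
      _ ≤ ∑ c : W, (m.factorial : ℝ) * ‖f c‖ ^ 2 := by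
          refine Finset.sum_le_sum fun c _ => mul_le_mul_of_nonneg_right ?_ (by positivity)
          exact_mod_cast hcf c
      _ = _ := by rw [Finset.mul_sum]
  have h5 : ∑ c : W, ‖f c‖ ^ 2 ≤ Q * (d ^ 2 * (Fintype.card W : ℝ)) := by
    have e1 : ((∑ c : W, ‖f c‖ ^ 2 : ℝ) : ℂ) =
        ∑ β : K, ∑ β' : K, ∑ c : W, Φ β c * (starRingEnd ℂ) (Φ β' c) := by
      have e2 : ∀ c : W, ((‖f c‖ ^ 2 : ℝ) : ℂ) = ∑ β : K, ∑ β' : K,
        Φ β c * (starRingEnd ℂ) (Φ β' c) := by
        intro c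
        rw [← Complex.normSq_eq_norm_sq, ← Complex.mul_conj]
        simp only [f]
        rw [map_sum, Finset.sum_mul_sum]
      rw [Complex.ofReal_sum, Finset.sum_congr rfl fun c _ => e2 c, Finset.sum_comm]
      refine Finset.sum_congr rfl fun β _ => ?_
      rw [Finset.sum_comm]
    have e3 : ∑ c : W, ‖f c‖ ^ 2 = ‖((∑ c : W, ‖f c‖ ^ 2 : ℝ) : ℂ)‖ := by
      rw [Complex.norm_real, Real.norm_of_nonneg]
      exact Finset.sum_nonneg fun _ _ => by positivity
    rw [e3, e1]
    have e4 : ∀ β β' : K, ‖∑ c : W, Φ β c * (starRingEnd ℂ) (Φ β' c)‖ ≤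
        if β' ∈ bad β then (Fintype.card W : ℝ) else 0 := by
      intro β β'
      split_ifs with hβ
      · refine (norm_sum_le _ _).trans ?_
        calc _ ≤ ∑ _c : W, (1 : ℝ) := by
              refine Finset.sum_le_sum fun c _ => ?_
              rw [norm_mul, RCLike.norm_conj]
              exact mul_le_one₀ (h1 _ _) (norm_nonneg _) (h1 _ _)
          _ = (Fintype.card W : ℝ) := by simp
      · rw [horth β β' hβ, norm_zero]
    calc _ ≤ ∑ β : K, ∑ β' : K, ‖∑ c : W, Φ β c * (starRingEnd ℂ) (Φ β' c)‖ := by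
          refine (norm_sum_le _ _).trans (Finset.sum_le_sum fun β _ => norm_sum_le _ _)
      _ ≤ ∑ β : K, ∑ β' : K, (if β' ∈ bad β then (Fintype.card W : ℝ) else 0) :=
          Finset.sum_le_sum fun β _ => Finset.sum_le_sum fun β' _ => e4 β β'
      _ ≤ ∑ _β : K, (d ^ 2 * (Fintype.card W : ℝ)) := by
          refine Finset.sum_le_sum fun β _ => ?_
          rw [← Finset.sum_filter, Finset.sum_const, nsmul_eq_mul]
          refine mul_le_mul_of_nonneg_right ?_ (by positivity)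
          rw [Finset.filter_mem_eq_inter, Finset.univ_inter]
          exact_mod_cast hbad β
      _ = Q * (d ^ 2 * (Fintype.card W : ℝ)) := by
          rw [Finset.sum_const, Finset.card_univ, nsmul_eq_mul]
  exact h3.trans (mul_le_mul_of_nonneg_left
      (h4.trans (mul_le_mul_of_nonneg_left h5 (by positivity))) (by positivity))

lemma mk_Bp {m : ℕ} (y : Fin m → K) :
    AdjoinRoot.mk (Bp b) (Bp y) = ∏ i, AdjoinRoot.mk (Bp b) (X - C (y i)) := by
  rw [show Bp y = ∏ j, (X - C (y j)) from rfl, map_prod]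

/-- spectral gap -/
theorem gap (χ : MulChar (AdjoinRoot (Bp b)) ℂ) (hχ : χ ≠ 1) :
    ‖∑ x : K, χ (AdjoinRoot.mk (Bp b) (X - C x))‖ ^ (4 * d) ≤
      ((2 * d).factorial : ℝ) * d ^ 2 * (Fintype.card K : ℝ) ^ (4 * d - 1) := by
  classical
  rcases Nat.eq_zero_or_pos d with hd | hd
  · -- trivial ring
    exfalso
    apply hχ
    have : Subsingleton (AdjoinRoot (Bp b)) := by
      have hc : Fintype.card (AdjoinRoot (Bp b)) ≤ 1 := by
        rw [card_R, hd, pow_zero]
      exact Fintype.card_le_one_iff_subsingleton.mp hc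
    refine MulChar.ext fun a => ?_
    have ha : (a : AdjoinRoot (Bp b)) = 1 := Subsingleton.elim _ _
    rw [ha]; simp
  set S := ∑ x : K, χ (AdjoinRoot.mk (Bp b) (X - C x)) with hS
  let Φ : K → (Fin (2 * d) → K) → ℂ := fun β c =>
    χ (AdjoinRoot.mk (Bp b) ((X ^ (2 * d) + Pc c).comp (X + C β)))
  let bad : K → Finset K := fun β => (Finset.univ : Finset (Fin d × Fin d)).image
            (fun ij => b ij.1 + β - b ij.2)
  have hmul : ∀ x : Fin (2 * d) → K, ∀ β : K,
      χ (AdjoinRoot.mk (Bp b) ((Bp x).comp (X + C β))) =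
      ∏ i, χ (AdjoinRoot.mk (Bp b) (X - C (x i - β))) := by
    intro x β
    rw [Bp_comp', mk_Bp, map_prod]
  have h1 : ∀ β : K, ∑ x : Fin (2 * d) → K,
      χ (AdjoinRoot.mk (Bp b) ((Bp x).comp (X + C β))) = S ^ (2 * d) := by
    intro β
    rw [Finset.sum_congr rfl fun x _ => hmul x β]
    have h2 : ∑ x : K, χ (AdjoinRoot.mk (Bp b) (X - C (x - β))) = S := by
      rw [hS]
      exact Fintype.sum_equiv (Equiv.subRight β) _ _ (fun x => rfl)
    have h3 := Finset.prod_univ_sum (t := fun _ : Fin (2 * d) => (Finset.univ : Finset K))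
      (f := fun (_ : Fin (2 * d)) (x : K) => χ (AdjoinRoot.mk (Bp b) (X - C (x - β))))
    rw [Fintype.piFinset_univ] at h3
    rw [← h3, Finset.prod_const, h2, Finset.card_univ, Fintype.card_fin]
  have key := gap_abs (2 * d) d S Φ (fun β c => norm_mulChar_le _ _) bad
    (by
      intro β
      refine Finset.card_image_le.trans ?_
      rw [Finset.card_univ, Fintype.card_prod, Fintype.card_fin, sq])
    (by
      intro β β' hβ
      refine orth b χ hχ β β' ?_
      intro i j hij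
      apply hβ
      refine Finset.mem_image.mpr ⟨(i, j), Finset.mem_univ _, ?_⟩
      simp only
      rw [hij]; ring)
    (fun x => fun i : Fin (2 * d) => (Bp x).coeff i)
    (by
      intro c
      rcases (Finset.filter (fun x : Fin (2 * d) → K =>
            (fun i : Fin (2 * d) => (Bp x).coeff i) = c) Finset.univ).eq_empty_or_nonempty with
            h | ⟨x0, hx0⟩
      · rw [h]; simp
      · have := card_perm_bound x0
        rw [Fintype.card_fin] at this
        refine le_trans (Finset.card_le_card ?_) this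
        intro x hx
        have hx1 := (Finset.mem_filter.mp hx).2
        have hx2 := (Finset.mem_filter.mp hx0).2
        refine Finset.mem_filter.mpr ⟨Finset.mem_univ _, ?_⟩
        rw [← Bp_roots, ← Bp_roots, as_Pc x, as_Pc x0, hx1, hx2])
    (by
      intro β
      rw [← h1 β]
      refine Finset.sum_congr rfl fun x _ => ?_
      simp only [Φ]
      rw [← as_Pc x])
  rw [Fintype.card_fun, Fintype.card_fin] at key
  push_cast at key
  set Q := (Fintype.card K : ℝ) with hQ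
  have hQ0 : 0 < Q := by rw [hQ]; exact_mod_cast Fintype.card_pos
  have h7 : Q ^ 2 * ‖S‖ ^ (4 * d) ≤ Q ^ 2 *
        (((2 * d).factorial : ℝ) * d ^ 2 * Q ^ (4 * d - 1)) := by
    calc Q ^ 2 * ‖S‖ ^ (4 * d) = (Q * ‖S‖ ^ (2 * d)) ^ 2 := by
          rw [mul_pow, ← pow_mul]; congr 2; ring
      _ ≤ _ := key
      _ = Q ^ 2 * (((2 * d).factorial : ℝ) * d ^ 2 * Q ^ (4 * d - 1)) := by
          have e : Q ^ (2 * d) * Q * Q ^ (2 * d) = Q ^ 2 * Q ^ (4 * d - 1) := by
            rw [← pow_succ, ← pow_add, ← pow_add]; congr 1; omega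
          calc Q ^ (2 * d) * (((2 * d).factorial : ℝ) * (Q * (d ^ 2 * Q ^ (2 * d))))
              = ((2 * d).factorial : ℝ) * d ^ 2 * (Q ^ (2 * d) * Q * Q ^ (2 * d)) := by ring
            _ = _ := by rw [e]; ring
  exact le_of_mul_le_mul_left h7 (by positivity)

end gap

end H72Gon
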