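import Pool.Agent.Helper72.Gon.Finite

open Finset BigOperators Polynomial

set_option linter.unusedSectionVars false

namespace H72Gon

universe u v

/-- numbers -/
noncomputable def dl (N : ℕ) : ℝ := 1 / (2 * (2 ^ N * 2 ^ (N + 2) * cC3 N) + 1)

lemma dl_pos (N : ℕ) : 0 < dl N := by
  have := cC3_pos N
  unfold dl; positivity

lemma dl_le_one (N : ℕ) : dl N ≤ 1 := by
  have := cC3_pos N
  unfold dl
  rw [div_le_one (by positivity)]
  have : 0 ≤ 2 * (2 ^ N * 2 ^ (N + 2) * cC3 N) := by positivity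
  linarith

lemma dl_spec (N : ℕ) : 2 ^ N * (2 ^ (N + 2) * cC3 N * dl N) ≤ 1 / 2 := by
  have := cC3_pos N
  unfold dl
  rw [← mul_div_assoc, ← mul_div_assoc, div_le_div_iff₀ (by positivity) (by norm_num)]
  have : 0 ≤ 2 * (2 ^ N * 2 ^ (N + 2) * cC3 N) := by positivity
  nlinarith

/-- threshold -/
noncomputable def Q0 (N : ℕ) : ℕ :=
  ⌈((2 * (N + 2)).factorial : ℝ) * (N + 2 : ℕ) ^ 2 / dl N ^ (4 * (N + 2))⌉₊ +
  ⌈(2 * N + 2 : ℝ) / dl N⌉₊ + 2 * (2 * N + 2) + 2 * (2 * 2 ^ (N + 2) * (N + 2).factorial)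

theorem finite_level (N : ℕ) (hN : 0 < N) (K : Type u) [Field K] [Fintype K] [DecidableEq K]
    (hK : Q0 N ≤ Fintype.card K) (V : Type v) [AddCommGroup V] [Module ℚ V]
    (Ψ : MultilinearMap ℚ (fun _ : Fin N => V) (V →ₗ[ℚ] ℝ))
    (hsym : ∀ (σ : Equiv.Perm (Fin N)) (v : Fin N → V), Ψ (fun i => v (σ i)) = Ψ v)
    (pt : K → V) (hrel : RelHyp N Ψ pt) : NDBound N Ψ pt 0 := by
  classical
  -- the finite set of nondegenerate data
  let ND : Finset ((Fin N → K) × (Fin N → K) × K × K) := Finset.univ.filter fun t =>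
    (∀ i, t.1 i ≠ t.2.2.1) ∧ (∀ i, t.1 i ≠ t.2.2.2) ∧ (∀ i, t.2.1 i ≠ t.2.2.1) ∧
      (∀ i, t.2.1 i ≠ t.2.2.2)
  let val : (Fin N → K) × (Fin N → K) × K × K → ℝ := fun t =>
    |Ψ (fun i => pt (t.1 i) - pt (t.2.1 i)) (pt t.2.2.1 - pt t.2.2.2)|
  rcases ND.eq_empty_or_nonempty with hemp | hne
  · intro x x' y y' h1 h2 h3 h4
    have : (x, x', y, y') ∈ ND := Finset.mem_filter.mpr ⟨Finset.mem_univ _, h1, h2, h3, h4⟩
    rw [hemp] at this
    exact absurd this (Finset.notMem_empty _)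
  obtain ⟨⟨x, x', y, y0⟩, hmem, hmax⟩ := Finset.exists_max_image ND val hne
  obtain ⟨-, hxy, hxy0, hxy', hxy0'⟩ := Finset.mem_filter.mp hmem
  simp only at hxy hxy0 hxy' hxy0'
  set M := val (x, x', y, y0) with hMdef
  have hM : 0 ≤ M := abs_nonneg _
  have hbd : NDBound N Ψ pt M := by
    intro z z' w w' h1 h2 h3 h4
    exact hmax (z, z', w, w') (Finset.mem_filter.mpr ⟨Finset.mem_univ _, h1, h2, h3, h4⟩)
  -- the set S
  set S : Finset K := (Finset.univ.image x ∪ Finset.univ.image x') ∪ {y, y0} with hSdef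
  have hScard : #S ≤ 2 * N + 2 := by
    rw [hSdef]
    refine (Finset.card_union_le _ _).trans ?_
    have h1 := Finset.card_union_le (Finset.univ.image x) (Finset.univ.image x')
    have h2 : #(Finset.univ.image x) ≤ N := Finset.card_image_le.trans (by simp)
    have h3 : #(Finset.univ.image x') ≤ N := Finset.card_image_le.trans (by simp)
    have h4 : #({y, y0} : Finset K) ≤ 2 := Finset.card_le_two
    omega
  have hxS : ∀ i, x i ∈ S := fun i => by
    rw [hSdef]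
    exact Finset.mem_union_left _ (Finset.mem_union_left _ (Finset.mem_image.mpr ⟨i, Finset.mem_univ _, rfl⟩))
  have hxS' : ∀ i, x' i ∈ S := fun i => by
    rw [hSdef]
    exact Finset.mem_union_left _ (Finset.mem_union_right _ (Finset.mem_image.mpr ⟨i, Finset.mem_univ _, rfl⟩))
  have hyS : y ∈ S := by rw [hSdef]; exact Finset.mem_union_right _ (by simp)
  have hy0S : y0 ∈ S := by rw [hSdef]; exact Finset.mem_union_right _ (by simp)
  -- numbers
  set e := (Fintype.card {x : K // x ∉ S} : ℝ) with he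
  set Q := (Fintype.card K : ℝ) with hQdef
  have hδ := dl_pos N
  set δ := dl N with hδdef
  have hecard : Fintype.card {x : K // x ∉ S} = Fintype.card K - #S := by
    rw [Fintype.card_of_subtype (Sᶜ) (fun x => by simp), Finset.card_compl]
  have hSK : #S ≤ Fintype.card K := Finset.card_le_univ S
  have heQ : e = Q - #S := by
    rw [he, hecard, Nat.cast_sub hSK]
  have hSR : (#S : ℝ) ≤ 2 * N + 2 := by exact_mod_cast hScard
  have hQ0R : ((Q0 N : ℕ) : ℝ) ≤ Q := by rw [hQdef]; exact Nat.cast_le.mpr hK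
  unfold Q0 at hQ0R
  push_cast at hQ0R
  have c1 := Nat.le_ceil (((2 * (N + 2)).factorial : ℝ) * (N + 2 : ℕ) ^ 2 / δ ^ (4 * (N + 2)))
  have c2 := Nat.le_ceil ((2 * N + 2 : ℝ) / δ)
  have c1' : (0 : ℝ) ≤ ((2 * (N + 2)).factorial : ℝ) * (N + 2 : ℕ) ^ 2 / δ ^ (4 * (N + 2)) := by
    positivity
  have c2' : (0 : ℝ) ≤ (2 * N + 2 : ℝ) / δ := by positivity
  have c3' : (0 : ℝ) ≤ 2 * (2 * 2 ^ (N + 2) * ((N + 2).factorial : ℝ)) := by positivity
  have c4' : (0 : ℝ) ≤ (N : ℝ) := by positivity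
  push_cast at c1 c1'
  have q1 : ((2 * (N + 2)).factorial : ℝ) * (N + 2 : ℕ) ^ 2 ≤ δ ^ (4 * (N + 2)) * Q := by
    have : ((2 * (N + 2)).factorial : ℝ) * (N + 2 : ℝ) ^ 2 / δ ^ (4 * (N + 2)) ≤ Q := by linarith
    rw [div_le_iff₀ (by positivity)] at this
    push_cast
    linarith
  have q2 : (2 * N + 2 : ℝ) / δ ≤ Q - (2 * N + 2) := by linarith
  have q3 : Q ≤ 2 * e := by rw [heQ]; linarith
  have q4 : (#S : ℝ) ≤ δ * e := by
    rw [div_le_iff₀ hδ] at q2
    have : (Q - (2 * N + 2)) ≤ e := by rw [heQ]; linarith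
    nlinarith
  have q5 : 2 * 2 ^ (N + 2) * ((N + 2).factorial : ℝ) ≤ e := by
    linarith
  have he0 : 0 < e := lt_of_lt_of_le (by positivity) q5
  -- the moduli
  let b : Finset (Fin N) → Fin (N + 2) → K := fun I j =>
    if h : (j : ℕ) < N then (if (⟨j, h⟩ : Fin N) ∈ I then x' ⟨j, h⟩ else x ⟨j, h⟩) else x ⟨0, hN⟩
  have hb : ∀ (I : Finset (Fin N)) (j : Fin (N + 2)), b I j ∈ S ∧ b I j ≠ y ∧ b I j ≠ y0 := by
    intro I j
    simp only [b]
    split_ifs
    · exact ⟨hxS' _, hxy' _, hxy0' _⟩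
    · exact ⟨hxS _, hxy _, hxy0 _⟩
    · exact ⟨hxS _, hxy _, hxy0 _⟩
  have hmod : ∀ I : Finset (Fin N), |∑ a : Fin (N + 2) → {x : K // x ∉ S},
      Ψ (fun _ => ∑ j, (pt (a j).1 - pt (b I j))) (pt y - pt y0)| ≤
      2 ^ (N + 2) * cC3 N * δ * M * e ^ (N + 2) := fun I =>
    one_modulus N Ψ pt hrel M hM hbd S y y0 hyS hy0S (b I) (fun j => (hb I j).1)
      (fun j => (hb I j).2.1) (fun j => (hb I j).2.2) δ hδ.le (dl_le_one N) q1 q3 q4 q5
  -- polarisation
  set u : Fin N → V := fun i => pt (x i) - pt (x' i) with hu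
  set w : V := pt y - pt y0 with hw
  have hvI : ∀ (I : Finset (Fin N)) (a : Fin (N + 2) → {x : K // x ∉ S}),
      ∑ j, (pt (a j).1 - pt (b I j)) = ∑ j, (pt (a j).1 - pt (b ∅ j)) + ∑ j ∈ I, u j := by
    intro I a
    have h1 : ∑ j ∈ I, u j = ∑ j : Fin (N + 2), (if h : (j : ℕ) < N then
        (if (⟨j, h⟩ : Fin N) ∈ I then u ⟨j, h⟩ else 0) else 0) := by
      rw [Fin.sum_univ_castSucc, Fin.sum_univ_castSucc]
      simp only [Fin.val_last, Fin.val_castSucc, lt_irrefl, dite_false, add_zero,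
        show ¬ (N + 1 < N) by omega]
      have : ∀ i : Fin N, (if h : (i : ℕ) < N then
        (if (⟨i, h⟩ : Fin N) ∈ I then u ⟨i, h⟩ else 0) else 0) = if i ∈ I then u i else 0 := by
        intro i
        rw [dif_pos i.2]
      simp only [this]
      rw [Finset.sum_ite_mem, Finset.univ_inter]
    rw [h1, ← Finset.sum_add_distrib]
    refine Finset.sum_congr rfl fun j _ => ?_
    simp only [b, hu]
    by_cases h : (j : ℕ) < N
    · simp only [h, dite_true, Finset.notMem_empty, if_false]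
      by_cases hI : (⟨j, h⟩ : Fin N) ∈ I
      · simp only [hI, if_true]; abel
      · simp only [hI, if_false, add_zero]
    · simp only [h, dite_false, add_zero]
  have hpol : ∀ a : Fin (N + 2) → {x : K // x ∉ S},
      ∑ I : Finset (Fin N), (-1 : ℝ) ^ #I *
        Ψ (fun _ => ∑ j, (pt (a j).1 - pt (b I j))) w = (-1) ^ N * (N.factorial : ℝ) * Ψ u w := by
    intro a
    rw [← polar Ψ hsym (∑ j, (pt (a j).1 - pt (b ∅ j))) u w]
    refine Finset.sum_congr rfl fun I _ => ?_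
    rw [hvI I a]
  have hsum : e ^ (N + 2) * ((-1) ^ N * (N.factorial : ℝ) * Ψ u w) =
      ∑ I : Finset (Fin N), (-1 : ℝ) ^ #I * ∑ a : Fin (N + 2) → {x : K // x ∉ S},
        Ψ (fun _ => ∑ j, (pt (a j).1 - pt (b I j))) w := by
    simp only [Finset.mul_sum]
    rw [Finset.sum_comm]
    rw [Finset.sum_congr rfl fun a _ => hpol a, Finset.sum_const, Finset.card_univ,
      Fintype.card_fun, Fintype.card_fin, nsmul_eq_mul]
    push_cast
    rfl
  have hfin : e ^ (N + 2) * ((N.factorial : ℝ) * M) ≤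
      e ^ (N + 2) * (2 ^ N * (2 ^ (N + 2) * cC3 N * δ) * M) := by
    calc e ^ (N + 2) * ((N.factorial : ℝ) * M)
        = |e ^ (N + 2) * ((-1) ^ N * (N.factorial : ℝ) * Ψ u w)| := by
          have hab : |(-1 : ℝ) ^ N| = 1 := by rw [abs_pow, abs_neg, abs_one, one_pow]
          rw [abs_mul, abs_mul, abs_mul, hab, one_mul,
            abs_of_pos (show 0 < e ^ (N + 2) by positivity),
            abs_of_pos (show (0 : ℝ) < (N.factorial : ℝ) by positivity)]
      _ ≤ ∑ I : Finset (Fin N), |(-1 : ℝ) ^ #I * ∑ a : Fin (N + 2) → {x : K // x ∉ S},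
            Ψ (fun _ => ∑ j, (pt (a j).1 - pt (b I j))) w| := by
          rw [hsum]; exact Finset.abs_sum_le_sum_abs _ _
      _ ≤ ∑ _I : Finset (Fin N), 2 ^ (N + 2) * cC3 N * δ * M * e ^ (N + 2) := by
          refine Finset.sum_le_sum fun I _ => ?_
          rw [abs_mul, abs_pow, abs_neg, abs_one, one_pow, one_mul]
          exact hmod I
      _ = e ^ (N + 2) * (2 ^ N * (2 ^ (N + 2) * cC3 N * δ) * M) := by
          rw [Finset.sum_const, Finset.card_univ, Fintype.card_finset, Fintype.card_fin,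
            nsmul_eq_mul]
          push_cast; ring
  have h10 := le_of_mul_le_mul_left hfin (by positivity)
  have h11 : (1 : ℝ) ≤ (N.factorial : ℝ) := by
    exact_mod_cast Nat.one_le_iff_ne_zero.mpr (Nat.factorial_ne_zero _)
  have h12 := dl_spec N
  rw [← hδdef] at h12
  have h13 : M ≤ 0 := by nlinarith
  intro z z' t t' k1 k2 k3 k4
  exact (hbd z z' t t' k1 k2 k3 k4).trans h13

end H72Gon
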