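import Pool.Agent.Helper91.Gon.Defs

open Polynomial TensorProduct Pool.Agent.Helper91.Gon

set_option linter.unusedSectionVars false

namespace H72Rig

universe u v w

section lg

variable {F : Type u} [Field F]

lemma lg_zero : lg (0 : F) = 0 := by unfold lg; rw [dif_pos rfl]

lemma lg_of_ne {x : F} (h : x ≠ 0) : lg x = 1 ⊗ₜ[ℤ] Additive.ofMul (Units.mk0 x h) := by
  unfold lg; rw [dif_neg h]

lemma lg_mul {x y : F} (hx : x ≠ 0) (hy : y ≠ 0) : lg (x * y) = lg x + lg y := by
  rw [lg_of_ne hx, lg_of_ne hy, lg_of_ne (mul_ne_zero hx hy), ← TensorProduct.tmul_add,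
    ← ofMul_mul, Units.mk0_mul]

lemma lg_one : lg (1 : F) = 0 := by
  have := lg_mul (one_ne_zero : (1 : F) ≠ 0) one_ne_zero
  rw [mul_one] at this
  simpa using this

lemma lg_pow {x : F} (hx : x ≠ 0) (n : ℕ) : lg (x ^ n) = (n : ℚ) • lg x := by
  induction n with
  | zero => rw [pow_zero, lg_one, Nat.cast_zero, zero_smul]
  | succ n ih => rw [pow_succ, lg_mul (pow_ne_zero _ hx) hx, ih, Nat.cast_succ, add_smul, one_smul]

lemma lg_neg (x : F) : lg (-x) = lg x := by
  by_cases hx : x = 0
  · rw [hx, neg_zero]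
  have h1 : lg (-1 : F) = 0 := by
    have := lg_pow (x := (-1 : F)) (neg_ne_zero.mpr one_ne_zero) 2
    rw [neg_one_sq, lg_one] at this
    rcases smul_eq_zero.mp this.symm with h | h
    · norm_num at h
    · exact h
  rw [← neg_one_mul, lg_mul (neg_ne_zero.mpr one_ne_zero) hx, h1, zero_add]

lemma lg_inv (x : F) : lg (x⁻¹) = - lg x := by
  by_cases hx : x = 0
  · rw [hx, inv_zero, lg_zero, neg_zero]
  have := lg_mul hx (inv_ne_zero hx)
  rw [mul_inv_cancel₀ hx, lg_one] at this
  exact (neg_eq_of_add_eq_zero_right this.symm).symm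

lemma lg_torsion {x : F} {n : ℕ} (hn : 0 < n) (hx : x ^ n = 1) : lg x = 0 := by
  have hx0 : x ≠ 0 := by
    rintro rfl
    rw [zero_pow hn.ne'] at hx
    exact zero_ne_one hx
  have := lg_pow hx0 n
  rw [hx, lg_one] at this
  rcases smul_eq_zero.mp this.symm with h | h
  · exact absurd (Nat.cast_eq_zero.mp h) (by omega)
  · exact h

end lg

section Vm

variable {F : Type u} [Field F] {F' : Type v} [Field F']

/-- the map on `F^* ⊗ ℚ` induced by a multiplicative map -/
noncomputable def Vm (φ : F →*₀ F') : VF F →ₗ[ℚ] VF F' :=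
  LinearMap.baseChange ℚ (AddMonoidHom.toIntLinearMap
    (MonoidHom.toAdditive (Units.map (φ : F →* F'))))

lemma Vm_lg (φ : F →*₀ F') (x : F) : Vm φ (lg x) = lg (φ x) := by
  by_cases hx : x = 0
  · rw [hx, map_zero, lg_zero, lg_zero, map_zero]
  · have hφ : φ x ≠ 0 := (map_ne_zero φ).mpr hx
    rw [lg_of_ne hx, lg_of_ne hφ]
    unfold Vm
    rw [LinearMap.baseChange_tmul]
    congr 1
    have : Units.map (φ : F →* F') (Units.mk0 x hx) = Units.mk0 (φ x) hφ := by
      ext; rfl
    rw [← this]
    rfl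

/-- functoriality of `Λ²` -/
noncomputable def LamM {V V' : Type*} [AddCommGroup V] [Module ℚ V] [AddCommGroup V'] [Module ℚ V']
    (g : V →ₗ[ℚ] V') : Lam V 2 →ₗ[ℚ] Lam V' 2 :=
  liftL ((ww V').compl₁₂ g g) (fun v => by
    rw [LinearMap.compl₁₂_apply]; exact ww_self _)

lemma LamM_ww {V V' : Type*} [AddCommGroup V] [Module ℚ V] [AddCommGroup V'] [Module ℚ V']
    (g : V →ₗ[ℚ] V') (v u : V) : LamM g (ww V v u) = ww V' (g v) (g u) := by
  unfold LamM
  rw [liftL_ww, LinearMap.compl₁₂_apply]

end Vm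

section delta

variable {F : Type u} [Field F]

lemma delta2_inf : delta2 F (gen OnePoint.infty) = 0 := by
  unfold delta2 gen
  rw [Finsupp.lift_apply, Finsupp.sum_single_index (by rw [zero_smul]), one_smul]

open Classical in
lemma delta2_some (x : F) : delta2 F (gen (x : OnePoint F)) =
    if x = 0 ∨ x = 1 then 0 else ww (VF F) (lg (1 - x)) (lg x) := by
  unfold delta2 gen
  rw [Finsupp.lift_apply, Finsupp.sum_single_index (by rw [zero_smul]), one_smul]

lemma delta2_some' (x : F) : delta2 F (gen (x : OnePoint F)) =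
    ww (VF F) (lg (1 - x)) (lg x) := by
  classical
  rw [delta2_some]
  split_ifs with h
  · rcases h with rfl | rfl
    · rw [lg_zero, map_zero]
    · rw [lg_one, map_zero]
  · rfl

lemma deltaOf_inf (R' : Submodule ℚ (QP F)) : deltaOf R' (gen OnePoint.infty) = 0 := by
  unfold deltaOf gen
  rw [Finsupp.lift_apply, Finsupp.sum_single_index (by rw [zero_smul]), one_smul]

lemma deltaOf_some (R' : Submodule ℚ (QP F)) (x : F) : deltaOf R' (gen (x : OnePoint F)) =
    R'.mkQ (gen (x : OnePoint F)) ⊗ₜ[ℚ] lg x := by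
  classical
  have : deltaOf R' (gen (x : OnePoint F)) =
      if x = 0 ∨ x = 1 then 0 else R'.mkQ (gen (x : OnePoint F)) ⊗ₜ[ℚ] lg x := by
    unfold deltaOf gen
    rw [Finsupp.lift_apply, Finsupp.sum_single_index (by rw [zero_smul]), one_smul]
  rw [this]
  split_ifs with h
  · rcases h with rfl | rfl
    · rw [lg_zero, TensorProduct.tmul_zero]
    · rw [lg_one, TensorProduct.tmul_zero]
  · rfl

lemma gen_zero_mem (n : ℕ) : gen ((0 : F) : OnePoint F) ∈ R (n + 2) F := by
  rw [R_add_two]
  exact Submodule.subset_span (Or.inl (Or.inl rfl))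

lemma gen_inf_mem (n : ℕ) : gen OnePoint.infty ∈ R (n + 2) F := by
  rw [R_add_two]
  exact Submodule.subset_span (Or.inl (Or.inr rfl))

lemma QP_ext {M : Type*} [AddCommGroup M] [Module ℚ M] {f g : QP F →ₗ[ℚ] M}
    (hinf : f (gen OnePoint.infty) = g (gen OnePoint.infty))
    (h : ∀ x : F, f (gen (x : OnePoint F)) = g (gen (x : OnePoint F))) : f = g := by
  apply Finsupp.lhom_ext'
  intro x
  apply LinearMap.ext_ring
  rcases x with _ | x
  · exact hinf
  · exact h x

lemma A_three (n : ℕ) : A (n + 3) F = LinearMap.ker (deltaOf (R (n + 2) F)) := rfl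

end delta

/-- a place from `F` to `F'` with a compatible linear map -/
structure Place (F : Type u) [Field F] (F' : Type v) [Field F'] where
  /-- the map on points -/
  σ : OnePoint F → OnePoint F'
  /-- the map on units tensor `ℚ` -/
  g : VF F →ₗ[ℚ] VF F'
  hinf : σ OnePoint.infty = OnePoint.infty
  /-- value for finite points -/
  hfin : ∀ (x : F) (y : F'), σ (x : OnePoint F) = (y : OnePoint F') → y ≠ 0 → g (lg x) = lg y
  h2 : ∀ x : F, ww (VF F') (g (lg (1 - x))) (g (lg x)) = delta2 F' (gen (σ (x : OnePoint F)))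

section place

variable {F : Type u} [Field F] {F' : Type v} [Field F']

/-- map on `ℚ[P^1]` -/
noncomputable def Place.Q (P : Place F F') : QP F →ₗ[ℚ] QP F' := Finsupp.lmapDomain ℚ ℚ P.σ

lemma Place.Q_gen (P : Place F F') (x : OnePoint F) : P.Q (gen x) = gen (P.σ x) := by
  unfold Place.Q gen
  rw [Finsupp.lmapDomain_apply, Finsupp.mapDomain_single]

lemma Place.delta2_comp (P : Place F F') : delta2 F' ∘ₗ P.Q = LamM P.g ∘ₗ delta2 F := by
  apply QP_ext
  · rw [LinearMap.comp_apply, LinearMap.comp_apply, P.Q_gen, P.hinf, delta2_inf, delta2_inf,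
      map_zero]
  · intro x
    rw [LinearMap.comp_apply, LinearMap.comp_apply, P.Q_gen, delta2_some' x, LamM_ww, P.h2]

lemma Place.map_A2 (P : Place F F') {α : QP F} (h : α ∈ A 2 F) : P.Q α ∈ A 2 F' := by
  have h1 : delta2 F α = 0 := h
  show delta2 F' (P.Q α) = 0
  have := LinearMap.congr_fun P.delta2_comp α
  rw [LinearMap.comp_apply, LinearMap.comp_apply, h1, map_zero] at this
  exact this

lemma Place.map_A3 (P : Place F F') (n : ℕ) (hR : ∀ α ∈ R (n + 2) F, P.Q α ∈ R (n + 2) F')
    {α : QP F} (h : α ∈ A (n + 3) F) : P.Q α ∈ A (n + 3) F' := by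
  have h1 : deltaOf (R (n + 2) F) α = 0 := h
  show deltaOf (R (n + 2) F') (P.Q α) = 0
  let q : B (n + 2) F →ₗ[ℚ] B (n + 2) F' := Submodule.mapQ _ _ P.Q (fun α hα => hR α hα)
  have hq : ∀ x : OnePoint F, q ((R (n + 2) F).mkQ (gen x)) = (R (n + 2) F').mkQ (gen (P.σ x)) := by
    intro x
    show Submodule.mapQ _ _ P.Q _ ((R (n + 2) F).mkQ (gen x)) = _
    rw [Submodule.mkQ_apply, Submodule.mapQ_apply, P.Q_gen]
    rfl
  have key : deltaOf (R (n + 2) F') ∘ₗ P.Q =
      TensorProduct.map q P.g ∘ₗ deltaOf (R (n + 2) F) := by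
    apply QP_ext
    · rw [LinearMap.comp_apply, LinearMap.comp_apply, P.Q_gen, P.hinf, deltaOf_inf, deltaOf_inf,
        map_zero]
    · intro x
      rw [LinearMap.comp_apply, LinearMap.comp_apply, P.Q_gen, deltaOf_some, TensorProduct.map_tmul,
        hq]
      rcases hx : P.σ (x : OnePoint F) with _ | y
      · have h3 : (R (n + 2) F').mkQ (gen (none : OnePoint F')) = 0 := by
          rw [Submodule.mkQ_apply, Submodule.Quotient.mk_eq_zero]
          exact gen_inf_mem n
        rw [h3, TensorProduct.zero_tmul]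
        exact deltaOf_inf _
      · by_cases hy : y = 0
        · subst hy
          have h3 : (R (n + 2) F').mkQ (gen (some (0 : F') : OnePoint F')) = 0 := by
            rw [Submodule.mkQ_apply, Submodule.Quotient.mk_eq_zero]
            exact gen_zero_mem n
          rw [h3, TensorProduct.zero_tmul]
          have := deltaOf_some (R (n + 2) F') (0 : F')
          rw [lg_zero, TensorProduct.tmul_zero] at this
          exact this
        · rw [P.hfin x y hx hy]
          exact deltaOf_some _ y
  have := LinearMap.congr_fun key α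
  rw [LinearMap.comp_apply, LinearMap.comp_apply, h1, map_zero] at this
  exact this

end place

/-- the place of a field homomorphism -/
noncomputable def homPlace {F : Type u} [Field F] {F' : Type v} [Field F'] (φ : F →+* F') :
    Place F F' where
  σ := OnePoint.map φ
  g := Vm φ.toMonoidWithZeroHom
  hinf := rfl
  hfin := fun x y h _ => by
    rw [Vm_lg]
    have : ((φ x : F') : OnePoint F') = (y : OnePoint F') := h
    rw [OnePoint.coe_eq_coe] at this
    rw [← this]
    rfl
  h2 := fun x => by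
    rw [Vm_lg, Vm_lg]
    have : OnePoint.map φ (x : OnePoint F) = ((φ x : F') : OnePoint F') := rfl
    rw [this, delta2_some']
    have e : φ.toMonoidWithZeroHom (1 - x) = 1 - φ x := by
      show φ (1 - x) = 1 - φ x
      rw [map_sub, map_one]
    rw [e]
    rfl

end H72Rig
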