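import Pool.Agent.Helper72.Gon.Gap
import Pool.Agent.Helper72.Gon.AME

open Finset BigOperators Polynomial

set_option linter.unusedSectionVars false

namespace H72Gon

variable {K : Type*} [Field K] [Fintype K] [DecidableEq K]

/-- monic polynomial with a multiset of roots -/
noncomputable def PM (m : Multiset K) : K[X] := (m.map (fun x => X - C x)).prod

omit [Fintype K] [DecidableEq K] in
lemma PM_monic (m : Multiset K) : (PM m).Monic := monic_multiset_prod_of_monic _ _ fun _ _ =>
  monic_X_sub_C _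

omit [Fintype K] [DecidableEq K] in
lemma PM_natDegree (m : Multiset K) : (PM m).natDegree = m.card := by
  unfold PM
  exact natDegree_multiset_prod_X_sub_C_eq_card _

omit [Fintype K] [DecidableEq K] in
lemma PM_roots (m : Multiset K) : (PM m).roots = m := by
  unfold PM
  exact roots_multiset_prod_X_sub_C _

omit [Fintype K] [DecidableEq K] in
lemma PM_inj {m m' : Multiset K} (h : PM m = PM m') : m = m' := by
  rw [← PM_roots m, ← PM_roots m', h]

omit [Fintype K] [DecidableEq K] in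
lemma PM_eval {m : Multiset K} {x : K} (hx : x ∈ m) : (PM m).eval x = 0 := by
  have : x ∈ (PM m).roots := by rw [PM_roots]; exact hx
  exact (mem_roots'.mp this).2

omit [Fintype K] [DecidableEq K] in
lemma Bp_eq_PM {ι : Type*} [Fintype ι] (b : ι → K) : Bp b = PM (Finset.univ.val.map b) := by
  unfold Bp PM
  rw [Multiset.map_map]; rfl

omit [Fintype K] [DecidableEq K] in
lemma Bp_eval_ne {ι : Type*} [Fintype ι] (b : ι → K) {x : K} (hx : ∀ i, x ≠ b i) :
    (Bp b).eval x ≠ 0 := by
  unfold Bp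
  rw [eval_prod]
  refine Finset.prod_ne_zero_iff.mpr fun i _ => ?_
  simpa [sub_eq_zero] using hx i

section quot

variable {d : ℕ} (b : Fin d → K)

abbrev RR := AdjoinRoot (Bp b)

/-- scalars -/
noncomputable def scal : Subgroup (AdjoinRoot (Bp b))ˣ :=
  (Units.map (AdjoinRoot.of (Bp b)).toMonoidHom).range

/-- the group -/
abbrev GG := Additive ((AdjoinRoot (Bp b))ˣ ⧸ scal b)

lemma isUnit_mk {x : K} (hx : ∀ i, x ≠ b i) : IsUnit (AdjoinRoot.mk (Bp b) (X - C x)) := by
  have h1 : IsCoprime (X - C x) (Bp b) := by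
    have := Bp_coprime (fun _ : Fin 1 => x) b (fun _ j => hx j)
    simpa [Bp] using this
  obtain ⟨u, v, huv⟩ := h1
  have h2 : AdjoinRoot.mk (Bp b) u * AdjoinRoot.mk (Bp b) (X - C x) = 1 := by
    rw [← map_mul, ← map_one (AdjoinRoot.mk (Bp b)), ← huv, map_add, map_mul, map_mul (f := AdjoinRoot.mk (Bp b)) v,
      AdjoinRoot.mk_self, mul_zero, add_zero]
  exact IsUnit.of_mul_eq_one_right _ h2

/-- class of `X - x` -/
noncomputable def tht (x : K) : GG b := by
  classical
  exact if h : IsUnit (AdjoinRoot.mk (Bp b) (X - C x)) then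
    Additive.ofMul (QuotientGroup.mk h.unit) else 0

/-- the unit attached to a multiset -/
lemma tht_sum (m : Multiset K) (hm : ∀ x ∈ m, ∀ i, x ≠ b i) :
    ∃ u : (AdjoinRoot (Bp b))ˣ, (u : AdjoinRoot (Bp b)) = AdjoinRoot.mk (Bp b) (PM m) ∧
      (m.map (tht b)).sum = Additive.ofMul (QuotientGroup.mk u) := by
  classical
  induction m using Multiset.induction_on with
  | empty =>
    refine ⟨1, ?_, ?_⟩
    · simp [PM]
    · simp
  | cons x m ih =>
    obtain ⟨u, hu1, hu2⟩ := ih fun y hy => hm y (Multiset.mem_cons_of_mem hy)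
    have hx := isUnit_mk b (hm x (Multiset.mem_cons_self _ _))
    refine ⟨hx.unit * u, ?_, ?_⟩
    · simp only [PM, Multiset.map_cons, Multiset.prod_cons, map_mul, Units.val_mul,
        IsUnit.unit_spec] at hu1 ⊢
      rw [hu1]
    · rw [Multiset.map_cons, Multiset.sum_cons, hu2, tht, dif_pos hx]
      rfl

lemma tht_eq (m m' : Multiset K) (hm : ∀ x ∈ m, ∀ i, x ≠ b i) (hm' : ∀ x ∈ m', ∀ i, x ≠ b i)
    (h : (m.map (tht b)).sum = (m'.map (tht b)).sum) :
    ∃ c : K, c ≠ 0 ∧ Bp b ∣ PM m - C c * PM m' := by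
  obtain ⟨u, hu1, hu2⟩ := tht_sum b m hm
  obtain ⟨v, hv1, hv2⟩ := tht_sum b m' hm'
  rw [hu2, hv2] at h
  have h1 : (QuotientGroup.mk v : (AdjoinRoot (Bp b))ˣ ⧸ scal b) = QuotientGroup.mk u :=
    (Additive.ofMul.injective h).symm
  rw [QuotientGroup.eq] at h1
  obtain ⟨c, hc⟩ := h1
  refine ⟨(c : K), c.ne_zero, ?_⟩
  rw [← AdjoinRoot.mk_eq_mk, ← hu1, map_mul, ← hv1]
  have h2 : u = v * Units.map (AdjoinRoot.of (Bp b)).toMonoidHom c := by
    rw [hc]; group
  rw [h2]
  simp [mul_comm]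

/-- Sidon property in polynomial form -/
lemma tht_sidon (m m' : Multiset K) (hm : ∀ x ∈ m, ∀ i, x ≠ b i) (hm' : ∀ x ∈ m', ∀ i, x ≠ b i)
    (hc : m.card = m'.card) (hd : m.card < d)
    (h : (m.map (tht b)).sum = (m'.map (tht b)).sum) : m = m' := by
  obtain ⟨c, hc0, hdvd⟩ := tht_eq b m m' hm hm' h
  have hdeg : (PM m - C c * PM m').natDegree < d := by
    refine (natDegree_sub_le _ _).trans_lt ?_
    rw [max_lt_iff, PM_natDegree]
    refine ⟨hd, (natDegree_C_mul_le _ _).trans_lt ?_⟩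
    rw [PM_natDegree, ← hc]; exact hd
  have h0 : PM m - C c * PM m' = 0 := by
    by_contra hne
    have := natDegree_le_of_dvd hdvd hne
    rw [Bp_natDegree, Fintype.card_fin] at this
    omega
  have h1 : PM m = C c * PM m' := sub_eq_zero.mp h0
  have h2 : c = 1 := by
    have := congrArg leadingCoeff h1
    rw [leadingCoeff_mul, leadingCoeff_C, (PM_monic m).leadingCoeff, (PM_monic m').leadingCoeff,
      mul_one] at this
    exact this.symm
  rw [h2, C_1, one_mul] at h1
  exact PM_inj h1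

/-- the basic relation -/
lemma tht_rel (m m' : Multiset K) (hm : ∀ x ∈ m, ∀ i, x ≠ b i) (hm' : ∀ x ∈ m', ∀ i, x ≠ b i)
    (hc : m.card = d) (hc' : m'.card = d) (hne : m ≠ m')
    (h : (m.map (tht b)).sum = (m'.map (tht b)).sum) :
    (∀ x ∈ m, x ∉ m') ∧ ∃ c : K, c ≠ 0 ∧ c ≠ 1 ∧ PM m - C c * PM m' = C (1 - c) * Bp b := by
  obtain ⟨c, hc0, hdvd⟩ := tht_eq b m m' hm hm' h
  have hmon := PM_monic m
  have hmon' := PM_monic m'
  have hBm := Bp_monic b
  -- difference with `(1-c) B`
  have h1 : PM m - C c * PM m' - C (1 - c) * Bp b = 0 := by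
    set D := PM m - C c * PM m' - C (1 - c) * Bp b with hD
    have hdvdD : Bp b ∣ D := dvd_sub hdvd (dvd_mul_left _ _)
    by_contra hne0
    have hle := natDegree_le_of_dvd hdvdD hne0
    rw [Bp_natDegree, Fintype.card_fin] at hle
    have hle2 : D.natDegree ≤ d := by
      rw [hD]
      refine (natDegree_sub_le _ _).trans (max_le ((natDegree_sub_le _ _).trans
        (max_le ?_ ?_)) ?_)
      · rw [PM_natDegree, hc]
      · exact (natDegree_C_mul_le _ _).trans (by rw [PM_natDegree, hc'])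
      · exact (natDegree_C_mul_le _ _).trans (by rw [Bp_natDegree, Fintype.card_fin])
    have heq : D.natDegree = d := le_antisymm hle2 hle
    have hcoef : D.coeff d = 0 := by
      rw [hD, coeff_sub, coeff_sub, coeff_C_mul, coeff_C_mul]
      have e1 : (PM m).coeff d = 1 := by
        have := hmon.coeff_natDegree; rwa [PM_natDegree, hc] at this
      have e2 : (PM m').coeff d = 1 := by
        have := hmon'.coeff_natDegree; rwa [PM_natDegree, hc'] at this
      have e3 : (Bp b).coeff d = 1 := by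
        have := hBm.coeff_natDegree; rwa [Bp_natDegree, Fintype.card_fin] at this
      rw [e1, e2, e3]; ring
    rw [← heq] at hcoef
    exact hne0 (leadingCoeff_eq_zero.mp hcoef)
  have h2 : PM m - C c * PM m' = C (1 - c) * Bp b := sub_eq_zero.mp h1
  have hc1 : c ≠ 1 := by
    rintro rfl
    rw [sub_self, C_0, zero_mul, C_1, one_mul] at h2
    exact hne (PM_inj (sub_eq_zero.mp h2))
  refine ⟨?_, c, hc0, hc1, h2⟩
  intro x hx hx'
  have h3 := congrArg (eval x) h2
  rw [eval_sub, eval_mul, eval_mul, eval_C, eval_C, PM_eval hx, PM_eval hx', mul_zero,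
    sub_zero] at h3
  have h4 := Bp_eval_ne b (hm x hx)
  rcases mul_eq_zero.mp h3.symm with h5 | h5
  · exact hc1 (sub_eq_zero.mp h5).symm
  · exact h4 h5

noncomputable instance : Fintype (GG b) := by
  classical
  have : Finite ((AdjoinRoot (Bp b))ˣ ⧸ scal b) := inferInstance
  exact Fintype.ofFinite _

lemma card_GG (hd : 0 < d) :
    (Fintype.card (GG b) : ℝ) * ((Fintype.card K : ℝ) - 1) ≤ (Fintype.card K : ℝ) ^ d := by
  classical
  have h1 := Subgroup.card_eq_card_quotient_mul_card_subgroup (scal b)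
  have h2 : Nat.card (AdjoinRoot (Bp b))ˣ ≤ Fintype.card K ^ d := by
    rw [← card_R b, ← Nat.card_eq_fintype_card (α := AdjoinRoot (Bp b))]
    exact Nat.card_le_card_of_injective _ Units.val_injective
  have h3 : Nat.card (scal b) = Fintype.card K - 1 := by
    have hinj : Function.Injective (AdjoinRoot.of (Bp b)) := by
      refine AdjoinRoot.of.injective_of_degree_ne_zero ?_
      rw [degree_eq_natDegree (Bp_ne_zero b), Bp_natDegree, Fintype.card_fin]
      exact_mod_cast hd.ne'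
    have hinj2 : Function.Injective (Units.map (AdjoinRoot.of (Bp b)).toMonoidHom) :=
      Units.map_injective hinj
    have : Nat.card (scal b) = Nat.card Kˣ :=
      (Nat.card_congr (MonoidHom.ofInjective hinj2).toEquiv).symm
    rw [this, Nat.card_eq_fintype_card, Fintype.card_units]
  have h4 : Fintype.card (GG b) = Nat.card ((AdjoinRoot (Bp b))ˣ ⧸ scal b) := by
    rw [← Nat.card_eq_fintype_card]
    rfl
  have hK : 1 ≤ Fintype.card K := Fintype.card_pos
  have h5 : Fintype.card (GG b) * (Fintype.card K - 1) ≤ Fintype.card K ^ d := by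
    rw [h4, ← h3, ← h1]; exact h2
  have h6 : ((Fintype.card (GG b) * (Fintype.card K - 1) : ℕ) : ℝ) ≤
      ((Fintype.card K ^ d : ℕ) : ℝ) := by exact_mod_cast h5
  push_cast [Nat.cast_sub hK] at h6
  exact h6

/-- multiplicative character from an additive character of the quotient -/
noncomputable def toMul (ψ : AddChar (GG b) ℂ) : MulChar (AdjoinRoot (Bp b)) ℂ :=
  MulChar.ofUnitHom (MonoidHom.toHomUnits
    { toFun := fun u => ψ (Additive.ofMul (QuotientGroup.mk u))
      map_one' := by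
        have : (Additive.ofMul (QuotientGroup.mk (1 : (AdjoinRoot (Bp b))ˣ)) : GG b) = 0 := rfl
        rw [this, AddChar.map_zero_eq_one]
      map_mul' := fun u v => by
        have : (Additive.ofMul (QuotientGroup.mk (u * v)) : GG b) =
          Additive.ofMul (QuotientGroup.mk u) + Additive.ofMul (QuotientGroup.mk v) := rfl
        rw [this, AddChar.map_add_eq_mul] })

lemma toMul_apply (ψ : AddChar (GG b) ℂ) (u : (AdjoinRoot (Bp b))ˣ) :
    toMul b ψ (u : AdjoinRoot (Bp b)) = ψ (Additive.ofMul (QuotientGroup.mk u)) := by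
  unfold toMul
  rw [MulChar.ofUnitHom_coe]
  rfl

lemma toMul_ne_one (ψ : AddChar (GG b) ℂ) (hψ : ψ ≠ 0) : toMul b ψ ≠ 1 := by
  obtain ⟨g, hg⟩ := AddChar.ne_zero_iff.mp hψ
  obtain ⟨u, hu⟩ := QuotientGroup.mk_surjective (Additive.toMul g)
  intro h
  apply hg
  have h1 := toMul_apply b ψ u
  rw [h, MulChar.one_apply_coe] at h1
  rw [h1]
  congr 1
  rw [hu]; rfl

lemma toMul_tht (ψ : AddChar (GG b) ℂ) {x : K} (hx : ∀ i, x ≠ b i) :
    toMul b ψ (AdjoinRoot.mk (Bp b) (X - C x)) = ψ (tht b x) := by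
  classical
  have hu := isUnit_mk b hx
  have h1 := toMul_apply b ψ hu.unit
  rw [IsUnit.unit_spec] at h1
  rw [h1, tht, dif_pos hu]

/-- spectral gap for a subset -/
lemma gapE (S : Finset K) (hS : ∀ i, b i ∈ S) (δ : ℝ) (hδ : 0 ≤ δ) (hd : 0 < d)
    (hQ : ((2 * d).factorial : ℝ) * d ^ 2 ≤ δ ^ (4 * d) * (Fintype.card K : ℝ))
    (ψ : AddChar (GG b) ℂ) (hψ : ψ ≠ 0) :
    ‖chs (fun x : {x : K // x ∉ S} => tht b x.1) ψ‖ ≤ δ * (Fintype.card K : ℝ) + #S := by
  classical
  set Q := (Fintype.card K : ℝ) with hQd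
  have hQ0 : 0 < Q := by rw [hQd]; exact_mod_cast Fintype.card_pos
  have h1 := gap b (toMul b ψ) (toMul_ne_one b ψ hψ)
  set St := ∑ x : K, toMul b ψ (AdjoinRoot.mk (Bp b) (X - C x)) with hSt
  have h2 : ‖St‖ ≤ δ * Q := by
    have h3 : ‖St‖ ^ (4 * d) ≤ (δ * Q) ^ (4 * d) := by
      calc ‖St‖ ^ (4 * d) ≤ ((2 * d).factorial : ℝ) * d ^ 2 * Q ^ (4 * d - 1) := h1
        _ ≤ δ ^ (4 * d) * Q * Q ^ (4 * d - 1) :=
            mul_le_mul_of_nonneg_right hQ (by positivity)
        _ = (δ * Q) ^ (4 * d) := by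
            rw [mul_pow, mul_assoc, ← pow_succ']
            congr 2
            omega
    exact le_of_pow_le_pow_left₀ (by omega) (by positivity) h3
  have h4 : chs (fun x : {x : K // x ∉ S} => tht b x.1) ψ =
      St - ∑ x ∈ S, toMul b ψ (AdjoinRoot.mk (Bp b) (X - C x)) := by
    rw [hSt, ← Finset.sum_compl_add_sum S, add_sub_cancel_right]
    unfold chs
    rw [← Finset.sum_subtype (Sᶜ) (fun x => by simp) (fun x => ψ (tht b x))]
    refine Finset.sum_congr rfl fun x hx => ?_
    rw [Finset.mem_compl] at hx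
    rw [toMul_tht b ψ (fun i h => hx (by rw [h]; exact hS i))]
  rw [h4]
  refine (norm_sub_le _ _).trans (add_le_add h2 ?_)
  refine (norm_sum_le _ _).trans ?_
  calc ∑ x ∈ S, ‖toMul b ψ (AdjoinRoot.mk (Bp b) (X - C x))‖ ≤ ∑ _x ∈ S, (1 : ℝ) :=
        Finset.sum_le_sum fun x _ => norm_mulChar_le _ _
    _ = #S := by simp

end quot

end H72Gon
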