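import Pool.Agent.Helper72.Gon.Spec

open Polynomial TensorProduct Pool.Agent.Helper91.Gon

set_option linter.unusedSectionVars false

namespace H72Rig

universe u v w

section ext

variable {F : Type u} [Field F] {F' : Type v} [Field F']

/-- extension of an injective ring homomorphism of polynomial rings to rational functions -/
noncomputable def extHom (Φ : F[X] →+* F'[X]) (hΦ : Function.Injective Φ) :
    RatFunc F →+* RatFunc F' :=
  RatFunc.mapRingHom Φ (fun P hP => by
    rw [Submonoid.mem_comap, mem_nonZeroDivisors_iff_ne_zero]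
    exact (map_ne_zero_iff Φ hΦ).mpr (mem_nonZeroDivisors_iff_ne_zero.mp hP))

lemma extHom_div (Φ : F[X] →+* F'[X]) (hΦ : Function.Injective Φ) (P Q : F[X]) :
    extHom Φ hΦ (algebraMap F[X] (RatFunc F) P / algebraMap F[X] (RatFunc F) Q) =
      algebraMap F'[X] (RatFunc F') (Φ P) / algebraMap F'[X] (RatFunc F') (Φ Q) := by
  unfold extHom
  rw [RatFunc.coe_mapRingHom_eq_coe_map]
  exact RatFunc.map_apply_div _ _ _ _

open Classical in
lemma spec_ext (Φ : F[X] →+* F'[X]) (hΦ : Function.Injective Φ) (c' : F') (f : RatFunc F) :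
    spec c' ((extHom Φ hΦ f : RatFunc F') : OnePoint (RatFunc F')) =
      if (Φ f.denom).eval c' = 0 then OnePoint.infty else
        (((Φ f.num).eval c' / (Φ f.denom).eval c' : F') : OnePoint F') := by
  have h1 := extHom_div Φ hΦ f.num f.denom
  rw [RatFunc.num_div_denom] at h1
  rw [h1]
  apply spec_div
  · exact (map_ne_zero_iff Φ hΦ).mpr (RatFunc.denom_ne_zero f)
  · have hcop := (RatFunc.isCoprime_num_denom f).map Φ
    by_contra hcon
    push Not at hcon
    obtain ⟨ha, hb⟩ := hcon
    obtain ⟨a, b, hab⟩ := hcop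
    have := congrArg (Polynomial.eval c') hab
    rw [eval_add, eval_mul, eval_mul, ha, hb, mul_zero, mul_zero, add_zero, eval_one] at this
    exact zero_ne_one this

lemma mapRingHom_inj (φ : F →+* F') : Function.Injective (Polynomial.mapRingHom φ) := by
  intro P Q h
  exact Polynomial.map_injective φ φ.injective h

/-- coefficientwise extension of a field homomorphism -/
noncomputable def ratMap (φ : F →+* F') : RatFunc F →+* RatFunc F' :=
  extHom (Polynomial.mapRingHom φ) (mapRingHom_inj φ)

lemma spec_ratMap (φ : F →+* F') (c : F) (f : OnePoint (RatFunc F)) :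
    spec (φ c) (OnePoint.map (ratMap φ) f) = OnePoint.map φ (spec c f) := by
  classical
  rcases f with _ | f
  · rfl
  · show spec (φ c) ((ratMap φ f : RatFunc F') : OnePoint (RatFunc F')) =
      OnePoint.map φ (spec c (f : OnePoint (RatFunc F)))
    unfold ratMap
    rw [spec_ext, spec_coe, coe_mapRingHom, eval_map, eval_map, eval₂_at_apply, eval₂_at_apply]
    by_cases h : f.denom.eval c = 0
    · rw [if_pos h, h, map_zero, if_pos rfl]; rfl
    · rw [if_neg h, if_neg ((_root_.map_ne_zero φ).mpr h), ← map_div₀]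
      rfl

lemma QP_comp_ext {M : Type*} [AddCommGroup M] [Module ℚ M] {f g : QP F →ₗ[ℚ] M}
    (h : ∀ x : OnePoint F, f (gen x) = g (gen x)) (α : QP F) : f α = g α := by
  have : f = g := QP_ext (h _) (fun x => h _)
  rw [this]

lemma specQ_gen (c : F) (x : OnePoint (RatFunc F)) : specQ c (gen x) = gen (spec c x) := by
  rw [← specPlace_Q]; exact (specPlace c).Q_gen x

lemma homQ_gen (φ : F →+* F') (x : OnePoint F) :
    (homPlace φ).Q (gen x) = gen (OnePoint.map φ x) := (homPlace φ).Q_gen x

lemma specQ_ratMap (φ : F →+* F') (c : F) (α : QP (RatFunc F)) :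
    specQ (φ c) ((homPlace (ratMap φ)).Q α) = (homPlace φ).Q (specQ c α) := by
  refine QP_comp_ext (f := specQ (φ c) ∘ₗ (homPlace (ratMap φ)).Q)
    (g := (homPlace φ).Q ∘ₗ specQ c) (fun x => ?_) α
  rw [LinearMap.comp_apply, LinearMap.comp_apply, homQ_gen, specQ_gen, specQ_gen, homQ_gen,
    spec_ratMap]

end ext

section functor

/-- functoriality of `R` in all weights `≥ 2` -/
theorem R_map (n : ℕ) : ∀ {F F' : Type u} [Field F] [Field F'] (φ : F →+* F') {α : QP F},
    α ∈ R (n + 2) F → (homPlace φ).Q α ∈ R (n + 2) F' := by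
  have step : ∀ n : ℕ, (∀ {F F' : Type u} [Field F] [Field F'] (φ : F →+* F') {α : QP F},
      α ∈ A (n + 2) F → (homPlace φ).Q α ∈ A (n + 2) F') →
      ∀ {F F' : Type u} [Field F] [Field F'] (φ : F →+* F') {α : QP F},
      α ∈ R (n + 2) F → (homPlace φ).Q α ∈ R (n + 2) F' := by
    intro n hA F F' _ _ φ α hα
    rw [R_add_two] at hα
    unfold relOf at hα
    induction hα using Submodule.span_induction with
    | mem x hx =>
      rcases hx with (rfl | rfl) | ⟨β, hβ, rfl⟩
      · rw [homQ_gen]
        have : OnePoint.map φ ((0 : F) : OnePoint F) = ((0 : F') : OnePoint F') := by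
          show ((φ 0 : F') : OnePoint F') = _
          rw [map_zero]
        rw [this]; exact gen_zero_mem n
      · rw [homQ_gen]; exact gen_inf_mem n
      · rw [map_sub, ← specQ_ratMap, ← specQ_ratMap, map_zero, map_one, R_add_two]
        exact Submodule.subset_span (Or.inr ⟨_, hA (ratMap φ) hβ, rfl⟩)
    | zero => rw [map_zero]; exact Submodule.zero_mem _
    | add x y _ _ hx hy => rw [map_add]; exact Submodule.add_mem _ hx hy
    | smul a x _ hx => rw [map_smul]; exact Submodule.smul_mem _ _ hx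
  induction n with
  | zero => exact step 0 (fun {F F'} _ _ φ {α} hα => (homPlace φ).map_A2 hα)
  | succ n ih =>
    exact step (n + 1) (fun {F F'} _ _ φ {α} hα =>
      (homPlace φ).map_A3 n (fun β hβ => ih φ hβ) hα)

/-- functoriality of `A` in all weights `≥ 2` -/
theorem A_map (n : ℕ) {F F' : Type u} [Field F] [Field F'] (φ : F →+* F') {α : QP F}
    (hα : α ∈ A (n + 2) F) : (homPlace φ).Q α ∈ A (n + 2) F' := by
  cases n with
  | zero => exact (homPlace φ).map_A2 hα
  | succ n => exact (homPlace φ).map_A3 n (fun β hβ => R_map n φ hβ) hα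

end functor

section frob

lemma lg_pow' {F : Type u} [Field F] (x : F) {n : ℕ} (hn : 0 < n) : lg (x ^ n) = (n : ℚ) • lg x := by
  by_cases hx : x = 0
  · rw [hx, zero_pow hn.ne', lg_zero, smul_zero]
  · exact lg_pow hx n

/-- `{y^q} = q^n {y}` in weight `n`, `q` a power of the characteristic -/
theorem frob (p : ℕ) [Fact p.Prime] (j n : ℕ) : ∀ (F : Type u) [Field F] [CharP F p] (y : F),
    gen ((y ^ p ^ j : F) : OnePoint F) - ((p ^ j : ℕ) : ℚ) ^ (n + 2) • gen (y : OnePoint F) ∈
      R (n + 2) F := by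
  have hq : 0 < p ^ j := pow_pos (Fact.out : p.Prime).pos j
  have step : ∀ n : ℕ, (∀ (F : Type u) [Field F] [CharP F p] (y : F),
      gen ((y ^ p ^ j : F) : OnePoint F) - ((p ^ j : ℕ) : ℚ) ^ (n + 2) • gen (y : OnePoint F) ∈
        A (n + 2) F) → ∀ (F : Type u) [Field F] [CharP F p] (y : F),
      gen ((y ^ p ^ j : F) : OnePoint F) - ((p ^ j : ℕ) : ℚ) ^ (n + 2) • gen (y : OnePoint F) ∈
        R (n + 2) F := by
    intro n hA F _ _ y
    have : CharP (RatFunc F) p := charP_of_injective_algebraMap (algebraMap F (RatFunc F)).injective p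
    let z : RatFunc F := algebraMap F[X] (RatFunc F) (C y * X)
    have hz := hA (RatFunc F) z
    have hz' : z ^ p ^ j = algebraMap F[X] (RatFunc F) ((C y * X) ^ p ^ j) := by
      rw [map_pow]
    have h1 : specQ 0 (gen ((z ^ p ^ j : RatFunc F) : OnePoint (RatFunc F)) -
        ((p ^ j : ℕ) : ℚ) ^ (n + 2) • gen (z : OnePoint (RatFunc F))) =
        gen ((0 : F) : OnePoint F) - ((p ^ j : ℕ) : ℚ) ^ (n + 2) • gen ((0 : F) : OnePoint F) := by
      rw [map_sub, map_smul, specQ_gen, specQ_gen, hz', spec_poly, spec_poly, eval_pow, eval_mul,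
        eval_C, eval_X, mul_zero, zero_pow hq.ne']
    have h2 : specQ 1 (gen ((z ^ p ^ j : RatFunc F) : OnePoint (RatFunc F)) -
        ((p ^ j : ℕ) : ℚ) ^ (n + 2) • gen (z : OnePoint (RatFunc F))) =
        gen ((y ^ p ^ j : F) : OnePoint F) - ((p ^ j : ℕ) : ℚ) ^ (n + 2) •
          gen (y : OnePoint F) := by
      rw [map_sub, map_smul, specQ_gen, specQ_gen, hz', spec_poly, spec_poly, eval_pow, eval_mul,
        eval_C, eval_X, mul_one]
    have h3 : specQ 0 (gen ((z ^ p ^ j : RatFunc F) : OnePoint (RatFunc F)) -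
        ((p ^ j : ℕ) : ℚ) ^ (n + 2) • gen (z : OnePoint (RatFunc F))) -
        specQ 1 (gen ((z ^ p ^ j : RatFunc F) : OnePoint (RatFunc F)) -
        ((p ^ j : ℕ) : ℚ) ^ (n + 2) • gen (z : OnePoint (RatFunc F))) ∈ R (n + 2) F := by
      rw [R_add_two]
      exact Submodule.subset_span (Or.inr ⟨_, hz, rfl⟩)
    rw [h1, h2] at h3
    have h4 : gen ((0 : F) : OnePoint F) - ((p ^ j : ℕ) : ℚ) ^ (n + 2) •
        gen ((0 : F) : OnePoint F) ∈ R (n + 2) F :=
      Submodule.sub_mem _ (gen_zero_mem n) (Submodule.smul_mem _ _ (gen_zero_mem n))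
    have h5 := Submodule.sub_mem _ h4 h3
    rwa [sub_sub_cancel] at h5
  induction n with
  | zero =>
    refine step 0 (fun F _ _ y => ?_)
    show delta2 F _ = 0
    rw [map_sub, map_smul, delta2_some', delta2_some']
    have h1 : (1 : F) - y ^ p ^ j = (1 - y) ^ p ^ j := by
      rw [sub_pow_char_pow, one_pow]
    rw [h1, lg_pow' _ hq, lg_pow' _ hq, map_smul, map_smul, LinearMap.smul_apply, smul_smul,
      ← pow_two, sub_self]
  | succ n ih =>
    refine step (n + 1) (fun F _ _ y => ?_)
    show deltaOf (R (n + 2) F) _ = 0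
    rw [map_sub, map_smul, deltaOf_some, deltaOf_some, lg_pow' _ hq]
    have h1 := ih F y
    rw [← Submodule.Quotient.mk_eq_zero, Submodule.Quotient.mk_sub, Submodule.Quotient.mk_smul,
      sub_eq_zero] at h1
    rw [Submodule.mkQ_apply, Submodule.mkQ_apply, h1, TensorProduct.tmul_smul,
      ← TensorProduct.smul_tmul', smul_smul, ← pow_succ', sub_self]

/-- over an algebraic extension of `ZMod p` everything is a relation -/
theorem R_top (p : ℕ) [Fact p.Prime] (k : Type u) [Field k] [Algebra (ZMod p) k]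
    [Algebra.IsAlgebraic (ZMod p) k] (n : ℕ) : R (n + 2) k = ⊤ := by
  have hchar : CharP k p := charP_of_injective_algebraMap (algebraMap (ZMod p) k).injective p
  have hgen : ∀ x : k, gen (x : OnePoint k) ∈ R (n + 2) k := by
    intro x
    obtain ⟨j, hj, hx⟩ : ∃ j, 0 < j ∧ x ^ p ^ j = x := by
      let L := IntermediateField.adjoin (ZMod p) ({x} : Set k)
      have : FiniteDimensional (ZMod p) L :=
        IntermediateField.finiteDimensional_adjoin fun x _ => Algebra.IsIntegral.isIntegral x
      have : Finite L := Module.finite_of_finite (ZMod p)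
      have : Fintype L := Fintype.ofFinite L
      have hxL : x ∈ L := IntermediateField.subset_adjoin _ _ rfl
      have : CharP L p := charP_of_injective_algebraMap (algebraMap (ZMod p) L).injective p
      obtain ⟨m, -, hm⟩ := FiniteField.card L p
      have h1 := FiniteField.pow_card (⟨x, hxL⟩ : L)
      rw [hm] at h1
      exact ⟨m, m.pos, congrArg (fun z : L => (z : k)) h1⟩
    have h1 := frob p j n k x
    rw [hx] at h1
    have h2 : gen (x : OnePoint k) - ((p ^ j : ℕ) : ℚ) ^ (n + 2) • gen (x : OnePoint k) =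
        (1 - ((p ^ j : ℕ) : ℚ) ^ (n + 2)) • gen (x : OnePoint k) := by
      rw [sub_smul, one_smul]
    rw [h2] at h1
    have h3 : (1 - ((p ^ j : ℕ) : ℚ) ^ (n + 2)) ≠ 0 := by
      have h4 : 1 < p ^ j := Nat.one_lt_pow hj.ne' (Fact.out : p.Prime).one_lt
      have h5 : (1 : ℚ) < ((p ^ j : ℕ) : ℚ) := by exact_mod_cast h4
      have h6 : (1 : ℚ) < ((p ^ j : ℕ) : ℚ) ^ (n + 2) := one_lt_pow₀ h5 (by omega)
      linarith
    have h7 := Submodule.smul_mem _ (1 - ((p ^ j : ℕ) : ℚ) ^ (n + 2))⁻¹ h1
    rwa [smul_smul, inv_mul_cancel₀ h3, one_smul] at h7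
  rw [eq_top_iff]
  intro α _
  induction α using Finsupp.induction_linear with
  | zero => exact Submodule.zero_mem _
  | add f g hf hg => exact Submodule.add_mem _ (hf trivial) (hg trivial)
  | single x a =>
    have : Finsupp.single x a = a • gen x := by
      unfold gen; rw [Finsupp.smul_single, smul_eq_mul, mul_one]
    rw [this]
    refine Submodule.smul_mem _ _ ?_
    rcases x with _ | x
    · exact gen_inf_mem n
    · exact hgen x

end frob

section homotopy

variable {F : Type u} [Field F]

/-- `P ↦ P(t(1 - s))` -/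
noncomputable def hPoly (F : Type u) [Field F] : F[X] →+* (RatFunc F)[X] :=
  Polynomial.eval₂RingHom ((C : RatFunc F →+* (RatFunc F)[X]).comp (RatFunc.C : F →+* RatFunc F))
    (C RatFunc.X * (1 - X))

lemma hPoly_eval_zero (P : F[X]) : (hPoly F P).eval 0 = algebraMap F[X] (RatFunc F) P := by
  have : (Polynomial.evalRingHom (0 : RatFunc F)).comp (hPoly F) = algebraMap F[X] (RatFunc F) := by
    apply Polynomial.ringHom_ext
    · intro a
      rw [RingHom.comp_apply, hPoly, coe_eval₂RingHom, eval₂_C, RingHom.comp_apply,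
        coe_evalRingHom, eval_C, RatFunc.algebraMap_C]
    · rw [RingHom.comp_apply, hPoly, coe_eval₂RingHom, eval₂_X, coe_evalRingHom, eval_mul, eval_C,
        eval_sub, eval_one, eval_X, sub_zero, mul_one, RatFunc.algebraMap_X]
  exact RingHom.congr_fun this P

lemma hPoly_eval_one (P : F[X]) : (hPoly F P).eval 1 = RatFunc.C (P.eval 0) := by
  have : (Polynomial.evalRingHom (1 : RatFunc F)).comp (hPoly F) =
      (RatFunc.C : F →+* RatFunc F).comp (Polynomial.evalRingHom 0) := by
    apply Polynomial.ringHom_ext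
    · intro a
      rw [RingHom.comp_apply, hPoly, coe_eval₂RingHom, eval₂_C, RingHom.comp_apply,
        coe_evalRingHom, eval_C, RingHom.comp_apply, coe_evalRingHom, eval_C]
    · rw [RingHom.comp_apply, hPoly, coe_eval₂RingHom, eval₂_X, coe_evalRingHom, eval_mul, eval_C,
        eval_sub, eval_one, eval_X, sub_self, mul_zero, RingHom.comp_apply, coe_evalRingHom, eval_X,
        map_zero]
  exact RingHom.congr_fun this P

lemma hPoly_inj : Function.Injective (hPoly F) := by
  intro P Q h
  apply RatFunc.algebraMap_injective F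
  rw [← hPoly_eval_zero, ← hPoly_eval_zero, h]

/-- the homotopy `f(t) ↦ f(t(1 - s))` -/
noncomputable def hHom (F : Type u) [Field F] : RatFunc F →+* RatFunc (RatFunc F) :=
  extHom (hPoly F) hPoly_inj

lemma spec_hHom_zero (f : OnePoint (RatFunc F)) : spec 0 (OnePoint.map (hHom F) f) = f := by
  classical
  rcases f with _ | f
  · rfl
  · show spec 0 ((hHom F f : RatFunc (RatFunc F)) : OnePoint (RatFunc (RatFunc F))) =
      (f : OnePoint (RatFunc F))
    unfold hHom
    rw [spec_ext, hPoly_eval_zero, hPoly_eval_zero, if_neg (am_ne (RatFunc.denom_ne_zero f)),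
      RatFunc.num_div_denom]

lemma spec_hHom_one (f : OnePoint (RatFunc F)) : spec 1 (OnePoint.map (hHom F) f) =
    OnePoint.map (RatFunc.C : F →+* RatFunc F) (spec 0 f) := by
  classical
  rcases f with _ | f
  · rfl
  · show spec 1 ((hHom F f : RatFunc (RatFunc F)) : OnePoint (RatFunc (RatFunc F))) =
      OnePoint.map (RatFunc.C : F →+* RatFunc F) (spec 0 (f : OnePoint (RatFunc F)))
    unfold hHom
    rw [spec_ext, spec_coe, hPoly_eval_one, hPoly_eval_one]
    by_cases h : f.denom.eval 0 = 0
    · rw [if_pos h, h, map_zero, if_pos rfl]; rfl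
    · rw [if_neg h, if_neg ((_root_.map_ne_zero _).mpr h), ← map_div₀]
      rfl

lemma homotopy_mem (n : ℕ) {α : QP (RatFunc F)} (hα : α ∈ A (n + 2) (RatFunc F)) :
    α - (homPlace (RatFunc.C : F →+* RatFunc F)).Q (specQ 0 α) ∈ R (n + 2) (RatFunc F) := by
  have h1 : specQ 0 ((homPlace (hHom F)).Q α) = α := by
    refine QP_comp_ext (f := specQ 0 ∘ₗ (homPlace (hHom F)).Q) (g := LinearMap.id)
      (fun x => ?_) α
    rw [LinearMap.comp_apply, homQ_gen, specQ_gen, spec_hHom_zero, LinearMap.id_apply]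
  have h2 : specQ 1 ((homPlace (hHom F)).Q α) =
      (homPlace (RatFunc.C : F →+* RatFunc F)).Q (specQ 0 α) := by
    refine QP_comp_ext (f := specQ 1 ∘ₗ (homPlace (hHom F)).Q)
      (g := (homPlace (RatFunc.C : F →+* RatFunc F)).Q ∘ₗ specQ 0) (fun x => ?_) α
    rw [LinearMap.comp_apply, LinearMap.comp_apply, homQ_gen, specQ_gen, specQ_gen, homQ_gen,
      spec_hHom_one]
  have h3 := A_map n (hHom F) hα
  have h4 : specQ 0 ((homPlace (hHom F)).Q α) - specQ 1 ((homPlace (hHom F)).Q α) ∈
      R (n + 2) (RatFunc F) := by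
    rw [R_add_two]
    exact Submodule.subset_span (Or.inr ⟨_, h3, rfl⟩)
  rwa [h1, h2] at h4

end homotopy

section main

/-- the smallest class of fields containing `k` and closed under `F ↦ F(t)` -/
inductive Cls (k : Type u) [Field k] : ∀ (F : Type u) [Field F], Prop
  | base : Cls k k
  | step (F : Type u) [Field F] : Cls k F → Cls k (RatFunc F)

lemma gen_zero_memA (n : ℕ) {F : Type u} [Field F] : gen ((0 : F) : OnePoint F) ∈ A (n + 2) F := by
  cases n with
  | zero =>
    show delta2 F _ = 0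
    rw [delta2_some', lg_zero, map_zero]
  | succ n =>
    show deltaOf (R (n + 2) F) _ = 0
    rw [deltaOf_some, lg_zero, TensorProduct.tmul_zero]

lemma gen_inf_memA (n : ℕ) {F : Type u} [Field F] : gen (OnePoint.infty : OnePoint F) ∈
    A (n + 2) F := by
  cases n with
  | zero => exact delta2_inf
  | succ n => exact deltaOf_inf _

/-- **Rigidity**: for `F` obtained from an algebraic extension `k` of `ZMod p` by adjoining
finitely many variables, `R_n(F) = ker δ_n` rationally for all `n ≥ 2`. -/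
theorem rigid (p : ℕ) [Fact p.Prime] (k : Type u) [Field k] [Algebra (ZMod p) k]
    [Algebra.IsAlgebraic (ZMod p) k] (n : ℕ) :
    (∀ (F : Type u) [Field F], Cls k F → R (n + 2) F = A (n + 2) F) ∧
    (∀ (F : Type u) [Field F], Cls k F → ∀ (c : F) {α : QP (RatFunc F)},
      α ∈ A (n + 2) (RatFunc F) → specQ c α ∈ A (n + 2) F) := by
  have key : ∀ n : ℕ, (∀ (F : Type u) [Field F], Cls k F → ∀ (c : F) {α : QP (RatFunc F)},
      α ∈ A (n + 2) (RatFunc F) → specQ c α ∈ A (n + 2) F) →
      (∀ (F : Type u) [Field F], Cls k F → R (n + 2) F = A (n + 2) F) := by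
    intro n hD
    have hle : ∀ (F : Type u) [Field F], Cls k F → R (n + 2) F ≤ A (n + 2) F := by
      intro F _ hF
      rw [R_add_two]
      unfold relOf
      rw [Submodule.span_le]
      rintro x ((rfl | rfl) | ⟨β, hβ, rfl⟩)
      · exact gen_zero_memA n
      · exact gen_inf_memA n
      · exact Submodule.sub_mem _ (hD F hF 0 hβ) (hD F hF 1 hβ)
    intro F _ hF
    induction hF with
    | base =>
      refine le_antisymm (hle k Cls.base) ?_
      rw [R_top p k n]; exact le_top
    | step F hF ih =>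
      refine le_antisymm (hle _ (Cls.step F hF)) ?_
      intro α hα
      have h1 := homotopy_mem n hα
      have h2 : specQ 0 α ∈ R (n + 2) F := by
        rw [ih]; exact hD F hF 0 hα
      have h3 := Submodule.add_mem _ h1 (R_map n (RatFunc.C : F →+* RatFunc F) h2)
      rwa [sub_add_cancel] at h3
  induction n with
  | zero =>
    have hD : ∀ (F : Type u) [Field F], Cls k F → ∀ (c : F) {α : QP (RatFunc F)},
        α ∈ A (0 + 2) (RatFunc F) → specQ c α ∈ A (0 + 2) F :=
      fun F _ _ c α hα => (specPlace c).map_A2 hα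
    exact ⟨key 0 hD, hD⟩
  | succ n ih =>
    have hD : ∀ (F : Type u) [Field F], Cls k F → ∀ (c : F) {α : QP (RatFunc F)},
        α ∈ A (n + 1 + 2) (RatFunc F) → specQ c α ∈ A (n + 1 + 2) F := by
      intro F _ hF c α hα
      refine (specPlace c).map_A3 n (fun β hβ => ?_) hα
      rw [specPlace_Q, ih.1 F hF]
      rw [ih.1 _ (Cls.step F hF)] at hβ
      exact ih.2 F hF c hβ
    exact ⟨key (n + 1) hD, hD⟩

/-- `R_n(k) = ker δ_n` and `R_n(k(t)) = ker δ_n` for `n ≥ 2`. -/
theorem rigid_ratFunc (p : ℕ) [Fact p.Prime] (k : Type u) [Field k] [Algebra (ZMod p) k]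
    [Algebra.IsAlgebraic (ZMod p) k] (n : ℕ) :
    R (n + 2) (RatFunc k) = A (n + 2) (RatFunc k) :=
  (rigid p k n).1 _ (Cls.step k Cls.base)

end main

end H72Rig
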