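import Pool.Agent.Helper72.Gon.FB

open Finset BigOperators

set_option linter.unusedSectionVars false

namespace H72Gon

variable {G : Type*} [AddCommGroup G] [Fintype G] [DecidableEq G]
variable {E : Type*} [Fintype E] [DecidableEq E]

/-- Sidon property up to order `D`. -/
def Sidon (θ : E → G) (D : ℕ) : Prop :=
  ∀ m m' : Multiset E, m.card = m'.card → m.card ≤ D → (m.map θ).sum = (m'.map θ).sum → m = m'

lemma Sidon.perm {θ : E → G} {D : ℕ} (h : Sidon θ D) {ι : Type*} [Fintype ι] [DecidableEq ι]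
    (s : Finset ι) (hs : #s ≤ D) (x x' : ι → E) (hx : ∑ i ∈ s, θ (x i) = ∑ i ∈ s, θ (x' i)) :
    s.val.map x = s.val.map x' := by
  refine h _ _ (by simp) (by simpa using hs) ?_
  simpa [Multiset.map_map] using hx

lemma Sidon.cnt_le {θ : E → G} {D : ℕ} (h : Sidon θ D) {ι : Type*} [Fintype ι] [DecidableEq ι]
    (hι : Fintype.card ι ≤ D) (g : G) :
    cnt (fun _ : ι => θ) g ≤ ((Fintype.card ι).factorial : ℝ) := by
  unfold cnt
  rw [← Finset.sum_filter, Finset.sum_const, nsmul_eq_mul, mul_one]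
  norm_cast
  rcases (Finset.filter (fun x : ι → E => ∑ i, θ (x i) = g) Finset.univ).eq_empty_or_nonempty with
    h0 | ⟨x0, hx0⟩
  · rw [h0]; simp
  · refine le_trans (Finset.card_le_card ?_) (card_perm_bound x0)
    intro x hx
    have hx1 := (Finset.mem_filter.mp hx).2
    have hx2 := (Finset.mem_filter.mp hx0).2
    refine Finset.mem_filter.mpr ⟨Finset.mem_univ _, ?_⟩
    exact h.perm Finset.univ (by rwa [Finset.card_univ]) x x0 (hx1.trans hx2.symm)

lemma Sidon.Nm_le {θ : E → G} {D : ℕ} (h : Sidon θ D) :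
    Nm θ D ≤ (D.factorial : ℝ) * (Fintype.card E : ℝ) ^ D := by
  have h1 := sum_cnt_sq' (ι := Fin D) θ (fun _ => θ) (fun _ _ => rfl)
  have h2 := sum_cnt (ι := Fin D) (fun _ => θ)
  rw [Fintype.card_fin] at h1 h2
  rw [← h1, ← h2, Finset.mul_sum]
  refine Finset.sum_le_sum fun g _ => ?_
  rw [sq]
  refine mul_le_mul_of_nonneg_right ?_ (cnt_nonneg _ _)
  have := h.cnt_le (ι := Fin D) (by simp) g
  rwa [Fintype.card_fin] at this

/-! ### The two-block index type -/

section blocks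

variable (N : ℕ) (θ : E → G)

/-- signed maps -/
def θs : (Fin (N + 2) ⊕ Fin (N + 1)) → E → G
  | Sum.inl _ => θ
  | Sum.inr _ => fun x => - θ x

lemma norm_θs (i : Fin (N + 2) ⊕ Fin (N + 1)) (ψ : AddChar G ℂ) :
    ‖chs (θs N θ i) ψ‖ = ‖chs θ ψ‖ := by
  cases i with
  | inl j => rfl
  | inr l => exact norm_chs_neg θ ψ

/-- sum over solutions -/
noncomputable def SS (g0 : G) (H : (Fin (N + 2) → E) → (Fin (N + 1) → E) → ℝ) : ℝ :=
  ∑ a : Fin (N + 2) → E, ∑ z : Fin (N + 1) → E,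
    if ∑ j, θ (a j) = g0 + ∑ l, θ (z l) then H a z else 0

/-- main term -/
noncomputable def MM (G : Type*) [Fintype G] (H : (Fin (N + 2) → E) → (Fin (N + 1) → E) → ℝ) : ℝ :=
  (∑ a : Fin (N + 2) → E, ∑ z : Fin (N + 1) → E, H a z) / (Fintype.card G : ℝ)

lemma sum_blocks (F : (Fin (N + 2) ⊕ Fin (N + 1) → E) → ℝ) :
    ∑ x, F x = ∑ a : Fin (N + 2) → E, ∑ z : Fin (N + 1) → E, F (Sum.elim a z) := by
  rw [← Fintype.sum_prod_type' (f := fun a z => F (Sum.elim a z))]
  exact Fintype.sum_equiv (Equiv.sumArrowEquivProdArrow _ _ _) _ _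
    (fun x => by simp [Equiv.sumArrowEquivProdArrow])

lemma SS_eq (g0 : G) (H : (Fin (N + 2) → E) → (Fin (N + 1) → E) → ℝ) :
    SS N θ g0 H = ∑ x : Fin (N + 2) ⊕ Fin (N + 1) → E,
      if ∑ i, θs N θ i (x i) = g0 then H (x ∘ Sum.inl) (x ∘ Sum.inr) else 0 := by
  rw [sum_blocks]
  unfold SS
  refine Finset.sum_congr rfl fun a _ => Finset.sum_congr rfl fun z _ => ?_
  have : ∑ i, θs N θ i (Sum.elim a z i) = ∑ j, θ (a j) - ∑ l, θ (z l) := by
    rw [Fintype.sum_sum_type]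
    simp [θs, sub_eq_add_neg]
  rw [this]
  by_cases h : ∑ j, θ (a j) = g0 + ∑ l, θ (z l)
  · rw [if_pos h, if_pos (by rw [h]; abel)]; rfl
  · rw [if_neg h, if_neg (fun h' => h (by rw [← h']; abel))]

lemma MM_eq (H : (Fin (N + 2) → E) → (Fin (N + 1) → E) → ℝ) :
    MM N G H = (∑ x : Fin (N + 2) ⊕ Fin (N + 1) → E, H (x ∘ Sum.inl) (x ∘ Sum.inr))
      / (Fintype.card G : ℝ) := by
  rw [sum_blocks]
  unfold MM
  rfl

/-- equidistribution for a general set of `N+1` marked variables -/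
lemma equid_p (hS : Sidon θ (N + 1)) (η : ℝ) (hη0 : 0 ≤ η)
    (hη : ∀ ψ : AddChar G ℂ, ψ ≠ 0 → ‖chs θ ψ‖ ≤ η)
    (p : (Fin (N + 2) ⊕ Fin (N + 1)) → Prop) [DecidablePred p] (hp : #{i | p i} = N + 1)
    (H : (Fin (N + 2) → E) → (Fin (N + 1) → E) → ℝ)
    (hdep : ∀ x x' : Fin (N + 2) ⊕ Fin (N + 1) → E, (∀ i, p i → x i = x' i) →
      H (x ∘ Sum.inl) (x ∘ Sum.inr) = H (x' ∘ Sum.inl) (x' ∘ Sum.inr))
    (L : ℝ) (hL0 : 0 ≤ L) (hL : ∀ a z, |H a z| ≤ L)
    (hfib : ∀ x x' : Fin (N + 2) ⊕ Fin (N + 1) → E, H (x ∘ Sum.inl) (x ∘ Sum.inr) ≠ 0 →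
      H (x' ∘ Sum.inl) (x' ∘ Sum.inr) ≠ 0 → Pp p (θs N θ) x = Pp p (θs N θ) x' →
      (Finset.univ.filter p).val.map x = (Finset.univ.filter p).val.map x')
    (g0 : G) (hE : 0 < Fintype.card E) :
    |SS N θ g0 H - MM N G H| ≤
      L * (((N + 1).factorial : ℝ) * η * (Fintype.card E : ℝ) ^ (N + 1)) := by
  have hq : #{i | ¬ p i} = (N + 1) + 1 := by
    have := Finset.card_filter_add_card_filter_not (s := (Finset.univ : Finset (Fin (N + 2) ⊕ Fin (N + 1)))) p
    rw [hp, Finset.card_univ, Fintype.card_sum, Fintype.card_fin, Fintype.card_fin] at this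
    omega
  have key := equid_gen p θ (θs N θ) (norm_θs N θ) (N + 1) hq η hη
    ((N + 1).factorial : ℝ) hS.Nm_le
    (fun x => H (x ∘ Sum.inl) (x ∘ Sum.inr)) hdep L (fun x => hL _ _)
    ((N + 1).factorial : ℝ) (by positivity)
    (by
      intro g
      have := FB p (Finset.univ.filter fun x : Fin (N + 2) ⊕ Fin (N + 1) → E =>
        H (x ∘ Sum.inl) (x ∘ Sum.inr) ≠ 0 ∧ Pp p (θs N θ) x = g)
        (by
          intro x hx x' hx'
          have h1 := (Finset.mem_filter.mp hx).2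
          have h2 := (Finset.mem_filter.mp hx').2
          exact hfib x x' h1.1 h2.1 (h1.2.trans h2.2.symm))
      rw [hp, hq] at this
      exact_mod_cast this)
    g0 hE
  rw [SS_eq, MM_eq]
  have hcard : Fintype.card (Fin (N + 2) ⊕ Fin (N + 1)) - 1 = 2 * (N + 1) := by
    rw [Fintype.card_sum, Fintype.card_fin, Fintype.card_fin]; omega
  rw [hcard] at key
  refine abs_le_of_sq_le_sq (key.trans (le_of_eq ?_)) (by positivity)
  rw [pow_mul]
  ring

/-- equidistribution: function of the `a`-variables missing one coordinate -/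
lemma equid1 (hS : Sidon θ (N + 1)) (η : ℝ) (hη0 : 0 ≤ η)
    (hη : ∀ ψ : AddChar G ℂ, ψ ≠ 0 → ‖chs θ ψ‖ ≤ η)
    (j0 : Fin (N + 2)) (h : (Fin (N + 2) → E) → ℝ)
    (hdep : ∀ a a' : Fin (N + 2) → E, (∀ j, j ≠ j0 → a j = a' j) → h a = h a')
    (L : ℝ) (hL0 : 0 ≤ L) (hL : ∀ a, |h a| ≤ L) (g0 : G) (hE : 0 < Fintype.card E) :
    |SS N θ g0 (fun a _ => h a) - MM N G (fun a _ => h a)| ≤
      L * (((N + 1).factorial : ℝ) * η * (Fintype.card E : ℝ) ^ (N + 1)) := by
  classical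
  let p : (Fin (N + 2) ⊕ Fin (N + 1)) → Prop := fun i => i ∈ (Finset.univ.erase j0).map
    ⟨Sum.inl, Sum.inl_injective⟩
  have hfilter : (Finset.univ.filter p) = (Finset.univ.erase j0).map
      ⟨Sum.inl, Sum.inl_injective⟩ := by
    ext i; simp [p]
  have hp : #{i | p i} = N + 1 := by
    rw [hfilter, Finset.card_map, Finset.card_erase_of_mem (Finset.mem_univ _), Finset.card_univ,
      Fintype.card_fin]
    rfl
  have hPp : ∀ x : Fin (N + 2) ⊕ Fin (N + 1) → E, Pp p (θs N θ) x =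
      ∑ j ∈ Finset.univ.erase j0, θ (x (Sum.inl j)) := by
    intro x
    unfold Pp
    rw [← Finset.sum_filter, hfilter, Finset.sum_map]
    rfl
  refine equid_p N θ hS η hη0 hη p hp (fun a _ => h a) ?_ L hL0 (fun a _ => hL a) ?_ g0 hE
  · intro x x' hx
    refine hdep _ _ fun j hj => ?_
    refine hx (Sum.inl j) ?_
    simp [p, hj]
  · intro x x' _ _ hxx
    rw [hPp, hPp] at hxx
    have := hS.perm (Finset.univ.erase j0) (by
      rw [Finset.card_erase_of_mem (Finset.mem_univ _), Finset.card_univ, Fintype.card_fin]; rfl)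
      (fun j => x (Sum.inl j)) (fun j => x' (Sum.inl j)) hxx
    rw [hfilter, Finset.map_val, Multiset.map_map, Multiset.map_map]
    exact this

/-- equidistribution: function of `N` of the `a`-variables and one `z`-variable -/
lemma equid2 (hS : Sidon θ (N + 1)) (η : ℝ) (hη0 : 0 ≤ η)
    (hη : ∀ ψ : AddChar G ℂ, ψ ≠ 0 → ‖chs θ ψ‖ ≤ η)
    (j1 j2 : Fin (N + 2)) (hj : j1 ≠ j2) (l0 : Fin (N + 1))
    (h : (Fin (N + 2) → E) → E → ℝ)
    (hdep : ∀ (a a' : Fin (N + 2) → E) (c : E), (∀ j, j ≠ j1 → j ≠ j2 → a j = a' j) →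
      h a c = h a' c)
    (hsupp : ∀ a c, h a c ≠ 0 → ∀ j, j ≠ j1 → j ≠ j2 → a j ≠ c)
    (L : ℝ) (hL0 : 0 ≤ L) (hL : ∀ a c, |h a c| ≤ L) (g0 : G) (hE : 0 < Fintype.card E) :
    |SS N θ g0 (fun a z => h a (z l0)) - MM N G (fun a z => h a (z l0))| ≤
      L * (((N + 1).factorial : ℝ) * η * (Fintype.card E : ℝ) ^ (N + 1)) := by
  classical
  set T : Finset (Fin (N + 2)) := (Finset.univ.erase j1).erase j2 with hT
  have hTcard : #T = N := by
    rw [hT, Finset.card_erase_of_mem (Finset.mem_erase.mpr ⟨hj.symm, Finset.mem_univ _⟩),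
      Finset.card_erase_of_mem (Finset.mem_univ _), Finset.card_univ, Fintype.card_fin]
    rfl
  have hTmem : ∀ j, j ∈ T ↔ j ≠ j1 ∧ j ≠ j2 := by
    intro j; rw [hT, Finset.mem_erase, Finset.mem_erase]; simp [and_comm]
  set P : Finset (Fin (N + 2) ⊕ Fin (N + 1)) := insert (Sum.inr l0)
    (T.map ⟨Sum.inl, Sum.inl_injective⟩) with hP
  have hnot : (Sum.inr l0 : Fin (N + 2) ⊕ Fin (N + 1)) ∉ T.map ⟨Sum.inl, Sum.inl_injective⟩ := by
    simp
  let p : (Fin (N + 2) ⊕ Fin (N + 1)) → Prop := fun i => i ∈ P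
  have hfilter : (Finset.univ.filter p) = P := by
    ext i; simp [p]
  have hp : #{i | p i} = N + 1 := by
    rw [hfilter, hP, Finset.card_insert_of_notMem hnot, Finset.card_map, hTcard]
  have hPp : ∀ x : Fin (N + 2) ⊕ Fin (N + 1) → E, Pp p (θs N θ) x =
      - θ (x (Sum.inr l0)) + ∑ j ∈ T, θ (x (Sum.inl j)) := by
    intro x
    unfold Pp
    rw [← Finset.sum_filter, hfilter, hP, Finset.sum_insert hnot, Finset.sum_map]
    rfl
  refine equid_p N θ hS η hη0 hη p hp (fun a z => h a (z l0)) ?_ L hL0 (fun a z => hL a _) ?_ g0 hE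
  · intro x x' hx
    have h1 : x (Sum.inr l0) = x' (Sum.inr l0) := hx _ (by simp [p, hP])
    simp only [Function.comp_apply, h1]
    refine hdep _ _ _ fun j h1 h2 => ?_
    refine hx (Sum.inl j) ?_
    simp [p, hP, hTmem, h1, h2]
  · intro x x' hx hx' hxx
    rw [hPp, hPp] at hxx
    have h1 := hsupp _ _ hx
    have h2 := hsupp _ _ hx'
    simp only [Function.comp_apply] at h1 h2
    set c := x (Sum.inr l0) with hc
    set c' := x' (Sum.inr l0) with hc'
    have h3 : c' ::ₘ T.val.map (fun j => x (Sum.inl j)) =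
        c ::ₘ T.val.map (fun j => x' (Sum.inl j)) := by
      refine hS _ _ (by simp) (by simp [hTcard]) ?_
      simp only [Multiset.map_cons, Multiset.sum_cons, Multiset.map_map, Function.comp_def]
      have e1 : (T.val.map (fun j => θ (x (Sum.inl j)))).sum = ∑ j ∈ T, θ (x (Sum.inl j)) := rfl
      have e2 : (T.val.map (fun j => θ (x' (Sum.inl j)))).sum = ∑ j ∈ T, θ (x' (Sum.inl j)) := rfl
      rw [e1, e2]
      have e3 : ∑ j ∈ T, θ (x (Sum.inl j)) = θ c + (- θ c' + ∑ j ∈ T, θ (x' (Sum.inl j))) := by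
        rw [← hxx]; abel
      rw [e3]; abel
    have hcc : c = c' := by
      by_contra hne
      have h4 : c ∈ c' ::ₘ T.val.map (fun j => x (Sum.inl j)) := by
        rw [h3]; exact Multiset.mem_cons_self _ _
      rw [Multiset.mem_cons] at h4
      rcases h4 with h4 | h4
      · exact hne h4
      · obtain ⟨j, hjT, hjx⟩ := Multiset.mem_map.mp h4
        have := (hTmem j).mp hjT
        exact h1 j this.1 this.2 hjx
    rw [hcc] at h3
    have h5 := (Multiset.cons_inj_right _).mp h3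
    rw [hfilter, hP, Finset.insert_val_of_notMem hnot, Multiset.map_cons, Multiset.map_cons,
      Finset.map_val, Multiset.map_map, Multiset.map_map]
    rw [← hc, ← hc', hcc]
    congr 1

end blocks

end H72Gon
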