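import Pool.Agent.Helper72.Gon.Spanning

open Finset BigOperators Polynomial TensorProduct

set_option linter.unusedSectionVars false

namespace H72Gon

universe u v

section T

variable {V : Type v} [AddCommGroup V] [Module ℚ V]

lemma cons_upd {N : ℕ} [D : DecidableEq (Fin N)] (u : V) (v : Fin N → V) (i : Fin N) (z : V) :
    (Fin.cons u (Function.update v i z) : Fin (N + 1) → V) =
      Function.update (Fin.cons u v : Fin (N + 1) → V) i.succ z := by
  funext j
  refine Fin.cases ?_ (fun j => ?_) j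
  · rw [Fin.cons_zero, Function.update_of_ne (Fin.succ_ne_zero i).symm, Fin.cons_zero]
  · rw [Fin.cons_succ]
    by_cases h : j = i
    · subst h; rw [Function.update_self, Function.update_self]
    · rw [Function.update_of_ne h, Function.update_of_ne (fun h' => h (Fin.succ_injective _ h')),
        Fin.cons_succ]

/-- separate the first variable of a rational valued multilinear map, with real values -/
noncomputable def sepFirst {N : ℕ} (T : MultilinearMap ℚ (fun _ : Fin (N + 1) => V) ℚ) :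
    MultilinearMap ℚ (fun _ : Fin N => V) (V →ₗ[ℚ] ℝ) where
  toFun v :=
    { toFun := fun u => ((T (Fin.cons u v : Fin (N + 1) → V) : ℚ) : ℝ)
      map_add' := fun x y => by rw [MultilinearMap.cons_add]; push_cast; rfl
      map_smul' := fun c x => by
        rw [MultilinearMap.cons_smul, smul_eq_mul, RingHom.id_apply, Rat.smul_def]; push_cast; rfl }
  map_update_add' := fun {_} v i x y => by
    ext u
    simp only [LinearMap.coe_mk, AddHom.coe_mk, LinearMap.add_apply]
    rw [cons_upd, cons_upd, cons_upd, MultilinearMap.map_update_add]; push_cast; rfl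
  map_update_smul' := fun {_} v i c x => by
    ext u
    simp only [LinearMap.coe_mk, AddHom.coe_mk, LinearMap.smul_apply]
    rw [cons_upd, cons_upd, MultilinearMap.map_update_smul, smul_eq_mul, Rat.smul_def]
    push_cast; rfl

lemma sepFirst_apply {N : ℕ} (T : MultilinearMap ℚ (fun _ : Fin (N + 1) => V) ℚ) (v : Fin N → V)
    (u : V) : sepFirst T v u = ((T (Fin.cons u v : Fin (N + 1) → V) : ℚ) : ℝ) := rfl

/-- Spanning theorem for a multilinear form in `N + 1` variables. -/
theorem spanning_form {k : Type u} [Field k] [IsAlgClosed k] (p : ℕ) [Fact p.Prime]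
    [Algebra (ZMod p) k] [Algebra.IsAlgebraic (ZMod p) k] (ν : Additive (RatFunc k)ˣ →+ V)
    (hsp : Submodule.span ℚ (Set.range ν) = ⊤) {N : ℕ}
    (T : MultilinearMap ℚ (fun _ : Fin (N + 1) => V) ℚ)
    (hT : ∀ f g : (RatFunc k)ˣ, (f : RatFunc k) + g = 1 →
      T (Fin.cons (ν (Additive.ofMul g)) (fun _ => ν (Additive.ofMul f)) : Fin (N + 1) → V) = 0)
    (u v : V) : T (Fin.cons u (fun _ => v) : Fin (N + 1) → V) = 0 := by
  classical
  let ν' : RatFunc k → V := fun f => if h : f = 0 then 0 else ν (Additive.ofMul (Units.mk0 f h))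
  have hν' : ∀ (f : RatFunc k) (h : f ≠ 0), ν' f = ν (Additive.ofMul (Units.mk0 f h)) :=
    fun f h => dif_neg h
  have hlog : IsLog ν' := by
    intro a b ha hb
    rw [hν' a ha, hν' b hb, hν' (a * b) (mul_ne_zero ha hb), ← map_add, ← ofMul_mul,
      Units.mk0_mul]
  have hspan : Submodule.span ℚ (ν' '' {f | f ≠ 0}) = ⊤ := by
    rw [← hsp]
    congr 1
    ext x
    constructor
    · rintro ⟨f, hf, rfl⟩
      exact ⟨_, (hν' f hf).symm⟩
    · rintro ⟨f, rfl⟩
      refine ⟨(f.toMul : (RatFunc k)ˣ), f.toMul.ne_zero, ?_⟩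
      rw [hν' _ f.toMul.ne_zero, Units.mk0_val]
      rfl
  have key := spanning p hlog (sepFirst T) (by
    intro f hf0 hf1
    have h1f : 1 - f ≠ 0 := sub_ne_zero.mpr hf1.symm
    rw [sepFirst_apply, hν' f hf0, hν' _ h1f, hT (Units.mk0 f hf0) (Units.mk0 _ h1f) (by
      rw [Units.val_mk0, Units.val_mk0]; ring), Rat.cast_zero]) v u
    (by rw [hspan]; trivial) (by rw [hspan]; trivial)
  rw [sepFirst_apply] at key
  exact_mod_cast key

/-- the symbol in `ℚ ⊗ Fˣ` -/
noncomputable def sy (F : Type u) [Field F] : Additive Fˣ →+ ℚ ⊗[ℤ] (Additive Fˣ) where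
  toFun f := (1 : ℚ) ⊗ₜ[ℤ] f
  map_zero' := TensorProduct.tmul_zero _ _
  map_add' := fun _ _ => TensorProduct.tmul_add _ _ _

lemma span_sy (F : Type u) [Field F] : Submodule.span ℚ (Set.range (sy F)) = ⊤ := by
  rw [eq_top_iff]
  intro x _
  induction x using TensorProduct.induction_on with
  | zero => exact Submodule.zero_mem _
  | tmul q f =>
    have : q ⊗ₜ[ℤ] f = q • sy F f := by
      show q ⊗ₜ[ℤ] f = q • ((1 : ℚ) ⊗ₜ[ℤ] f)
      rw [TensorProduct.smul_tmul', smul_eq_mul, mul_one]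
    rw [this]
    exact Submodule.smul_mem _ _ (Submodule.subset_span ⟨f, rfl⟩)
  | add x y hx hy => exact Submodule.add_mem _ (hx trivial) (hy trivial)

/-- Spanning theorem for `V = ℚ ⊗ Fˣ`, `F = k(X)`. -/
theorem spanning_tensor {k : Type u} [Field k] [IsAlgClosed k] (p : ℕ) [Fact p.Prime]
    [Algebra (ZMod p) k] [Algebra.IsAlgebraic (ZMod p) k] {N : ℕ}
    (T : MultilinearMap ℚ (fun _ : Fin (N + 1) => ℚ ⊗[ℤ] (Additive (RatFunc k)ˣ)) ℚ)
    (hT : ∀ f g : (RatFunc k)ˣ, (f : RatFunc k) + g = 1 →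
      T (Fin.cons ((1 : ℚ) ⊗ₜ[ℤ] Additive.ofMul g) (fun _ => (1 : ℚ) ⊗ₜ[ℤ] Additive.ofMul f) :
        Fin (N + 1) → ℚ ⊗[ℤ] (Additive (RatFunc k)ˣ)) = 0)
    (u v : ℚ ⊗[ℤ] (Additive (RatFunc k)ˣ)) :
    T (Fin.cons u (fun _ => v) : Fin (N + 1) → ℚ ⊗[ℤ] (Additive (RatFunc k)ˣ)) = 0 :=
  spanning_form p (sy (RatFunc k)) (span_sy (RatFunc k)) T hT u v

end T

end H72Gon
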