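import Pool.Agent.Helper72.Gon.Degen

open Finset BigOperators Polynomial

set_option linter.unusedSectionVars false

namespace H72Gon

universe u v w

section mult

variable {F : Type w} [Field F] {V : Type v} [AddCommGroup V] [Module ℚ V]

/-- `ν` is additive on products of nonzero elements -/
def IsLog (ν : F → V) : Prop := ∀ a b : F, a ≠ 0 → b ≠ 0 → ν (a * b) = ν a + ν b

lemma IsLog.one {ν : F → V} (h : IsLog ν) : ν 1 = 0 := by
  have := h 1 1 one_ne_zero one_ne_zero
  rw [mul_one] at this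
  simpa using this

lemma IsLog.prod {ν : F → V} (h : IsLog ν) {ι : Type*} (s : Finset ι) (f : ι → F)
    (hf : ∀ i ∈ s, f i ≠ 0) : ν (∏ i ∈ s, f i) = ∑ i ∈ s, ν (f i) := by
  classical
  induction s using Finset.induction_on with
  | empty => rw [Finset.prod_empty, Finset.sum_empty, h.one]
  | insert i s hi ih =>
    rw [Finset.prod_insert hi, Finset.sum_insert hi, h _ _ (hf i (Finset.mem_insert_self _ _))
      (Finset.prod_ne_zero_iff.mpr fun j hj => hf j (Finset.mem_insert_of_mem hj)),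
      ih fun j hj => hf j (Finset.mem_insert_of_mem hj)]

lemma IsLog.pow {ν : F → V} (h : IsLog ν) (a : F) (ha : a ≠ 0) (n : ℕ) : ν (a ^ n) = (n : ℚ) • ν a := by
  induction n with
  | zero => rw [pow_zero, h.one, Nat.cast_zero, zero_smul]
  | succ n ih => rw [pow_succ, h _ _ (pow_ne_zero _ ha) ha, ih, Nat.cast_succ, add_smul, one_smul]

lemma IsLog.inv {ν : F → V} (h : IsLog ν) (a : F) (ha : a ≠ 0) : ν a⁻¹ = - ν a := by
  have := h a a⁻¹ ha (inv_ne_zero ha)
  rw [mul_inv_cancel₀ ha, h.one] at this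
  exact (neg_eq_of_add_eq_zero_right this.symm).symm

lemma IsLog.div {ν : F → V} (h : IsLog ν) (a b : F) (ha : a ≠ 0) (hb : b ≠ 0) :
    ν (a / b) = ν a - ν b := by
  rw [div_eq_mul_inv, h _ _ ha (inv_ne_zero hb), h.inv b hb, sub_eq_add_neg]

lemma IsLog.torsion {ν : F → V} (h : IsLog ν) (a : F) (ha : a ≠ 0) (n : ℕ) (hn : 0 < n)
    (hpow : a ^ n = 1) : ν a = 0 := by
  have := h.pow a ha n
  rw [hpow, h.one] at this
  rcases smul_eq_zero.mp this.symm with h1 | h1
  · exact absurd (Nat.cast_eq_zero.mp h1) (by omega)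
  · exact h1

variable {k : Type u} [Field k] [Algebra k F]

lemma pow_eq_one_of_alg (p : ℕ) [Fact p.Prime] [Algebra (ZMod p) k]
    [Algebra.IsAlgebraic (ZMod p) k] (c : k) (hc : c ≠ 0) : ∃ n, 0 < n ∧ c ^ n = 1 := by
  classical
  let L := IntermediateField.adjoin (ZMod p) ({c} : Set k)
  have : FiniteDimensional (ZMod p) L :=
    IntermediateField.finiteDimensional_adjoin fun x _ => Algebra.IsIntegral.isIntegral x
  have : Finite L := Module.finite_of_finite (ZMod p)
  have : Fintype L := Fintype.ofFinite L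
  have hcL : c ∈ L := IntermediateField.subset_adjoin _ _ rfl
  have h1 := FiniteField.pow_card_sub_one_eq_one (⟨c, hcL⟩ : L)
    (fun h => hc (congrArg (fun z : L => (z : k)) h))
  refine ⟨Fintype.card L - 1, Nat.sub_pos_of_lt Fintype.one_lt_card, ?_⟩
  exact congrArg (fun z : L => (z : k)) h1

lemma IsLog.const (p : ℕ) [Fact p.Prime] [Algebra (ZMod p) k]
    [Algebra.IsAlgebraic (ZMod p) k] {ν : F → V} (h : IsLog ν) (c : k) (hc : c ≠ 0) :
    ν (algebraMap k F c) = 0 := by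
  obtain ⟨n, hn, hpow⟩ := pow_eq_one_of_alg p c hc
  exact h.torsion _ ((_root_.map_ne_zero (algebraMap k F)).mpr hc) n hn (by rw [← map_pow, hpow, map_one])

lemma aeval_Bp (τ : F) {n : ℕ} (a : Fin n → k) :
    aeval τ (Bp a) = ∏ j, (τ - algebraMap k F (a j)) := by
  unfold Bp
  rw [map_prod]
  refine Finset.prod_congr rfl fun j _ => ?_
  rw [map_sub, aeval_X, aeval_C]

/-- the relation hypothesis for `τ` not a constant -/
lemma relHyp_of (p : ℕ) [Fact p.Prime] [Algebra (ZMod p) k]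
    [Algebra.IsAlgebraic (ZMod p) k] {ν : F → V} (h : IsLog ν) {N : ℕ}
    (Ψ : MultilinearMap ℚ (fun _ : Fin N => V) (V →ₗ[ℚ] ℝ))
    (h2 : ∀ f : F, f ≠ 0 → f ≠ 1 → Ψ (fun _ => ν f) (ν (1 - f)) = 0)
    (τ : F) (hτ : ∀ a : k, τ ≠ algebraMap k F a) :
    RelHyp N Ψ (fun a => ν (τ - algebraMap k F a)) := by
  intro a b z c hc0 hc1 hrel
  have hne : ∀ a : k, τ - algebraMap k F a ≠ 0 := fun a => sub_ne_zero.mpr (hτ a)
  have hA0 : ∀ {n : ℕ} (a : Fin n → k), aeval τ (Bp a) ≠ 0 := fun a => by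
    rw [aeval_Bp]; exact Finset.prod_ne_zero_iff.mpr fun j _ => hne _
  have hνA : ∀ {n : ℕ} (a : Fin n → k),
      ν (aeval τ (Bp a)) = ∑ j, ν (τ - algebraMap k F (a j)) := fun a => by
    rw [aeval_Bp, h.prod _ _ fun j _ => hne _]
  have hr := congrArg (aeval τ) hrel
  rw [map_sub, map_mul, map_mul, aeval_C, aeval_C] at hr
  set A := aeval τ (Bp a) with hA
  set B := aeval τ (Bp b) with hB
  set Z := aeval τ (Bp z) with hZ
  set cc := algebraMap k F c with hcc
  have h1c : algebraMap k F (1 - c) = 1 - cc := by rw [map_sub, map_one]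
  have hc1' : (1 : k) - c ≠ 0 := sub_ne_zero.mpr hc1.symm
  have hcF : algebraMap k F (1 - c) ≠ 0 := (_root_.map_ne_zero _).mpr hc1'
  have hccF : cc ≠ 0 := (_root_.map_ne_zero _).mpr hc0
  have hden : algebraMap k F (1 - c) * B ≠ 0 := mul_ne_zero hcF (hA0 b)
  set f : F := A / (algebraMap k F (1 - c) * B) with hf
  have hf0 : f ≠ 0 := div_ne_zero (hA0 a) hden
  have h1f : 1 - f = algebraMap k F (-c) * Z / (algebraMap k F (1 - c) * B) := by
    rw [hf, eq_div_iff hden, sub_mul, div_mul_cancel₀ _ hden, one_mul, map_neg, ← hr, ← hcc]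
    ring
  have hcF' : algebraMap k F (-c) ≠ 0 := (_root_.map_ne_zero _).mpr (neg_ne_zero.mpr hc0)
  have h1f0 : 1 - f ≠ 0 := by
    rw [h1f]; exact div_ne_zero (mul_ne_zero hcF' (hA0 z)) hden
  have hf1 : f ≠ 1 := fun h => h1f0 (by rw [h, sub_self])
  have key := h2 f hf0 hf1
  have e1 : ν f = ∑ j, (ν (τ - algebraMap k F (a j)) - ν (τ - algebraMap k F (b j))) := by
    rw [hf, h.div _ _ (hA0 a) hden, h _ _ hcF (hA0 b), h.const p _ hc1', zero_add, hνA, hνA,
      Finset.sum_sub_distrib]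
  have e2 : ν (1 - f) = ∑ j, ν (τ - algebraMap k F (z j)) - ∑ j, ν (τ - algebraMap k F (b j)) := by
    rw [h1f, h.div _ _ (mul_ne_zero hcF' (hA0 z)) hden, h _ _ hcF (hA0 b), h _ _ hcF' (hA0 z),
      h.const p _ hc1', h.const p _ (neg_ne_zero.mpr hc0), zero_add, zero_add, hνA, hνA]
  rw [e1, e2] at key
  exact key

/-- symmetric version for one transcendental element -/
lemma tau_zero_sym [IsAlgClosed k] (p : ℕ) [Fact p.Prime] [Algebra (ZMod p) k]
    [Algebra.IsAlgebraic (ZMod p) k] {ν : F → V} (h : IsLog ν) {N : ℕ} (hN : 0 < N)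
    (Ψ : MultilinearMap ℚ (fun _ : Fin N => V) (V →ₗ[ℚ] ℝ))
    (hsym : ∀ (σ : Equiv.Perm (Fin N)) (v : Fin N → V), Ψ (fun i => v (σ i)) = Ψ v)
    (h2 : ∀ f : F, f ≠ 0 → f ≠ 1 → Ψ (fun _ => ν f) (ν (1 - f)) = 0)
    (τ : F) (hτ : ∀ a : k, τ ≠ algebraMap k F a) (x x' : Fin N → k) (y y' : k) :
    Ψ (fun i => ν (τ - algebraMap k F (x i)) - ν (τ - algebraMap k F (x' i)))
      (ν (τ - algebraMap k F y) - ν (τ - algebraMap k F y')) = 0 := by
  have : Infinite k := IsAlgClosed.instInfinite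
  have hrel := relHyp_of p h Ψ h2 τ hτ
  exact affine_zero hN hsym hrel
    (fun x x' y y' h1 h2 h3 h4 => nd_zero p N hN Ψ hsym _ hrel x x' y y' h1 h2 h3 h4) x x' y y'

end mult

section rat

variable {k : Type u} [Field k] [IsAlgClosed k] {V : Type v} [AddCommGroup V] [Module ℚ V]

/-- the symbol of `X - a` -/
noncomputable def lin (a : k) : RatFunc k := RatFunc.X - RatFunc.C a

lemma lin_ne_zero (a : k) : lin a ≠ 0 := by
  unfold lin
  rw [← RatFunc.algebraMap_X, ← RatFunc.algebraMap_C, ← map_sub]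
  exact (_root_.map_ne_zero_iff _ (RatFunc.algebraMap_injective k)).mpr (X_sub_C_ne_zero a)

lemma sym_zero (p : ℕ) [Fact p.Prime] [Algebra (ZMod p) k]
    [Algebra.IsAlgebraic (ZMod p) k] {ν : RatFunc k → V} (h : IsLog ν) {N : ℕ} (hN : 0 < N)
    (Ψ : MultilinearMap ℚ (fun _ : Fin N => V) (V →ₗ[ℚ] ℝ))
    (hsym : ∀ (σ : Equiv.Perm (Fin N)) (v : Fin N → V), Ψ (fun i => v (σ i)) = Ψ v)
    (h2 : ∀ f : RatFunc k, f ≠ 0 → f ≠ 1 → Ψ (fun _ => ν f) (ν (1 - f)) = 0)
    (d : Fin N → k) (e : k) : Ψ (fun i => ν (lin (d i))) (ν (lin e)) = 0 := by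
  classical
  have : Infinite k := IsAlgClosed.instInfinite
  obtain ⟨c, hc⟩ := Infinite.exists_notMem_finset (Finset.univ.image d ∪ {e})
  simp only [Finset.mem_union, Finset.mem_image, Finset.mem_univ, true_and, not_or, not_exists,
    Finset.mem_singleton] at hc
  obtain ⟨hcd, hce⟩ := hc
  have hl := lin_ne_zero c
  have hCC : ∀ a : k, algebraMap k (RatFunc k) a = RatFunc.C a := fun a => rfl
  -- the element tau = 1 / (X - c)
  have hτa : ∀ a : k, a ≠ 0 → (lin c)⁻¹ - algebraMap k (RatFunc k) a =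
      algebraMap k (RatFunc k) (-a) * lin (c + a⁻¹) / lin c := by
    intro a ha
    rw [eq_div_iff hl, sub_mul, inv_mul_cancel₀ hl, map_neg, hCC]
    have ha' : RatFunc.C a * RatFunc.C a⁻¹ = 1 := by rw [← map_mul, mul_inv_cancel₀ ha, map_one]
    unfold lin
    rw [map_add]
    linear_combination -ha'
  have hτ : ∀ a : k, (lin c)⁻¹ ≠ algebraMap k (RatFunc k) a := by
    intro a hEq
    by_cases ha : a = 0
    · rw [ha, map_zero] at hEq
      exact inv_ne_zero hl hEq
    · have := hτa a ha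
      rw [hEq, sub_self] at this
      refine div_ne_zero (mul_ne_zero ((_root_.map_ne_zero _).mpr (neg_ne_zero.mpr ha))
        (lin_ne_zero _)) hl this.symm
  have hν0 : ν ((lin c)⁻¹ - algebraMap k (RatFunc k) 0) = - ν (lin c) := by
    rw [map_zero, sub_zero, h.inv _ hl]
  have hνa : ∀ g : k, g ≠ c → ν ((lin c)⁻¹ - algebraMap k (RatFunc k) (g - c)⁻¹) -
      ν ((lin c)⁻¹ - algebraMap k (RatFunc k) 0) = ν (lin g) := by
    intro g hg
    have hgc : (g - c)⁻¹ ≠ 0 := inv_ne_zero (sub_ne_zero.mpr hg)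
    have hneg : algebraMap k (RatFunc k) (-(g - c)⁻¹) ≠ 0 :=
      (_root_.map_ne_zero _).mpr (neg_ne_zero.mpr hgc)
    rw [hν0, hτa _ hgc, h.div _ _ (mul_ne_zero hneg (lin_ne_zero _)) hl, h _ _ hneg (lin_ne_zero _),
      h.const p _ (neg_ne_zero.mpr hgc), inv_inv, add_sub_cancel, zero_add, sub_neg_eq_add,
      sub_add_cancel]
  have key := tau_zero_sym p h hN Ψ hsym h2 (lin c)⁻¹ hτ (fun i => (d i - c)⁻¹) (fun _ => 0)
    (e - c)⁻¹ 0
  rw [hνa e (fun h => hce h.symm)] at key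
  have : (fun i => ν ((lin c)⁻¹ - algebraMap k (RatFunc k) (d i - c)⁻¹) -
      ν ((lin c)⁻¹ - algebraMap k (RatFunc k) 0)) = fun i => ν (lin (d i)) :=
    funext fun i => hνa (d i) (fun h => hcd i h)
  rw [this] at key
  exact key

lemma poly_mem_span (p : ℕ) [Fact p.Prime] [Algebra (ZMod p) k]
    [Algebra.IsAlgebraic (ZMod p) k] {ν : RatFunc k → V} (h : IsLog ν) (n : ℕ) :
    ∀ P : k[X], P ≠ 0 → P.natDegree = n →
    ν (algebraMap k[X] (RatFunc k) P) ∈ Submodule.span ℚ (Set.range fun a : k => ν (lin a)) := by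
  induction n with
  | zero =>
    intro P hP hdeg
    rw [eq_C_of_natDegree_eq_zero hdeg]
    have hc : P.coeff 0 ≠ 0 := by
      intro h0
      exact hP (by rw [eq_C_of_natDegree_eq_zero hdeg, h0, C_0])
    have : ν (algebraMap k[X] (RatFunc k) (C (P.coeff 0))) = 0 := by
      rw [RatFunc.algebraMap_C]
      exact h.const p (P.coeff 0) hc
    rw [this]
    exact Submodule.zero_mem _
  | succ n ih =>
    intro P hP hdeg
    obtain ⟨r, hr⟩ := IsAlgClosed.exists_root P (by
      rw [degree_eq_natDegree hP, hdeg]; exact_mod_cast Nat.succ_ne_zero n)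
    obtain ⟨Q, hQ⟩ := dvd_iff_isRoot.mpr hr
    have hQ0 : Q ≠ 0 := by rintro rfl; rw [mul_zero] at hQ; exact hP hQ
    have hQd : Q.natDegree = n := by
      have h1 := hdeg
      rw [hQ, natDegree_mul (X_sub_C_ne_zero r) hQ0, natDegree_X_sub_C] at h1
      omega
    have h1 : algebraMap k[X] (RatFunc k) (X - C r) = lin r := by
      rw [map_sub, RatFunc.algebraMap_X, RatFunc.algebraMap_C]; rfl
    have h2 : algebraMap k[X] (RatFunc k) Q ≠ 0 :=
      (_root_.map_ne_zero_iff _ (RatFunc.algebraMap_injective k)).mpr hQ0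
    rw [hQ, map_mul, h1, h _ _ (lin_ne_zero r) h2]
    exact Submodule.add_mem _ (Submodule.subset_span ⟨r, rfl⟩) (ih Q hQ0 hQd)

lemma mem_span_lin (p : ℕ) [Fact p.Prime] [Algebra (ZMod p) k]
    [Algebra.IsAlgebraic (ZMod p) k] {ν : RatFunc k → V} (h : IsLog ν) (f : RatFunc k)
    (hf : f ≠ 0) : ν f ∈ Submodule.span ℚ (Set.range fun a : k => ν (lin a)) := by
  have h1 : algebraMap k[X] (RatFunc k) f.num ≠ 0 :=
    (_root_.map_ne_zero_iff _ (RatFunc.algebraMap_injective k)).mpr (RatFunc.num_ne_zero hf)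
  have h2 : algebraMap k[X] (RatFunc k) f.denom ≠ 0 :=
    (_root_.map_ne_zero_iff _ (RatFunc.algebraMap_injective k)).mpr (RatFunc.denom_ne_zero f)
  rw [← RatFunc.num_div_denom f, h.div _ _ h1 h2]
  exact Submodule.sub_mem _ (poly_mem_span p h _ _ (RatFunc.num_ne_zero hf) rfl)
    (poly_mem_span p h _ _ (RatFunc.denom_ne_zero f) rfl)

/-- the symmetrisation of a multilinear map -/
noncomputable def symz {N : ℕ} (Ψ : MultilinearMap ℚ (fun _ : Fin N => V) (V →ₗ[ℚ] ℝ)) :
    MultilinearMap ℚ (fun _ : Fin N => V) (V →ₗ[ℚ] ℝ) :=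
  ∑ σ : Equiv.Perm (Fin N), Ψ.domDomCongr σ

lemma symz_apply {N : ℕ} (Ψ : MultilinearMap ℚ (fun _ : Fin N => V) (V →ₗ[ℚ] ℝ)) (v : Fin N → V) :
    symz Ψ v = ∑ σ : Equiv.Perm (Fin N), Ψ (fun i => v (σ i)) := by
  unfold symz
  rw [_root_.sum_apply]
  rfl

lemma symz_sym {N : ℕ} (Ψ : MultilinearMap ℚ (fun _ : Fin N => V) (V →ₗ[ℚ] ℝ))
    (σ : Equiv.Perm (Fin N)) (v : Fin N → V) : symz Ψ (fun i => v (σ i)) = symz Ψ v := by
  rw [symz_apply, symz_apply]
  exact Fintype.sum_equiv (Equiv.mulLeft σ) _ _ fun τ => rfl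

lemma symz_diag {N : ℕ} (Ψ : MultilinearMap ℚ (fun _ : Fin N => V) (V →ₗ[ℚ] ℝ)) (v w : V) :
    symz Ψ (fun _ => v) w = (N.factorial : ℝ) * Ψ (fun _ => v) w := by
  rw [symz_apply, Finset.sum_const, Finset.card_univ, Fintype.card_perm, Fintype.card_fin,
    LinearMap.smul_apply, nsmul_eq_mul]

/-- **Spanning theorem.**  For `k` an algebraic closure of a finite field, `F = k(X)` and
`ν : Fˣ → V` a homomorphism to a rational vector space, a functional `Ψ` on
`V^N × V` with `Ψ (ν f, ..., ν f; ν (1 - f)) = 0` for all `f ≠ 0, 1` vanishes at all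
`(v, ..., v; w)` with `v, w` in the span of the image of `ν`. -/
theorem spanning (p : ℕ) [Fact p.Prime] [Algebra (ZMod p) k]
    [Algebra.IsAlgebraic (ZMod p) k] {ν : RatFunc k → V} (h : IsLog ν) {N : ℕ}
    (Ψ : MultilinearMap ℚ (fun _ : Fin N => V) (V →ₗ[ℚ] ℝ))
    (h2 : ∀ f : RatFunc k, f ≠ 0 → f ≠ 1 → Ψ (fun _ => ν f) (ν (1 - f)) = 0)
    (v w : V) (hv : v ∈ Submodule.span ℚ (ν '' {f | f ≠ 0}))
    (hw : w ∈ Submodule.span ℚ (ν '' {f | f ≠ 0})) : Ψ (fun _ => v) w = 0 := by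
  have hle : Submodule.span ℚ (ν '' {f | f ≠ 0}) ≤
      Submodule.span ℚ (Set.range fun a : k => ν (lin a)) := by
    rw [Submodule.span_le]
    rintro _ ⟨f, hf, rfl⟩
    exact mem_span_lin p h f hf
  have hv' := hle hv
  have hw' := hle hw
  rcases Nat.eq_zero_or_pos N with rfl | hN
  · -- the case of no variables
    have : ∀ g : RatFunc k, g ≠ 0 → Ψ (fun _ => v) (ν g) = 0 := by
      intro g hg
      by_cases hg1 : g = 1
      · rw [hg1, h.one, map_zero]
      · have := h2 (1 - g) (sub_ne_zero.mpr (fun h => hg1 h.symm)) (fun h => hg (by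
          linear_combination -h))
        rw [sub_sub_cancel] at this
        have e : (fun _ : Fin 0 => v) = fun _ : Fin 0 => ν (1 - g) := funext fun i => i.elim0
        rw [e]; exact this
    induction hw using Submodule.span_induction with
    | mem x hx => obtain ⟨g, hg, rfl⟩ := hx; exact this g hg
    | zero => rw [map_zero]
    | add x y hx hy hx' hy' => rw [map_add, hx' (hle hx), hy' (hle hy), add_zero]
    | smul a x hx hx' => rw [map_smul, hx' (hle hx), smul_zero]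
  · have hsz : ∀ (d : Fin N → k) (e : k), symz Ψ (fun i => ν (lin (d i))) (ν (lin e)) = 0 :=
      sym_zero p h hN (symz Ψ) (symz_sym Ψ) (fun f hf0 hf1 => by
        rw [symz_diag, h2 f hf0 hf1, mul_zero])
    have h3 : ∀ (d : Fin N → k) (w : V), w ∈ Submodule.span ℚ (Set.range fun a : k => ν (lin a)) →
        symz Ψ (fun i => ν (lin (d i))) w = 0 := by
      intro d w hw
      induction hw using Submodule.span_induction with
      | mem x hx => obtain ⟨e, rfl⟩ := hx; exact hsz d e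
      | zero => rw [map_zero]
      | add x y hx hy hx' hy' => rw [map_add, hx', hy', add_zero]
      | smul a x hx hx' => rw [map_smul, hx', smul_zero]
    have h4 := ml_span (symz Ψ) (Set.range fun a : k => ν (lin a)) w (by
      intro v hv
      choose d hd using hv
      have : v = fun i => ν (lin (d i)) := funext fun i => (hd i).symm
      rw [this]
      exact h3 d w hw') (fun _ => v) (fun _ => hv')
    rw [symz_diag] at h4
    exact (mul_eq_zero.mp h4).resolve_left (by exact_mod_cast Nat.factorial_ne_zero N)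

end rat

end H72Gon
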