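import Pool.Agent.Helper72.Gon.Place

open Polynomial TensorProduct Pool.Agent.Helper91.Gon

set_option linter.unusedSectionVars false

namespace H72Rig

universe u v w

section spec

variable {F : Type u} [Field F]

lemma am_ne {P : F[X]} (h : P ≠ 0) : algebraMap F[X] (RatFunc F) P ≠ 0 :=
  (_root_.map_ne_zero_iff _ (RatFunc.algebraMap_injective F)).mpr h

lemma spec_inf (c : F) : spec c (OnePoint.infty : OnePoint (RatFunc F)) = OnePoint.infty := rfl

open Classical in
lemma spec_coe (c : F) (f : RatFunc F) : spec c (f : OnePoint (RatFunc F)) =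
    if f.denom.eval c = 0 then OnePoint.infty
      else ((f.num.eval c / f.denom.eval c : F) : OnePoint F) := rfl

lemma num_mul_eq {P Q : F[X]} (hQ : Q ≠ 0) :
    (algebraMap F[X] (RatFunc F) P / algebraMap F[X] (RatFunc F) Q).num * Q =
      P * (algebraMap F[X] (RatFunc F) P / algebraMap F[X] (RatFunc F) Q).denom := by
  set f := algebraMap F[X] (RatFunc F) P / algebraMap F[X] (RatFunc F) Q with hf
  have h1 := RatFunc.num_div_denom f
  have h2 := am_ne (RatFunc.denom_ne_zero f)
  have h3 := am_ne hQ
  apply RatFunc.algebraMap_injective F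
  rw [map_mul, map_mul]
  rw [← div_eq_div_iff h2 h3, h1]

open Classical in
lemma spec_div (c : F) {P Q : F[X]} (hQ : Q ≠ 0) (hc : P.eval c ≠ 0 ∨ Q.eval c ≠ 0) :
    spec c ((algebraMap F[X] (RatFunc F) P / algebraMap F[X] (RatFunc F) Q : RatFunc F) :
      OnePoint (RatFunc F)) =
    if Q.eval c = 0 then OnePoint.infty else ((P.eval c / Q.eval c : F) : OnePoint F) := by
  rw [spec_coe]
  have h1 := num_mul_eq (P := P) hQ
  set f := algebraMap F[X] (RatFunc F) P / algebraMap F[X] (RatFunc F) Q with hf
  have h2 := congrArg (Polynomial.eval c) h1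
  rw [eval_mul, eval_mul] at h2
  have hcop := RatFunc.isCoprime_num_denom f
  have hnd : ¬ (f.num.eval c = 0 ∧ f.denom.eval c = 0) := by
    rintro ⟨ha, hb⟩
    obtain ⟨a, b, hab⟩ := hcop
    have := congrArg (Polynomial.eval c) hab
    rw [eval_add, eval_mul, eval_mul, ha, hb, mul_zero, mul_zero, add_zero, eval_one] at this
    exact zero_ne_one this
  by_cases hQc : Q.eval c = 0
  · rw [if_pos hQc]
    rw [hQc, mul_zero] at h2
    have hP : P.eval c ≠ 0 := hc.resolve_right (fun h => h hQc)
    rw [if_pos ((mul_eq_zero.mp h2.symm).resolve_left hP)]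
  · rw [if_neg hQc]
    have hd : f.denom.eval c ≠ 0 := by
      intro h
      rw [h, mul_zero] at h2
      exact hnd ⟨(mul_eq_zero.mp h2).resolve_right hQc, h⟩
    rw [if_neg hd]
    congr 1
    rw [div_eq_div_iff hd hQc, h2]

lemma spec_poly (c : F) (P : F[X]) : spec c ((algebraMap F[X] (RatFunc F) P : RatFunc F) :
      OnePoint (RatFunc F)) = ((P.eval c : F) : OnePoint F) := by
  classical
  have := spec_div c (P := P) (Q := 1) one_ne_zero (Or.inr (by rw [eval_one]; exact one_ne_zero))
  rw [map_one, div_one, eval_one, if_neg one_ne_zero, div_one] at this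
  exact this

/-- leading coefficient at `c` of a polynomial -/
noncomputable def lc (c : F) : F[X] →*₀ F where
  toFun P := (taylor c P).trailingCoeff
  map_zero' := by rw [map_zero, trailingCoeff_zero]
  map_one' := by
    rw [taylor_one, trailingCoeff_eq_coeff_zero (by rw [coeff_C_zero]; exact one_ne_zero),
      coeff_C_zero]
  map_mul' P Q := by rw [taylor_mul, trailingCoeff_mul]

lemma lc_ne_zero (c : F) {P : F[X]} (hP : P ≠ 0) : lc c P ≠ 0 := by
  show (taylor c P).trailingCoeff ≠ 0
  rw [Ne, trailingCoeff_eq_zero]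
  intro h
  exact hP (taylor_injective c (by rw [h, map_zero]))

lemma lc_eq_eval (c : F) {P : F[X]} (hP : P.eval c ≠ 0) : lc c P = P.eval c := by
  show (taylor c P).trailingCoeff = P.eval c
  rw [← taylor_coeff_zero c P] at hP ⊢
  rw [trailingCoeff, natTrailingDegree_eq_zero.mpr (Or.inr hP)]

lemma lc_cond (c : F) : nonZeroDivisors F[X] ≤ Submonoid.comap (lc c) (nonZeroDivisors F) := by
  intro P hP
  rw [Submonoid.mem_comap, mem_nonZeroDivisors_iff_ne_zero]
  exact lc_ne_zero c (mem_nonZeroDivisors_iff_ne_zero.mp hP)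

/-- leading coefficient at `c` of a rational function -/
noncomputable def slc (c : F) : RatFunc F →*₀ F := RatFunc.liftMonoidWithZeroHom (lc c) (lc_cond c)

lemma slc_div (c : F) (P Q : F[X]) :
    slc c (algebraMap F[X] (RatFunc F) P / algebraMap F[X] (RatFunc F) Q) = lc c P / lc c Q :=
  RatFunc.liftMonoidWithZeroHom_apply_div _ _ _ _

/-- the place `t = c` -/
noncomputable def specPlace (c : F) : Place (RatFunc F) F where
  σ := spec c
  g := Vm (slc c)
  hinf := rfl
  hfin := fun f y h hy => by
    classical
    rw [Vm_lg]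
    congr 1
    rw [spec_coe] at h
    split_ifs at h with hd
    · exact absurd h (OnePoint.infty_ne_coe y)
    rw [OnePoint.coe_eq_coe] at h
    have hn : f.num.eval c ≠ 0 := by
      intro h0
      rw [h0, zero_div] at h
      exact hy h.symm
    have h1 := slc_div c f.num f.denom
    rw [RatFunc.num_div_denom] at h1
    rw [h1, lc_eq_eval c hn, lc_eq_eval c hd, h]
  h2 := fun f => by
    classical
    rw [Vm_lg, Vm_lg]
    have h1 := slc_div c f.num f.denom
    rw [RatFunc.num_div_denom] at h1
    have hden := am_ne (RatFunc.denom_ne_zero f)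
    have h2 : 1 - f = algebraMap F[X] (RatFunc F) (f.denom - f.num) /
        algebraMap F[X] (RatFunc F) f.denom := by
      conv_lhs => rw [← RatFunc.num_div_denom f]
      rw [map_sub, eq_div_iff hden, sub_mul, one_mul, div_mul_cancel₀ _ hden]
    have h3 := slc_div c (f.denom - f.num) f.denom
    rw [← h2] at h3
    have hcop := RatFunc.isCoprime_num_denom f
    have hnd : ¬ (f.num.eval c = 0 ∧ f.denom.eval c = 0) := by
      rintro ⟨ha, hb⟩
      obtain ⟨a, b, hab⟩ := hcop
      have := congrArg (Polynomial.eval c) hab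
      rw [eval_add, eval_mul, eval_mul, ha, hb, mul_zero, mul_zero, add_zero, eval_one] at this
      exact zero_ne_one this
    rw [spec_coe]
    by_cases hd : f.denom.eval c = 0
    · rw [if_pos hd, delta2_inf]
      have hn : f.num.eval c ≠ 0 := fun h => hnd ⟨h, hd⟩
      have hdn : (f.denom - f.num).eval c ≠ 0 := by
        rw [eval_sub, hd, zero_sub]; exact neg_ne_zero.mpr hn
      rw [h1, h3, lc_eq_eval c hn, lc_eq_eval c hdn, eval_sub, hd, zero_sub, neg_div, lg_neg]
      exact ww_self _
    · rw [if_neg hd, delta2_some']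
      by_cases hn : f.num.eval c = 0
      · have hdn : (f.denom - f.num).eval c ≠ 0 := by
          rw [eval_sub, hn, sub_zero]; exact hd
        rw [h3, lc_eq_eval c hdn, lc_eq_eval c hd, eval_sub, hn, sub_zero, div_self hd, lg_one,
          zero_div, lg_zero, map_zero, map_zero, LinearMap.zero_apply]
      · by_cases hdn : (f.denom - f.num).eval c = 0
        · rw [h1, lc_eq_eval c hn, lc_eq_eval c hd]
          rw [eval_sub, sub_eq_zero] at hdn
          rw [← hdn, div_self hd, lg_one, map_zero, map_zero]
        · rw [h1, h3, lc_eq_eval c hn, lc_eq_eval c hd, lc_eq_eval c hdn]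
          congr 3
          rw [eval_sub, sub_div, div_self hd]

lemma specPlace_Q (c : F) : (specPlace c).Q = specQ c := rfl

end spec

end H72Rig
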